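import Pool.Agent.Helper8.Hey.Defs

set_option autoImplicit false

/-! HY-7 -/

open Module
open scoped TensorProduct ContDiff

namespace Pool.Agent.Helper8.Hey

section CountAux

variable {G : Type} [AddCommGroup G]

private theorem count_index_eq (U : AddSubgroup (G × ℤ)) :
    U.index = (U.comap (AddMonoidHom.inl G ℤ)).index *
      (U.map (AddMonoidHom.snd G ℤ)).index := by
  have h1 : (U.map (AddMonoidHom.snd G ℤ)).index = (U ⊔ (AddMonoidHom.snd G ℤ).ker).index := by
    rw [AddSubgroup.index_map]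
    have : (AddMonoidHom.snd G ℤ).range = ⊤ :=
      AddMonoidHom.range_eq_top.2 (fun k => ⟨(0, k), rfl⟩)
    rw [this, AddSubgroup.index_top, mul_one]
  have h2 : (U.comap (AddMonoidHom.inl G ℤ)).index = U.relIndex (AddMonoidHom.snd G ℤ).ker := by
    rw [AddSubgroup.index_comap]
    congr 1
    ext ⟨x, k⟩
    rw [AddMonoidHom.mem_range, AddMonoidHom.mem_ker]
    constructor
    · rintro ⟨y, hy⟩
      exact (congrArg Prod.snd hy).symm
    · intro h
      exact ⟨x, Prod.ext rfl (show (0 : ℤ) = k from h.symm)⟩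
  have h3 : U.relIndex (U ⊔ (AddMonoidHom.snd G ℤ).ker) =
      U.relIndex (AddMonoidHom.snd G ℤ).ker :=
    AddSubgroup.relIndex_sup_left _ _
  rw [h1, h2, ← h3, AddSubgroup.relIndex_mul_index le_sup_left]

/-- the subgroup which belongs to `U'`, a coset and `e` -/
private def countSub (U' : AddSubgroup G) (q : G ⧸ U') (e : ℤ) : AddSubgroup (G × ℤ) where
  carrier := {x | ∃ k : ℤ, x.2 = e * k ∧ (QuotientAddGroup.mk x.1 : G ⧸ U') = k • q}
  zero_mem' := ⟨0, by simp, by simp⟩
  add_mem' := by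
    rintro ⟨a, i⟩ ⟨b, j⟩ ⟨k, h1, h2⟩ ⟨l, h3, h4⟩
    refine ⟨k + l, ?_, ?_⟩
    · simp only [Prod.snd_add] at *
      rw [h1, h3]; ring
    · simp only [Prod.fst_add] at *
      rw [QuotientAddGroup.mk_add, h2, h4, add_smul]
  neg_mem' := by
    rintro ⟨a, i⟩ ⟨k, h1, h2⟩
    refine ⟨-k, ?_, ?_⟩
    · simp only [Prod.snd_neg] at *
      rw [h1]; ring
    · simp only [Prod.fst_neg] at *
      rw [QuotientAddGroup.mk_neg, h2, neg_smul]

private theorem mem_countSub (U' : AddSubgroup G) (q : G ⧸ U') (e : ℤ) (x : G × ℤ) :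
    x ∈ countSub U' q e ↔
      ∃ k : ℤ, x.2 = e * k ∧ (QuotientAddGroup.mk x.1 : G ⧸ U') = k • q := Iff.rfl

private theorem countSub_comap (U' : AddSubgroup G) (q : G ⧸ U') {e : ℤ} (he : e ≠ 0) :
    (countSub U' q e).comap (AddMonoidHom.inl G ℤ) = U' := by
  ext x
  rw [AddSubgroup.mem_comap, mem_countSub]
  constructor
  · rintro ⟨k, h1, h2⟩
    have hk : k = 0 := by
      have h3 : e * k = 0 := h1.symm
      rcases mul_eq_zero.1 h3 with h | h
      · exact absurd h he
      · exact h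
    rw [hk, zero_smul] at h2
    exact (QuotientAddGroup.eq_zero_iff x).1 h2
  · intro hx
    refine ⟨0, by simp, ?_⟩
    rw [zero_smul]
    exact (QuotientAddGroup.eq_zero_iff x).2 hx

private theorem countSub_map (U' : AddSubgroup G) (q : G ⧸ U') (e : ℤ) :
    (countSub U' q e).map (AddMonoidHom.snd G ℤ) = AddSubgroup.zmultiples e := by
  ext k
  rw [AddSubgroup.mem_map, AddSubgroup.mem_zmultiples_iff]
  constructor
  · rintro ⟨⟨x, y⟩, ⟨l, h1, _⟩, h3⟩
    refine ⟨l, ?_⟩
    have h4 : y = k := h3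
    have h5 : y = e * l := h1
    rw [smul_eq_mul, ← h4, h5, mul_comm]
  · rintro ⟨l, rfl⟩
    obtain ⟨x, hx⟩ := QuotientAddGroup.mk_surjective (l • q)
    exact ⟨(x, l • e), ⟨l, by simp [mul_comm], hx⟩, rfl⟩

private theorem countSub_index (U' : AddSubgroup G) (q : G ⧸ U') {e : ℕ} (he : e ≠ 0) :
    (countSub U' q (e : ℤ)).index = U'.index * e := by
  rw [count_index_eq, countSub_comap U' q (by exact_mod_cast he), countSub_map,
    Int.index_zmultiples, Int.natAbs_natCast]

/-- the parametrisation of the subgroups of index `m` of `G × ℤ` -/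
private noncomputable def countFun (m : ℕ) (hm : m ≠ 0) :
    (Σ d : m.divisors, Σ U' : {U' : AddSubgroup G // U'.index = d.1}, G ⧸ U'.1) →
      {U : AddSubgroup (G × ℤ) // U.index = m} := fun y =>
  ⟨countSub y.2.1.1 y.2.2 ((m / y.1.1 : ℕ) : ℤ), by
    have hd := Nat.dvd_of_mem_divisors y.1.2
    have h1 : m / y.1.1 ≠ 0 := by
      intro h
      have h2 := Nat.div_mul_cancel hd
      rw [h, zero_mul] at h2
      exact hm h2.symm
    rw [countSub_index _ _ h1, y.2.1.2, mul_comm]
    exact Nat.div_mul_cancel hd⟩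

private theorem countFun_bij (m : ℕ) (hm : m ≠ 0) :
    Function.Bijective (countFun (G := G) m hm) := by
  have hdiv : ∀ d : ℕ, d ∈ m.divisors → m / d ≠ 0 := by
    intro d hd h
    have h2 := Nat.div_mul_cancel (Nat.dvd_of_mem_divisors hd)
    rw [h, zero_mul] at h2
    exact hm h2.symm
  constructor
  · rintro ⟨⟨d, hd⟩, ⟨U', hU'⟩, q⟩ ⟨⟨d₂, hd₂⟩, ⟨U₂, hU₂⟩, q₂⟩ h
    have h0 : countSub U' q ((m / d : ℕ) : ℤ) = countSub U₂ q₂ ((m / d₂ : ℕ) : ℤ) :=
      congrArg Subtype.val h
    have h1 : U' = U₂ := by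
      rw [← countSub_comap U' q (e := ((m / d : ℕ) : ℤ)) (by exact_mod_cast hdiv d hd), h0,
        countSub_comap U₂ q₂ (by exact_mod_cast hdiv d₂ hd₂)]
    subst h1
    simp only at hU' hU₂
    have h2 : d = d₂ := hU'.symm.trans hU₂
    subst h2
    have h3 : q = q₂ := by
      obtain ⟨x, hx⟩ := QuotientAddGroup.mk_surjective q
      have h4 : ((x, ((m / d : ℕ) : ℤ)) : G × ℤ) ∈ countSub U' q ((m / d : ℕ) : ℤ) :=
        ⟨1, by simp, by rw [one_smul]; exact hx⟩
      rw [h0] at h4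
      obtain ⟨k, h5, h6⟩ := h4
      have h7 : k = 1 := by
        have h8 : ((m / d : ℕ) : ℤ) ≠ 0 := by exact_mod_cast hdiv d hd
        have h9 : ((m / d : ℕ) : ℤ) = ((m / d : ℕ) : ℤ) * k := h5
        have h10 : ((m / d : ℕ) : ℤ) * 1 = ((m / d : ℕ) : ℤ) * k := by rw [mul_one]; exact h9
        exact (mul_left_cancel₀ h8 h10).symm
      rw [h7, one_smul] at h6
      rw [← hx]; exact h6
    subst h3
    rfl
  · rintro ⟨U, hU⟩
    set U' := U.comap (AddMonoidHom.inl G ℤ) with hU'
    have hidx := count_index_eq U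
    rw [hU, ← hU'] at hidx
    obtain ⟨e, he⟩ : ∃ e : ℤ, U.map (AddMonoidHom.snd G ℤ) = AddSubgroup.zmultiples e := by
      obtain ⟨e, he⟩ := Int.subgroup_cyclic (U.map (AddMonoidHom.snd G ℤ))
      exact ⟨e, by rw [he, AddSubgroup.zmultiples_eq_closure]⟩
    obtain ⟨e, he⟩ : ∃ e : ℕ, U.map (AddMonoidHom.snd G ℤ) = AddSubgroup.zmultiples (e : ℤ) := by
      refine ⟨e.natAbs, ?_⟩
      rw [he, Int.zmultiples_natAbs]
    have hidx2 : m = U'.index * e := by
      rw [he, Int.index_zmultiples, Int.natAbs_natCast] at hidx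
      exact hidx
    have hd : U'.index ∈ m.divisors := Nat.mem_divisors.2 ⟨⟨e, hidx2⟩, hm⟩
    have hd0 : U'.index ≠ 0 := by
      intro h; rw [h, zero_mul] at hidx2; exact hm hidx2
    have hme : m / U'.index = e := by
      rw [hidx2, Nat.mul_div_cancel_left _ (Nat.pos_of_ne_zero hd0)]
    have hemem : (e : ℤ) ∈ U.map (AddMonoidHom.snd G ℤ) := by
      rw [he]; exact AddSubgroup.mem_zmultiples _
    obtain ⟨⟨g, e'⟩, hg, hge⟩ := hemem
    have hge' : e' = (e : ℤ) := hge
    subst hge'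
    refine ⟨⟨⟨U'.index, hd⟩, ⟨U', rfl⟩, QuotientAddGroup.mk g⟩, ?_⟩
    apply Subtype.ext
    show countSub U' (QuotientAddGroup.mk g) ((m / U'.index : ℕ) : ℤ) = U
    rw [hme]
    ext ⟨x, k'⟩
    rw [mem_countSub]
    have hiff : ∀ k : ℤ, (QuotientAddGroup.mk x : G ⧸ U') = k • QuotientAddGroup.mk g ↔
        ((x, (e : ℤ) * k) : G × ℤ) ∈ U := by
      intro k
      have e1 : (k • (QuotientAddGroup.mk g : G ⧸ U')) = QuotientAddGroup.mk (k • g) := rfl
      rw [e1, QuotientAddGroup.eq]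
      have e2 : -x + k • g ∈ U' ↔ ((-x + k • g, (0 : ℤ)) : G × ℤ) ∈ U := Iff.rfl
      rw [e2]
      have e3 : ((-x + k • g, (0 : ℤ)) : G × ℤ) = k • ((g, (e : ℤ)) : G × ℤ) -
          ((x, (e : ℤ) * k) : G × ℤ) := by
        ext
        · simp only [Prod.fst_sub, Prod.smul_fst]; abel
        · simp only [Prod.snd_sub, Prod.smul_snd, smul_eq_mul]; ring
      rw [e3]
      constructor
      · intro h
        have h2 := U.sub_mem (U.zsmul_mem hg k) h
        rwa [sub_sub_cancel] at h2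
      · intro h
        exact U.sub_mem (U.zsmul_mem hg k) h
    constructor
    · rintro ⟨k, h1, h2⟩
      have h1' : k' = (e : ℤ) * k := h1
      rw [h1']
      exact (hiff k).1 h2
    · intro h
      have h1 : k' ∈ U.map (AddMonoidHom.snd G ℤ) := ⟨(x, k'), h, rfl⟩
      rw [he, AddSubgroup.mem_zmultiples_iff] at h1
      obtain ⟨k, hk⟩ := h1
      have hk' : k' = (e : ℤ) * k := by rw [← hk, smul_eq_mul, mul_comm]
      refine ⟨k, hk', ?_⟩
      rw [hk'] at h
      exact (hiff k).2 h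

private theorem count_quot_finite (m : ℕ) (U' : AddSubgroup G) {d : ℕ} (hd : d ∈ m.divisors)
    (hU' : U'.index = d) : Finite (G ⧸ U') := by
  apply Nat.finite_of_card_ne_zero
  have h1 : Nat.card (G ⧸ U') = d := hU'
  rw [h1]
  exact (Nat.pos_of_mem_divisors hd).ne'

/-- splitting off the first coordinate -/
private def countSplit (n : ℕ) : (Fin (n + 1) → ℤ) ≃+ (Fin n → ℤ) × ℤ where
  toFun f := (fun i => f i.succ, f 0)
  invFun x := Fin.cons x.2 x.1
  left_inv f := by
    ext i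
    refine Fin.cases ?_ (fun i => ?_) i <;> simp
  right_inv x := by simp
  map_add' f g := rfl

end CountAux

private theorem count_all (n : ℕ) : ∀ m : ℕ, m ≠ 0 →
    Finite {U : AddSubgroup (Fin n → ℤ) // U.index = m} ∧
    Nat.card {U : AddSubgroup (Fin n → ℤ) // U.index = m} = cnt n m := by
  induction n with
  | zero =>
    intro m _
    have hsub : Subsingleton (AddSubgroup (Fin 0 → ℤ)) :=
      ⟨fun U V => by
        ext x
        have hx : x = 0 := Subsingleton.elim _ _
        rw [hx]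
        exact ⟨fun _ => V.zero_mem, fun _ => U.zero_mem⟩⟩
    have hfin : Finite {U : AddSubgroup (Fin 0 → ℤ) // U.index = m} := inferInstance
    refine ⟨hfin, ?_⟩
    have hidx : ∀ U : AddSubgroup (Fin 0 → ℤ), U.index = 1 := by
      intro U
      have : U = ⊤ := Subsingleton.elim _ _
      rw [this, AddSubgroup.index_top]
    unfold cnt
    split_ifs with h
    · subst h
      rw [Nat.card_eq_one_iff_unique]
      exact ⟨inferInstance, ⟨⟨⊤, hidx _⟩⟩⟩
    · rw [Nat.card_eq_zero]
      left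
      exact ⟨fun U => h ((U.2.symm.trans (hidx U.1)))⟩
  | succ n ih =>
    intro m hm
    have e1 : {U : AddSubgroup (Fin (n + 1) → ℤ) // U.index = m} ≃
        {U : AddSubgroup ((Fin n → ℤ) × ℤ) // U.index = m} :=
      Equiv.subtypeEquiv (countSplit n).mapAddSubgroup.toEquiv (fun U => by
        have h : ((countSplit n).mapAddSubgroup U).index = U.index :=
          AddSubgroup.index_map_equiv U (countSplit n)
        exact ⟨fun h1 => h.trans h1, fun h1 => h.symm.trans h1⟩)
    have e2 := Equiv.ofBijective _ (countFun_bij (G := Fin n → ℤ) m hm)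
    have hf1 : ∀ d : m.divisors,
        Finite {U' : AddSubgroup (Fin n → ℤ) // U'.index = d.1} := fun d =>
      (ih d.1 (Nat.pos_of_mem_divisors d.2).ne').1
    have hf2 : ∀ (d : m.divisors) (U' : {U' : AddSubgroup (Fin n → ℤ) // U'.index = d.1}),
        Finite ((Fin n → ℤ) ⧸ U'.1) := fun d U' => count_quot_finite m U'.1 d.2 U'.2
    have hf3 : ∀ d : m.divisors, Finite (Σ U' : {U' : AddSubgroup (Fin n → ℤ) //
        U'.index = d.1}, (Fin n → ℤ) ⧸ U'.1) := fun d => inferInstance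
    have hf4 : Finite (Σ d : m.divisors, Σ U' : {U' : AddSubgroup (Fin n → ℤ) //
        U'.index = d.1}, (Fin n → ℤ) ⧸ U'.1) := inferInstance
    refine ⟨Finite.of_equiv _ (e2.trans e1.symm), ?_⟩
    rw [Nat.card_congr (e1.trans e2.symm), Nat.card_sigma]
    have h5 : ∀ d : m.divisors, Nat.card (Σ U' : {U' : AddSubgroup (Fin n → ℤ) //
        U'.index = d.1}, (Fin n → ℤ) ⧸ U'.1) = cnt n d.1 * d.1 := by
      intro d
      have : Fintype {U' : AddSubgroup (Fin n → ℤ) // U'.index = d.1} := Fintype.ofFinite _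
      rw [Nat.card_sigma]
      have h6 : ∀ U' : {U' : AddSubgroup (Fin n → ℤ) // U'.index = d.1},
          Nat.card ((Fin n → ℤ) ⧸ U'.1) = d.1 := fun U' => U'.2
      simp only [h6]
      rw [Finset.sum_const, Finset.card_univ, ← Nat.card_eq_fintype_card,
        (ih d.1 (Nat.pos_of_mem_divisors d.2).ne').2, smul_eq_mul]
    simp only [h5]
    rw [cnt]
    exact Finset.sum_coe_sort m.divisors (fun d => cnt n d * d)

theorem finite_index (n m : ℕ) (hm : m ≠ 0) :
    Finite {U : AddSubgroup (Fin n → ℤ) // U.index = m} := (count_all n m hm).1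

theorem card_index (n m : ℕ) (hm : m ≠ 0) :
    Nat.card {U : AddSubgroup (Fin n → ℤ) // U.index = m} = cnt n m := (count_all n m hm).2

end Pool.Agent.Helper8.Hey
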