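import Pool.Agent.Helper8.Hey.Defs

set_option autoImplicit false

/-! HY-5 -/

open Module
open scoped TensorProduct ContDiff

namespace Pool.Agent.Helper8.Hey

/-- the pair of two matrix valued ring homomorphisms -/
private def crtPair {Λ : Type} [Ring Λ] {n : ℕ} {R S : Type} [CommRing R] [CommRing S]
    (f : Λ →+* Matrix (Fin n) (Fin n) R) (g : Λ →+* Matrix (Fin n) (Fin n) S) :
    Λ →+* Matrix (Fin n) (Fin n) (R × S) where
  toFun x := Matrix.of fun i j => (f x i j, g x i j)
  map_one' := by
    ext i j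
    · rw [map_one]
      by_cases h : i = j
      · subst h; simp
      · simp [Matrix.one_apply_ne h]
    · rw [map_one]
      by_cases h : i = j
      · subst h; simp
      · simp [Matrix.one_apply_ne h]
  map_zero' := by
    ext i j
    · rw [map_zero]; simp
    · rw [map_zero]; simp
  map_add' x y := by
    ext i j
    · rw [map_add]; simp
    · rw [map_add]; simp
  map_mul' x y := by
    ext i j
    · rw [map_mul, Matrix.mul_apply, Prod.fst_sum]
      simp [Matrix.mul_apply]
    · rw [map_mul, Matrix.mul_apply, Prod.snd_sum]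
      simp [Matrix.mul_apply]

private theorem crt_mul {D : Type} [Ring D] (Λ : Subring D) (n a b : ℕ) (hab : a.Coprime b)
    (ha : SplitAt Λ n a) (hb : SplitAt Λ n b) : SplitAt Λ n (a * b) := by
  obtain ⟨f, hf1, hf2⟩ := ha
  obtain ⟨g, hg1, hg2⟩ := hb
  obtain ⟨u, v, huv⟩ : ∃ u v : ℤ, u * a + v * b = 1 := by
    have h := Nat.isCoprime_iff_coprime.2 hab
    exact h
  have huvΛ : (u : Λ) * (a : Λ) + (v : Λ) * (b : Λ) = 1 := by
    have := congrArg (Int.cast : ℤ → Λ) huv
    push_cast at this
    exact this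
  set c := ZMod.chineseRemainder hab with hc
  set π : Λ →+* Matrix (Fin n) (Fin n) (ZMod (a * b)) :=
    (c.symm.toRingHom.mapMatrix).comp (crtPair f g) with hπ
  have hπ0 : ∀ x, π x = 0 ↔ f x = 0 ∧ g x = 0 := by
    intro x
    have h1 : ∀ i j, π x i j = c.symm (f x i j, g x i j) := fun i j => rfl
    constructor
    · intro h
      have h2 : ∀ i j, (f x i j, g x i j) = 0 := by
        intro i j
        have h3 := h1 i j
        rw [h] at h3
        have h4 : c.symm (f x i j, g x i j) = c.symm 0 := by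
          rw [← h3, map_zero]
          rfl
        exact c.symm.injective h4
      constructor
      · ext i j
        exact congrArg Prod.fst (h2 i j)
      · ext i j
        exact congrArg Prod.snd (h2 i j)
    · rintro ⟨h2, h3⟩
      ext i j
      rw [h1, h2, h3]
      exact map_zero c.symm
  refine ⟨π, ?_, ?_⟩
  · intro M
    obtain ⟨x, hx⟩ := hf1 (Matrix.of fun i j => (c (M i j)).1)
    obtain ⟨y, hy⟩ := hg1 (Matrix.of fun i j => (c (M i j)).2)
    have hfa : f ((a : Λ)) = 0 := (hf2 _).2 ⟨1, (mul_one _).symm⟩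
    have hgb : g ((b : Λ)) = 0 := (hg2 _).2 ⟨1, (mul_one _).symm⟩
    have hfb : f ((v : Λ) * (b : Λ)) = 1 := by
      have h := congrArg f huvΛ
      rw [map_add, map_mul, hfa, mul_zero, zero_add, map_one] at h
      exact h
    have hga : g ((u : Λ) * (a : Λ)) = 1 := by
      have h := congrArg g huvΛ
      rw [map_add, map_mul g (v : Λ), hgb, mul_zero, add_zero, map_one] at h
      exact h
    refine ⟨(v : Λ) * (b : Λ) * x + (u : Λ) * (a : Λ) * y, ?_⟩
    have hf3 : f ((v : Λ) * (b : Λ) * x + (u : Λ) * (a : Λ) * y) =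
        Matrix.of fun i j => (c (M i j)).1 := by
      rw [map_add, map_mul, hfb, one_mul, map_mul, map_mul, hfa, mul_zero, zero_mul, add_zero, hx]
    have hg3 : g ((v : Λ) * (b : Λ) * x + (u : Λ) * (a : Λ) * y) =
        Matrix.of fun i j => (c (M i j)).2 := by
      rw [map_add, map_mul g _ y, hga, one_mul, map_mul, map_mul, hgb, mul_zero, zero_mul,
        zero_add, hy]
    ext i j
    change c.symm (f _ i j, g _ i j) = M i j
    rw [hf3, hg3]
    exact c.symm_apply_apply (M i j)
  · intro x
    rw [hπ0]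
    constructor
    · rintro ⟨h1, h2⟩
      obtain ⟨y, hy⟩ := (hf2 x).1 h1
      obtain ⟨z, hz⟩ := (hg2 x).1 h2
      refine ⟨(u : Λ) * z + (v : Λ) * y, ?_⟩
      have c1 : (a : Λ) * (b : Λ) * ((u : Λ) * z) = (u : Λ) * (a : Λ) * ((b : Λ) * z) := by
        rw [← mul_assoc ((a : Λ) * (b : Λ)), ← mul_assoc ((u : Λ) * (a : Λ))]
        congr 1
        have h3 := congrArg (Int.cast : ℤ → Λ) (by ring : (a : ℤ) * b * u = u * a * b)
        push_cast at h3
        exact h3
      have c2 : (a : Λ) * (b : Λ) * ((v : Λ) * y) = (v : Λ) * (b : Λ) * ((a : Λ) * y) := by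
        rw [← mul_assoc ((a : Λ) * (b : Λ)), ← mul_assoc ((v : Λ) * (b : Λ))]
        congr 1
        have h3 := congrArg (Int.cast : ℤ → Λ) (by ring : (a : ℤ) * b * v = v * b * a)
        push_cast at h3
        exact h3
      rw [Nat.cast_mul, mul_add, c1, c2, ← hz, ← hy, ← add_mul, huvΛ, one_mul]
    · rintro ⟨y, hy⟩
      constructor
      · rw [hf2]
        exact ⟨(b : Λ) * y, by rw [hy, Nat.cast_mul, mul_assoc]⟩
      · rw [hg2]
        refine ⟨(a : Λ) * y, ?_⟩
        rw [hy, Nat.cast_mul, ← mul_assoc, (Nat.cast_commute a (b : Λ)).eq]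

theorem splitAt_all {D : Type} [Ring D] (Λ : Subring D) (n : ℕ)
    (h : ∀ p k : ℕ, p.Prime → SplitAt Λ n (p ^ k)) (m : ℕ) (hm : m ≠ 0) : SplitAt Λ n m := by
  revert hm
  refine Nat.recOnPosPrimePosCoprime (motive := fun m => m ≠ 0 → SplitAt Λ n m)
    ?_ ?_ ?_ ?_ m
  · intro p k hp _ _
    exact h p k hp
  · intro h0
    exact absurd rfl h0
  · intro _
    have := h 2 0 Nat.prime_two
    rwa [pow_zero] at this
  · intro a b ha hb hab iha ihb _
    exact crt_mul Λ n a b hab (iha (by omega)) (ihb (by omega))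

end Pool.Agent.Helper8.Hey
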