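import Pool.Agent.Helper8.Hey.Lattice1

set_option autoImplicit false

/-! HY-17 -/

open Module
open scoped TensorProduct ContDiff

namespace Pool.Agent.Helper8.Hey

/-- support in the box `[-R, R]^N` -/
private def lnBox {N : ℕ} (R : ℝ) (f : (Fin N → ℝ) → ℝ) : Prop :=
  ∀ x, (∃ i, R < |x i|) → f x = 0

/-- the finite set of relevant lattice points -/
private noncomputable def lnP (N : ℕ) (R T : ℝ) : Finset (Fin N → ℤ) :=
  Fintype.piFinset fun _ => Finset.Icc ⌈-(R * T)⌉ ⌊R * T⌋

private theorem ln_not_mem {N : ℕ} {R T : ℝ} (hT : 0 < T) {y : Fin N → ℤ}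
    (hy : y ∉ lnP N R T) : ∃ i, R < |(T⁻¹ • fun i => (y i : ℝ)) i| := by
  rw [lnP, Fintype.mem_piFinset] at hy
  push Not at hy
  obtain ⟨i, hi⟩ := hy
  refine ⟨i, ?_⟩
  rw [Pi.smul_apply, smul_eq_mul, abs_mul, abs_of_pos (inv_pos.2 hT), ← div_eq_inv_mul,
    lt_div_iff₀ hT]
  by_contra h
  rw [not_lt, abs_le] at h
  exact hi (Finset.mem_Icc.2 ⟨Int.ceil_le.2 h.1, Int.le_floor.2 h.2⟩)

private theorem ln_card {N : ℕ} {R T : ℝ} (hR : 0 < R) (hT : 1 ≤ T) :
    ((lnP N R T).card : ℝ) ≤ (2 * R + 1) ^ N * T ^ N := by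
  rw [lnP, Fintype.card_piFinset_const, Int.card_Icc, Nat.cast_pow, ← mul_pow]
  refine pow_le_pow_left₀ (by positivity) ?_ _
  have h1 : (⌊R * T⌋ : ℝ) ≤ R * T := Int.floor_le _
  have h2 : -(R * T) ≤ (⌈-(R * T)⌉ : ℝ) := Int.le_ceil _
  have h3 : ((⌊R * T⌋ + 1 - ⌈-(R * T)⌉).toNat : ℝ)
      ≤ max ((⌊R * T⌋ + 1 - ⌈-(R * T)⌉ : ℤ) : ℝ) 0 := by
    rw [← Int.cast_natCast, Int.toNat_eq_max]
    push_cast
    exact le_rfl
  refine h3.trans (max_le ?_ (by positivity))
  push_cast
  nlinarith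

private theorem ln_tsum {N : ℕ} {R T : ℝ} (hT : 0 < T) {f : (Fin N → ℝ) → ℝ} (hf : lnBox R f) :
    ∑' y : Fin N → ℤ, f (T⁻¹ • fun i => (y i : ℝ))
      = ∑ y ∈ lnP N R T, f (T⁻¹ • fun i => (y i : ℝ)) :=
  tsum_eq_sum fun _ hy => hf _ (ln_not_mem hT hy)

private theorem ln_compact {N : ℕ} {R : ℝ} {f : (Fin N → ℝ) → ℝ} (hf : lnBox R f) :
    HasCompactSupport f := by
  refine HasCompactSupport.of_support_subset_isCompact
    (isCompact_Icc (a := fun _ => -R) (b := fun _ => R)) ?_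
  intro x hx
  by_contra h
  refine hx (hf x ?_)
  by_contra h'
  push Not at h'
  exact h ⟨fun i => (abs_le.1 (h' i)).1, fun i => (abs_le.1 (h' i)).2⟩

private theorem ln_cons_smooth {N : ℕ} (y : Fin N → ℝ) :
    ContDiff ℝ ∞ (fun s : ℝ => (Fin.cons s y : Fin (N + 1) → ℝ)) := by
  rw [contDiff_pi]
  intro i
  refine Fin.cases ?_ (fun j => ?_) i
  · simp only [Fin.cons_zero]
    exact contDiff_id
  · simpa using contDiff_const

private theorem ln_cons_smooth' {N : ℕ} (s : ℝ) :
    ContDiff ℝ ∞ (fun y : Fin N → ℝ => (Fin.cons s y : Fin (N + 1) → ℝ)) := by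
  rw [contDiff_pi]
  intro i
  refine Fin.cases ?_ (fun j => ?_) i
  · simpa using contDiff_const
  · simpa using contDiff_apply ℝ ℝ j

private theorem ln_cons_cont {N : ℕ} :
    Continuous (fun p : ℝ × (Fin N → ℝ) => (Fin.cons p.1 p.2 : Fin (N + 1) → ℝ)) := by
  refine continuous_pi fun i => ?_
  refine Fin.cases ?_ (fun j => ?_) i
  · simpa using continuous_fst
  · simp only [Fin.cons_succ]
    exact (continuous_apply j).comp continuous_snd

private theorem ln_uniform (R : ℝ) (hR : 0 < R) (k : ℕ) : ∀ N : ℕ, ∃ K : ℝ, 0 ≤ K ∧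
    ∀ (f : (Fin N → ℝ) → ℝ) (B : ℝ), ContDiff ℝ ∞ f → lnBox R f → 0 ≤ B →
    (∀ (i : Fin N) (x : Fin N → ℝ),
      |iteratedDeriv (k + 1) (fun s => f (Function.update x i s)) (x i)| ≤ B) →
    ∀ T : ℝ, 1 ≤ T →
      |∑' x : Fin N → ℤ, f (T⁻¹ • fun i => (x i : ℝ)) - T ^ N * ∫ x, f x| ≤
        K * B * T ^ N / T ^ k := by
  obtain ⟨K1, hK1⟩ := lattice_sum_one R hR k
  intro N
  induction N with
  | zero =>
    refine ⟨0, le_rfl, fun f B _ _ _ _ T _ => ?_⟩
    rw [tsum_eq_single (default : Fin 0 → ℤ) (fun b hb => absurd (Subsingleton.elim _ _) hb),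
      MeasureTheory.Measure.volume_pi_eq_dirac, MeasureTheory.integral_dirac]
    have : (T⁻¹ • fun i : Fin 0 => ((default : Fin 0 → ℤ) i : ℝ)) = isEmptyElim :=
      Subsingleton.elim _ _
    rw [this]
    simp
  | succ N ih =>
    obtain ⟨K2, hK2, hI⟩ := ih
    refine ⟨(2 * R + 1) ^ N * |K1| + 2 * R * K2, by positivity, ?_⟩
    intro f B hf hbox hB hd T hT
    have hT0 : 0 < T := by linarith
    have hcs := ln_compact hbox
    have hcont : Continuous f := hf.continuous
    -- slices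
    have hs1 : ∀ y : Fin N → ℝ, ContDiff ℝ ∞ fun s : ℝ => f (Fin.cons s y) := fun y =>
      hf.comp (ln_cons_smooth y)
    have hs2 : ∀ s : ℝ, ContDiff ℝ ∞ fun y : Fin N → ℝ => f (Fin.cons s y) := fun s =>
      hf.comp (ln_cons_smooth' s)
    have hz1 : ∀ y : Fin N → ℝ, ∀ s, R < |s| → f (Fin.cons s y) = 0 := fun y s hs =>
      hbox _ ⟨0, by simpa using hs⟩
    have hz2 : ∀ s : ℝ, lnBox R fun y : Fin N → ℝ => f (Fin.cons s y) := by
      rintro s y ⟨i, hi⟩
      exact hbox _ ⟨i.succ, by simpa using hi⟩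
    have hd1 : ∀ (y : Fin N → ℝ) (s : ℝ),
        |iteratedDeriv (k + 1) (fun s : ℝ => f (Fin.cons s y)) s| ≤ B := by
      intro y s
      have h := hd 0 (Fin.cons s y)
      simpa only [Fin.update_cons_zero, Fin.cons_zero] using h
    have hd2 : ∀ (s : ℝ) (i : Fin N) (y : Fin N → ℝ),
        |iteratedDeriv (k + 1) (fun t => f (Fin.cons s (Function.update y i t))) (y i)| ≤ B := by
      intro s i y
      have h := hd i.succ (Fin.cons s y)
      simpa only [← Fin.cons_update, Fin.cons_succ] using h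
    have hE1 : ∀ y : Fin N → ℝ, |∑' a : ℤ, f (Fin.cons (T⁻¹ * a) y)
        - T * ∫ s, f (Fin.cons s y)| ≤ |K1| * B * T / T ^ k := by
      intro y
      refine (hK1 (fun s => f (Fin.cons s y)) B (hs1 y) (hz1 y) (hd1 y) T hT).trans ?_
      refine div_le_div_of_nonneg_right ?_ (by positivity)
      exact mul_le_mul_of_nonneg_right (mul_le_mul_of_nonneg_right (le_abs_self _) hB) hT0.le
    -- the lattice sum as a double sum
    have hcons : ∀ (a : ℤ) (y : Fin N → ℤ),
        (T⁻¹ • fun i => (((Fin.cons a y : Fin (N + 1) → ℤ) i : ℤ) : ℝ))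
          = (Fin.cons (T⁻¹ * a) (T⁻¹ • fun i => (y i : ℝ)) : Fin (N + 1) → ℝ) := by
      intro a y
      funext i
      refine Fin.cases ?_ (fun j => ?_) i
      · simp
      · simp
    have hsum : ∑' x : Fin (N + 1) → ℤ, f (T⁻¹ • fun i => (x i : ℝ))
        = ∑ y ∈ lnP N R T, ∑' a : ℤ, f (Fin.cons (T⁻¹ * a) (T⁻¹ • fun i => (y i : ℝ))) := by
      set e : (Fin N → ℤ) × ℤ ≃ (Fin (N + 1) → ℤ) :=
        (Equiv.prodComm _ _).trans (Fin.consEquiv (fun _ : Fin (N + 1) => ℤ)) with he
      have h1 : ∀ p : (Fin N → ℤ) × ℤ, e p = Fin.cons p.2 p.1 := fun p => rfl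
      rw [← e.tsum_eq]
      have hsm : Summable fun p : (Fin N → ℤ) × ℤ => f (T⁻¹ • fun i => ((e p i : ℤ) : ℝ)) := by
        refine summable_of_hasFiniteSupport ?_
        have hfin : Set.Finite ((e.symm) '' (lnP (N + 1) R T : Set (Fin (N + 1) → ℤ))) :=
          (Finset.finite_toSet _).image _
        refine hfin.subset fun p hp => ?_
        refine ⟨e p, ?_, by simp⟩
        by_contra h
        exact hp (hbox _ (ln_not_mem hT0 h))
      rw [hsm.tsum_prod]
      rw [tsum_eq_sum (s := lnP N R T)]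
      · refine Finset.sum_congr rfl fun y _ => tsum_congr fun a => ?_
        rw [h1, hcons]
      · intro y hy
        have h2 : ∀ a : ℤ, f (T⁻¹ • fun i => ((e (y, a) i : ℤ) : ℝ)) = 0 := by
          intro a
          rw [h1, hcons]
          exact hz2 _ _ (ln_not_mem hT0 hy)
        simp only [h2, tsum_zero]
    -- the integral
    have hmp := (MeasureTheory.volume_preserving_piFinSuccAbove (fun _ : Fin (N + 1) => ℝ) 0)
    have hint : MeasureTheory.Integrable f := hcont.integrable_of_hasCompactSupport hcs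
    have hsymm : ∀ p : ℝ × (Fin N → ℝ),
        (MeasurableEquiv.piFinSuccAbove (fun _ : Fin (N + 1) => ℝ) 0).symm p
          = Fin.cons p.1 p.2 := by
      intro p
      simp [MeasurableEquiv.piFinSuccAbove]
      rfl
    have hint2 : MeasureTheory.Integrable (fun p : ℝ × (Fin N → ℝ) => f (Fin.cons p.1 p.2)) := by
      have h := hmp.symm.integrable_comp_emb (MeasurableEquiv.measurableEmbedding _) (g := f)
      have h2 := h.2 hint
      refine h2.congr (Filter.Eventually.of_forall fun p => ?_)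
      simp only [Function.comp]
      rw [hsymm]
    have hfub : ∫ x, f x = ∫ s : ℝ, ∫ y : Fin N → ℝ, f (Fin.cons s y) := by
      rw [← hmp.symm.integral_comp (MeasurableEquiv.measurableEmbedding _) f]
      simp only [hsymm]
      rw [MeasureTheory.Measure.volume_eq_prod] at hint2 ⊢
      exact MeasureTheory.integral_prod _ hint2
    have hint3 : MeasureTheory.Integrable fun s : ℝ => ∫ y : Fin N → ℝ, f (Fin.cons s y) := by
      rw [MeasureTheory.Measure.volume_eq_prod] at hint2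
      exact hint2.integral_prod_left
    have hint4 : ∀ y : Fin N → ℝ, MeasureTheory.Integrable fun s : ℝ => f (Fin.cons s y) := by
      intro y
      refine (hs1 y).continuous.integrable_of_hasCompactSupport ?_
      refine HasCompactSupport.of_support_subset_isCompact (isCompact_Icc (a := -R) (b := R)) ?_
      intro s hs
      by_contra h
      refine hs (hz1 y s ?_)
      by_contra h'
      rw [not_lt] at h'
      exact h (abs_le.1 h')
    -- the second error
    set G : ℝ → ℝ := fun s => (∑ y ∈ lnP N R T, f (Fin.cons s (T⁻¹ • fun i => (y i : ℝ))))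
      - T ^ N * ∫ y : Fin N → ℝ, f (Fin.cons s y) with hG
    have hGb : ∀ s, |G s| ≤ K2 * B * T ^ N / T ^ k := by
      intro s
      have h := hI (fun y => f (Fin.cons s y)) B (hs2 s) (hz2 s) hB (hd2 s) T hT
      rw [ln_tsum hT0 (hz2 s)] at h
      exact h
    have hG0 : ∀ s, s ∉ Set.Icc (-R) R → G s = 0 := by
      intro s hs
      have h1 : R < |s| := by
        by_contra h
        rw [not_lt] at h
        exact hs (abs_le.1 h)
      have h2 : ∀ y : Fin N → ℝ, f (Fin.cons s y) = 0 := fun y => hz1 y s h1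
      simp only [hG, h2, Finset.sum_const_zero, MeasureTheory.integral_zero, mul_zero, sub_zero]
    have hE2 : |∫ s, G s| ≤ K2 * B * T ^ N / T ^ k * (2 * R) := by
      rw [← MeasureTheory.setIntegral_eq_integral_of_forall_compl_eq_zero hG0]
      have h := MeasureTheory.norm_setIntegral_le_of_norm_le_const (μ := MeasureTheory.volume)
        (s := Set.Icc (-R) R) (f := G) (C := K2 * B * T ^ N / T ^ k) (by simp)
        (fun s _ => by rw [Real.norm_eq_abs]; exact hGb s)
      rw [Real.norm_eq_abs] at h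
      refine h.trans (le_of_eq ?_)
      rw [Real.volume_real_Icc_of_le (by linarith)]
      ring
    have hGint : ∫ s, G s
        = ∑ y ∈ lnP N R T, (∫ s, f (Fin.cons s (T⁻¹ • fun i => (y i : ℝ)))) - T ^ N * ∫ x, f x := by
      simp only [hG]
      rw [MeasureTheory.integral_sub, MeasureTheory.integral_finsetSum,
        MeasureTheory.integral_const_mul, hfub]
      · intro y _
        exact hint4 _
      · exact MeasureTheory.integrable_finsetSum _ fun y _ => hint4 _
      · exact hint3.const_mul _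
    -- conclusion
    have hfin : ∑' x : Fin (N + 1) → ℤ, f (T⁻¹ • fun i => (x i : ℝ)) - T ^ (N + 1) * ∫ x, f x
        = ∑ y ∈ lnP N R T, (∑' a : ℤ, f (Fin.cons (T⁻¹ * a) (T⁻¹ • fun i => (y i : ℝ)))
            - T * ∫ s, f (Fin.cons s (T⁻¹ • fun i => (y i : ℝ)))) + T * ∫ s, G s := by
      rw [hsum, hGint, Finset.sum_sub_distrib, ← Finset.mul_sum]
      ring
    rw [hfin]
    refine (abs_add_le _ _).trans ?_
    have h1 : |∑ y ∈ lnP N R T, (∑' a : ℤ, f (Fin.cons (T⁻¹ * a) (T⁻¹ • fun i => (y i : ℝ)))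
            - T * ∫ s, f (Fin.cons s (T⁻¹ • fun i => (y i : ℝ))))|
        ≤ (2 * R + 1) ^ N * T ^ N * (|K1| * B * T / T ^ k) := by
      refine (Finset.abs_sum_le_sum_abs _ _).trans ?_
      refine (Finset.sum_le_sum fun y _ => hE1 _).trans ?_
      rw [Finset.sum_const, nsmul_eq_mul]
      exact mul_le_mul_of_nonneg_right (ln_card hR hT) (by positivity)
    have h2 : |T * ∫ s, G s| ≤ T * (K2 * B * T ^ N / T ^ k * (2 * R)) := by
      rw [abs_mul, abs_of_pos hT0]
      exact mul_le_mul_of_nonneg_left hE2 hT0.le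
    refine (add_le_add h1 h2).trans (le_of_eq ?_)
    rw [pow_succ]
    field_simp

/-- directional derivative -/
private noncomputable def lnD {N : ℕ} (i : Fin N) (g : (Fin N → ℝ) → ℝ) : (Fin N → ℝ) → ℝ :=
  fun x => fderiv ℝ g x (Pi.single i 1)

private theorem lnD_smooth {N : ℕ} (i : Fin N) {g : (Fin N → ℝ) → ℝ} (hg : ContDiff ℝ ∞ g) :
    ContDiff ℝ ∞ (lnD i g) :=
  (hg.fderiv_right (m := ∞) (by simp)).clm_apply contDiff_const

private theorem lnD_iter_smooth {N : ℕ} (i : Fin N) {g : (Fin N → ℝ) → ℝ} (hg : ContDiff ℝ ∞ g)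
    (n : ℕ) : ContDiff ℝ ∞ ((lnD i)^[n] g) := by
  induction n with
  | zero => exact hg
  | succ n ih => rw [Function.iterate_succ_apply']; exact lnD_smooth i ih

private theorem lnD_iter_compact {N : ℕ} (i : Fin N) {g : (Fin N → ℝ) → ℝ}
    (hg : HasCompactSupport g) (n : ℕ) : HasCompactSupport ((lnD i)^[n] g) := by
  induction n with
  | zero => exact hg
  | succ n ih => rw [Function.iterate_succ_apply']; exact ih.fderiv_apply (𝕜 := ℝ) _

private theorem lnD_iteratedDeriv {N : ℕ} (i : Fin N) {g : (Fin N → ℝ) → ℝ}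
    (hg : ContDiff ℝ ∞ g) (x : Fin N → ℝ) (n : ℕ) :
    iteratedDeriv n (fun s => g (Function.update x i s))
      = fun s => ((lnD i)^[n] g) (Function.update x i s) := by
  induction n with
  | zero => simp
  | succ n ih =>
    rw [iteratedDeriv_succ, ih]
    funext s
    rw [Function.iterate_succ_apply']
    have h1 : HasFDerivAt ((lnD i)^[n] g) (fderiv ℝ ((lnD i)^[n] g) (Function.update x i s))
        (Function.update x i s) :=
      ((lnD_iter_smooth i hg n).differentiable (by simp) _).hasFDerivAt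
    have h2 := h1.comp_hasDerivAt s (hasDerivAt_update x i s)
    exact h2.deriv

theorem lattice_sum {N : ℕ} (f : (Fin N → ℝ) → ℝ) (hf : ContDiff ℝ ∞ f)
    (hs : HasCompactSupport f) (k : ℕ) : ∃ K : ℝ, ∀ T : ℝ, 1 ≤ T →
      |∑' x : Fin N → ℤ, f (T⁻¹ • fun i => (x i : ℝ)) - T ^ N * ∫ x, f x| ≤
        K * T ^ N / T ^ k := by
  -- the support
  obtain ⟨R, hR, hbox⟩ : ∃ R : ℝ, 0 < R ∧ lnBox R f := by
    obtain ⟨R, hR, hRb⟩ := hs.isCompact.isBounded.exists_pos_norm_le
    refine ⟨R, hR, ?_⟩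
    rintro x ⟨i, hi⟩
    by_contra h
    have h1 := hRb x (subset_tsupport f h)
    have h2 := norm_le_pi_norm x i
    rw [Real.norm_eq_abs] at h2
    linarith
  -- the derivatives
  have hbd : ∀ i : Fin N, ∃ C : ℝ, ∀ x, |((lnD i)^[k + 1] f) x| ≤ C := by
    intro i
    obtain ⟨C, hC⟩ := (lnD_iter_compact i hs (k + 1)).exists_bound_of_continuous
      (lnD_iter_smooth i hf (k + 1)).continuous
    exact ⟨C, fun x => by have := hC x; rwa [Real.norm_eq_abs] at this⟩
  choose C hC using hbd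
  obtain ⟨K, hK, hKf⟩ := ln_uniform R hR k N
  refine ⟨K * ∑ i, |C i|, fun T hT => ?_⟩
  refine hKf f (∑ i, |C i|) hf hbox (by positivity) (fun i x => ?_) T hT
  rw [lnD_iteratedDeriv i hf x (k + 1)]
  refine (hC i _).trans ((le_abs_self _).trans ?_)
  exact Finset.single_le_sum (f := fun i => |C i|) (fun _ _ => abs_nonneg _) (Finset.mem_univ i)

end Pool.Agent.Helper8.Hey
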