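import Pool.Agent.Helper8.Hey.Defs

set_option autoImplicit false

/-! HY-6 -/

open Module
open scoped TensorProduct ContDiff

namespace Pool.Agent.Helper8.Hey

section

variable {D : Type} [Ring D] (Λ : Subring D)

/-- matrices all of whose rows lie in `W` -/
private def liMat {n m : ℕ} (W : AddSubgroup (Fin n → ZMod m)) :
    AddSubgroup (Matrix (Fin n) (Fin n) (ZMod m)) :=
  AddSubgroup.pi Set.univ (fun _ : Fin n => W)

private theorem mem_liMat {n m : ℕ} {W : AddSubgroup (Fin n → ZMod m)}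
    {x : Matrix (Fin n) (Fin n) (ZMod m)} : x ∈ liMat W ↔ ∀ i, x i ∈ W := by
  have h1 : x ∈ liMat W ↔ ∀ i, i ∈ Set.univ → x i ∈ W := Iff.rfl
  rw [h1]
  simp only [Set.mem_univ, true_implies]

private theorem index_liMat {n m : ℕ} (W : AddSubgroup (Fin n → ZMod m)) :
    (liMat W).index = W.index ^ n := by
  have h := AddSubgroup.index_pi (fun _ : Fin n => W)
  rw [Finset.prod_const, Finset.card_univ, Fintype.card_fin] at h
  exact h

private theorem smul_mem_zmod {n m : ℕ} (W : AddSubgroup (Fin n → ZMod m)) (c : ZMod m)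
    {w : Fin n → ZMod m} (hw : w ∈ W) : c • w ∈ W := by
  obtain ⟨k, rfl⟩ := ZMod.intCast_surjective c
  have h1 : ((k : ZMod m)) • w = k • w := by
    ext j
    simp
  rw [h1]
  exact W.zsmul_mem hw k

private theorem mul_mem_liMat {n m : ℕ} {W : AddSubgroup (Fin n → ZMod m)}
    (a : Matrix (Fin n) (Fin n) (ZMod m)) {x : Matrix (Fin n) (Fin n) (ZMod m)}
    (hx : x ∈ liMat W) : a * x ∈ liMat W := by
  rw [mem_liMat] at hx ⊢
  intro i
  have h1 : (a * x) i = ∑ k, a i k • x k := by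
    ext j
    rw [Matrix.mul_apply, Finset.sum_apply]
    rfl
  rw [h1]
  exact W.sum_mem fun k _ => smul_mem_zmod W _ (hx k)

/-- left ideals of a matrix ring -/
private theorem exists_liMat {n m : ℕ} (hn : n ≠ 0)
    (J : AddSubgroup (Matrix (Fin n) (Fin n) (ZMod m)))
    (hJ : ∀ a x, x ∈ J → a * x ∈ J) : ∃ W, J = liMat W := by
  let i0 : Fin n := ⟨0, Nat.pos_of_ne_zero hn⟩
  let row : Matrix (Fin n) (Fin n) (ZMod m) →+ (Fin n → ZMod m) :=
    Pi.evalAddMonoidHom (fun _ : Fin n => Fin n → ZMod m) i0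
  refine ⟨J.map row, ?_⟩
  have hrow : ∀ x, row x = x i0 := fun x => rfl
  ext x
  rw [mem_liMat]
  constructor
  · intro hx i
    rw [AddSubgroup.mem_map]
    refine ⟨Matrix.single i0 i 1 * x, hJ _ _ hx, ?_⟩
    rw [hrow]
    ext j
    rw [Matrix.single_mul_apply_same, one_mul]
  · intro hx
    have h1 : x = ∑ i, Matrix.single i i (1 : ZMod m) * x := by
      rw [← Finset.sum_mul, Matrix.sum_single_one, one_mul]
    rw [h1]
    apply J.sum_mem
    intro i _
    obtain ⟨y, hy, hyx⟩ := AddSubgroup.mem_map.mp (hx i)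
    rw [hrow] at hyx
    have h2 : Matrix.single i i (1 : ZMod m) * x = Matrix.single i i0 1 * y := by
      ext a b
      by_cases ha : a = i
      · subst ha
        rw [Matrix.single_mul_apply_same, Matrix.single_mul_apply_same, hyx]
      · rw [Matrix.single_mul_apply_of_ne _ _ _ _ _ ha, Matrix.single_mul_apply_of_ne _ _ _ _ _ ha]
    rw [h2]
    exact hJ _ _ hy

private theorem liMat_inj {n m : ℕ} (hn : n ≠ 0) {W W' : AddSubgroup (Fin n → ZMod m)}
    (h : liMat W = liMat W') : W = W' := by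
  let i0 : Fin n := ⟨0, Nat.pos_of_ne_zero hn⟩
  ext w
  obtain ⟨x, hx⟩ : ∃ x : Matrix (Fin n) (Fin n) (ZMod m), ∀ i, x i = w := ⟨fun _ => w, fun _ => rfl⟩
  have h1 : x ∈ liMat W ↔ x ∈ liMat W' := by rw [h]
  rw [mem_liMat, mem_liMat] at h1
  simp only [hx] at h1
  exact ⟨fun hw => h1.mp (fun _ => hw) i0, fun hw => h1.mpr (fun _ => hw) i0⟩

/-- the left ideal attached to `W` -/
private def liIdeal {n m : ℕ} (π : Λ →+* Matrix (Fin n) (Fin n) (ZMod m))
    (W : AddSubgroup (Fin n → ZMod m)) : AddSubgroup D :=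
  ((liMat W).comap π.toAddMonoidHom).map Λ.subtype.toAddMonoidHom

variable {Λ}

private theorem mem_liIdeal {n m : ℕ} {π : Λ →+* Matrix (Fin n) (Fin n) (ZMod m)}
    {W : AddSubgroup (Fin n → ZMod m)} {x : D} :
    x ∈ liIdeal Λ π W ↔ ∃ h : x ∈ Λ, π ⟨x, h⟩ ∈ liMat W := by
  unfold liIdeal
  rw [AddSubgroup.mem_map]
  constructor
  · rintro ⟨y, hy, rfl⟩
    exact ⟨y.2, hy⟩
  · rintro ⟨h, hx⟩
    exact ⟨⟨x, h⟩, hx, rfl⟩

private theorem relIndex_eq (I : AddSubgroup D) :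
    I.relIndex Λ.toAddSubgroup = (I.comap Λ.subtype.toAddMonoidHom).index := by
  rw [AddSubgroup.index_comap]
  congr 1
  ext x
  constructor
  · intro hx
    exact ⟨⟨x, hx⟩, rfl⟩
  · rintro ⟨y, rfl⟩
    exact y.2

private theorem comap_liIdeal {n m : ℕ} (π : Λ →+* Matrix (Fin n) (Fin n) (ZMod m))
    (W : AddSubgroup (Fin n → ZMod m)) :
    (liIdeal Λ π W).comap Λ.subtype.toAddMonoidHom = (liMat W).comap π.toAddMonoidHom := by
  unfold liIdeal
  apply AddSubgroup.comap_map_eq_self_of_injective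
  exact Subtype.val_injective

private theorem relIndex_liIdeal {n m : ℕ} {π : Λ →+* Matrix (Fin n) (Fin n) (ZMod m)}
    (hπ : Function.Surjective π) (W : AddSubgroup (Fin n → ZMod m)) :
    (liIdeal Λ π W).relIndex Λ.toAddSubgroup = W.index ^ n := by
  rw [relIndex_eq, comap_liIdeal, AddSubgroup.index_comap_of_surjective _ hπ, index_liMat]

private theorem isLeftIdeal_liIdeal {n m : ℕ} (hm : m ≠ 0)
    {π : Λ →+* Matrix (Fin n) (Fin n) (ZMod m)}
    (hπ : Function.Surjective π) (W : AddSubgroup (Fin n → ZMod m)) :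
    IsLeftIdeal Λ (liIdeal Λ π W) := by
  have : NeZero m := ⟨hm⟩
  refine ⟨?_, ?_, ?_⟩
  · intro x hx
    obtain ⟨h, -⟩ := mem_liIdeal.mp hx
    exact h
  · intro a ha x hx
    obtain ⟨h, hx⟩ := mem_liIdeal.mp hx
    refine mem_liIdeal.mpr ⟨Λ.mul_mem ha h, ?_⟩
    have h1 : (⟨a * x, Λ.mul_mem ha h⟩ : Λ) = ⟨a, ha⟩ * ⟨x, h⟩ := rfl
    rw [h1, map_mul]
    exact mul_mem_liMat _ hx
  · rw [relIndex_liIdeal hπ]
    exact pow_ne_zero _ AddSubgroup.index_ne_zero_of_finite

/-- an ideal containing `m Λ` comes from a subgroup of `(ℤ/m)^n` -/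
private theorem exists_liIdeal {n m : ℕ} (hn : n ≠ 0)
    {π : Λ →+* Matrix (Fin n) (Fin n) (ZMod m)}
    (hπ : Function.Surjective π) (hker : ∀ x : Λ, π x = 0 ↔ ∃ y : Λ, x = (m : Λ) * y)
    {I : AddSubgroup D} (hI : IsLeftIdeal Λ I) (hmI : ∀ y : Λ, ((m : Λ) * y : Λ).1 ∈ I) :
    ∃ W, I = liIdeal Λ π W := by
  let J : AddSubgroup (Matrix (Fin n) (Fin n) (ZMod m)) :=
    (I.comap Λ.subtype.toAddMonoidHom).map π.toAddMonoidHom
  have hJm : ∀ x : Λ, π x ∈ J ↔ x.1 ∈ I := by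
    intro x
    constructor
    · intro h
      obtain ⟨y, hy, hxy⟩ := AddSubgroup.mem_map.mp h
      have h1 : π (x - y) = 0 := by
        rw [map_sub]
        have : π y = π x := hxy
        rw [this, sub_self]
      obtain ⟨z, hz⟩ := (hker _).mp h1
      have h2 := hmI z
      rw [← hz] at h2
      have h3 : x.1 = (x - y : Λ).1 + y.1 := by
        show x.1 = (x.1 - y.1) + y.1
        rw [sub_add_cancel]
      rw [h3]
      exact I.add_mem h2 hy
    · intro h
      exact AddSubgroup.mem_map.mpr ⟨x, h, rfl⟩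
  obtain ⟨W, hW⟩ := exists_liMat hn J (by
    intro a x hx
    obtain ⟨a', rfl⟩ := hπ a
    obtain ⟨x', rfl⟩ := hπ x
    rw [← map_mul, hJm]
    rw [hJm] at hx
    exact hI.mul _ a'.2 _ hx)
  refine ⟨W, ?_⟩
  ext x
  rw [mem_liIdeal]
  constructor
  · intro hx
    have h1 : x ∈ Λ := hI.le hx
    refine ⟨h1, ?_⟩
    rw [← hW, hJm]
    exact hx
  · rintro ⟨h, hx⟩
    rw [← hW, hJm] at hx
    exact hx

private theorem liIdeal_inj {n m : ℕ} (hn : n ≠ 0) {π : Λ →+* Matrix (Fin n) (Fin n) (ZMod m)}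
    (hπ : Function.Surjective π) {W W' : AddSubgroup (Fin n → ZMod m)}
    (h : liIdeal Λ π W = liIdeal Λ π W') : W = W' := by
  apply liMat_inj hn
  have h1 := congrArg (AddSubgroup.comap Λ.subtype.toAddMonoidHom) h
  rw [comap_liIdeal, comap_liIdeal] at h1
  exact AddSubgroup.comap_injective hπ h1

private theorem mul_mem_of_relIndex {I : AddSubgroup D} (M : ℕ)
    (hM : I.relIndex Λ.toAddSubgroup = M) (y : Λ) : ((M : Λ) * y : Λ).1 ∈ I := by
  rw [relIndex_eq] at hM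
  have h1 := (I.comap Λ.subtype.toAddMonoidHom).nsmul_index_mem y
  rw [hM, nsmul_eq_mul] at h1
  exact h1

end

theorem relIndex_leftIdeal {D : Type} [Ring D] (Λ : Subring D) (n : ℕ) (hn : n ≠ 0)
    (h : ∀ m : ℕ, m ≠ 0 → SplitAt Λ n m) (I : AddSubgroup D) (hI : IsLeftIdeal Λ I) :
    ∃ m : ℕ, m ≠ 0 ∧ I.relIndex Λ.toAddSubgroup = m ^ n := by
  obtain ⟨π, hπ, hker⟩ := h _ hI.fin
  have : NeZero (I.relIndex Λ.toAddSubgroup) := ⟨hI.fin⟩
  obtain ⟨W, hW⟩ := exists_liIdeal hn hπ hker hI (mul_mem_of_relIndex _ rfl)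
  refine ⟨W.index, AddSubgroup.index_ne_zero_of_finite, ?_⟩
  have h1 := relIndex_liIdeal hπ W
  rw [← hW] at h1
  exact h1

theorem card_leftIdeal {D : Type} [Ring D] (Λ : Subring D) (n : ℕ) (hn : n ≠ 0)
    (h : ∀ m : ℕ, m ≠ 0 → SplitAt Λ n m) (m : ℕ) (hm : m ≠ 0) :
    Nonempty ({I : AddSubgroup D // IsLeftIdeal Λ I ∧ I.relIndex Λ.toAddSubgroup = m ^ n} ≃
      {U : AddSubgroup (Fin n → ℤ) // U.index = m}) := by
  obtain ⟨π, hπ, hker⟩ := h m hm
  have : NeZero m := ⟨hm⟩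
  let red : (Fin n → ℤ) →+ (Fin n → ZMod m) :=
    AddMonoidHom.compLeft (Int.castAddHom (ZMod m)) (Fin n)
  have hred : ∀ u i, red u i = (u i : ZMod m) := fun u i => rfl
  have hsurj : Function.Surjective red := by
    intro w
    choose u hu using fun i => ZMod.intCast_surjective (w i)
    exact ⟨u, funext hu⟩
  have hkerred : ∀ U : AddSubgroup (Fin n → ℤ), U.index = m → red.ker ≤ U := by
    intro U hU u hu
    rw [AddMonoidHom.mem_ker] at hu
    have h1 : ∀ i, ∃ c : ℤ, u i = m * c := by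
      intro i
      have h2 := congrFun hu i
      rw [hred] at h2
      exact (ZMod.intCast_zmod_eq_zero_iff_dvd (u i) m).mp h2
    choose c hc using h1
    have h3 : u = m • c := by
      ext i
      rw [hc, Pi.smul_apply, nsmul_eq_mul]
    rw [h3, ← hU]
    exact U.nsmul_index_mem c
  have hpow : ∀ a b : ℕ, a ^ n = b ^ n → a = b := fun a b hab => Nat.pow_left_injective hn hab
  let f : {U : AddSubgroup (Fin n → ℤ) // U.index = m} →
      {I : AddSubgroup D // IsLeftIdeal Λ I ∧ I.relIndex Λ.toAddSubgroup = m ^ n} := fun U =>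
    ⟨liIdeal Λ π (U.1.map red), isLeftIdeal_liIdeal hm hπ _, by
      rw [relIndex_liIdeal hπ, AddSubgroup.index_map_eq _ hsurj (hkerred _ U.2), U.2]⟩
  refine ⟨(Equiv.ofBijective f ⟨?_, ?_⟩).symm⟩
  · intro U U' hUU
    have h1 := liIdeal_inj hn hπ (congrArg Subtype.val hUU)
    apply Subtype.ext
    have h2 := congrArg (AddSubgroup.comap red) h1
    rwa [AddSubgroup.comap_map_eq_self (hkerred _ U.2),
      AddSubgroup.comap_map_eq_self (hkerred _ U'.2)] at h2
  · rintro ⟨I, hI, hIm⟩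
    -- `m Λ ≤ I`
    have hM : m ^ n ≠ 0 := pow_ne_zero _ hm
    obtain ⟨π', hπ', hker'⟩ := h _ hM
    have : NeZero (m ^ n) := ⟨hM⟩
    obtain ⟨W', hW'⟩ := exists_liIdeal hn hπ' hker' hI (mul_mem_of_relIndex _ hIm)
    have h1 : W'.index = m := by
      apply hpow
      rw [← relIndex_liIdeal hπ' W', ← hW', hIm]
    have h2 : ∀ y : Λ, ((m : Λ) * y : Λ).1 ∈ I := by
      intro y
      rw [hW', mem_liIdeal]
      refine ⟨((m : Λ) * y : Λ).2, ?_⟩
      rw [mem_liMat]
      intro i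
      have h3 : π' ((m : Λ) * y) i = m • (π' y i) := by
        rw [map_mul, map_natCast, ← nsmul_eq_mul]
        rfl
      have h4 := W'.nsmul_index_mem (π' y i)
      rw [h1, ← h3] at h4
      exact h4
    obtain ⟨W, hW⟩ := exists_liIdeal hn hπ hker hI h2
    have h5 : W.index = m := by
      apply hpow
      rw [← relIndex_liIdeal hπ W, ← hW, hIm]
    refine ⟨⟨W.comap red, ?_⟩, ?_⟩
    · rw [AddSubgroup.index_comap_of_surjective _ hsurj, h5]
    · apply Subtype.ext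
      show liIdeal Λ π ((W.comap red).map red) = I
      rw [AddSubgroup.map_comap_eq_self_of_surjective hsurj, hW]

end Pool.Agent.Helper8.Hey
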