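import Pool.Agent.Helper8.Hey.Defs

set_option autoImplicit false

/-! HY-2 -/

open Module
open scoped TensorProduct ContDiff

namespace Pool.Agent.Helper8.Hey

open scoped Kronecker

theorem det_mulLeft_matrix (K : Type) [Field K] (n : ℕ) (A : Matrix (Fin n) (Fin n) K) :
    LinearMap.det (LinearMap.mulLeft K A) = A.det ^ n := by
  let v : Matrix (Fin n) (Fin n) K ≃ₗ[K] (Fin n × Fin n → K) :=
    LinearEquiv.ofBijective
      { toFun := Matrix.vec
        map_add' := fun A B => Matrix.vec_add A B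
        map_smul' := fun r A => Matrix.vec_smul r A } Matrix.vec_bijective
  have hv : ∀ X, v X = Matrix.vec X := fun X => rfl
  have h1 : (v : Matrix (Fin n) (Fin n) K →ₗ[K] (Fin n × Fin n → K)) ∘ₗ LinearMap.mulLeft K A ∘ₗ
      (v.symm : (Fin n × Fin n → K) →ₗ[K] Matrix (Fin n) (Fin n) K) =
      Matrix.toLin' ((1 : Matrix (Fin n) (Fin n) K) ⊗ₖ A) := by
    apply LinearMap.ext
    intro w
    obtain ⟨X, rfl⟩ := v.surjective w
    rw [LinearMap.comp_apply, LinearMap.comp_apply, LinearEquiv.coe_coe, LinearEquiv.coe_coe,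
      LinearEquiv.symm_apply_apply, LinearMap.mulLeft_apply, hv, hv, Matrix.toLin'_apply,
      Matrix.vec_mul_eq_mulVec]
  rw [← LinearMap.det_conj (LinearMap.mulLeft K A) v, h1, LinearMap.det_toLin',
    Matrix.det_kronecker, Matrix.det_one, one_pow, one_mul, Fintype.card_fin]

theorem det_mulRight_matrix (K : Type) [Field K] (n : ℕ) (A : Matrix (Fin n) (Fin n) K) :
    LinearMap.det (LinearMap.mulRight K A) = A.det ^ n := by
  have h1 : ((Matrix.transposeLinearEquiv (Fin n) (Fin n) K K) :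
        Matrix (Fin n) (Fin n) K →ₗ[K] Matrix (Fin n) (Fin n) K) ∘ₗ LinearMap.mulRight K A ∘ₗ
      ((Matrix.transposeLinearEquiv (Fin n) (Fin n) K K).symm :
        Matrix (Fin n) (Fin n) K →ₗ[K] Matrix (Fin n) (Fin n) K) =
      LinearMap.mulLeft K (A.transpose) := by
    apply LinearMap.ext
    intro w
    simp [Matrix.transpose_mul]
  rw [← LinearMap.det_conj (LinearMap.mulRight K A) (Matrix.transposeLinearEquiv (Fin n) (Fin n) K K),
    h1, det_mulLeft_matrix, Matrix.det_transpose]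

theorem det_left_eq_right (D K : Type) [Ring D] [Algebra ℚ D] [FiniteDimensional ℚ D] [Field K]
    [Algebra ℚ K] (n : ℕ) (e : K ⊗[ℚ] D ≃ₐ[K] Matrix (Fin n) (Fin n) K) (a : D) :
    LinearMap.det (LinearMap.mulLeft ℚ a) = LinearMap.det (LinearMap.mulRight ℚ a) := by
  have hinj : Function.Injective (algebraMap ℚ K) := (algebraMap ℚ K).injective
  apply hinj
  rw [← LinearMap.det_baseChange, ← LinearMap.det_baseChange]
  have h1 : ((e.toLinearEquiv : K ⊗[ℚ] D →ₗ[K] Matrix (Fin n) (Fin n) K) ∘ₗ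
      (LinearMap.mulLeft ℚ a).baseChange K ∘ₗ
      (e.toLinearEquiv.symm : Matrix (Fin n) (Fin n) K →ₗ[K] K ⊗[ℚ] D)) =
      LinearMap.mulLeft K (e (1 ⊗ₜ a)) := by
    apply LinearMap.ext
    intro w
    obtain ⟨x, rfl⟩ := e.surjective w
    have h2 : (LinearMap.mulLeft ℚ a).baseChange K = LinearMap.mulLeft K ((1 : K) ⊗ₜ[ℚ] a) := by
      ext y
      simp
    rw [h2]
    simp
  have h1' : ((e.toLinearEquiv : K ⊗[ℚ] D →ₗ[K] Matrix (Fin n) (Fin n) K) ∘ₗ
      (LinearMap.mulRight ℚ a).baseChange K ∘ₗ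
      (e.toLinearEquiv.symm : Matrix (Fin n) (Fin n) K →ₗ[K] K ⊗[ℚ] D)) =
      LinearMap.mulRight K (e (1 ⊗ₜ a)) := by
    apply LinearMap.ext
    intro w
    obtain ⟨x, rfl⟩ := e.surjective w
    have h2 : (LinearMap.mulRight ℚ a).baseChange K = LinearMap.mulRight K ((1 : K) ⊗ₜ[ℚ] a) := by
      ext y
      simp
    rw [h2]
    simp
  rw [← LinearMap.det_conj _ e.toLinearEquiv, h1,
    ← LinearMap.det_conj ((LinearMap.mulRight ℚ a).baseChange K) e.toLinearEquiv, h1',
    det_mulLeft_matrix, det_mulRight_matrix]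

end Pool.Agent.Helper8.Hey
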