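import Pool.Agent.Helper8.Hey.Lat

set_option autoImplicit false

/-! HY-4 -/

open Module
open scoped TensorProduct ContDiff

namespace Pool.Agent.Helper8.Hey

private lemma Local_int_of_norm {p : ℕ} [Fact p.Prime] {q : ℚ} {s : ℕ} {a : ℤ}
    (h : (p : ℚ) ^ s * q = a) (hq : ‖(q : ℚ_[p])‖ ≤ 1) : ∃ k : ℤ, q = k := by
  have hp0 : (p : ℚ) ≠ 0 := by exact_mod_cast (Fact.out : p.Prime).ne_zero
  have h1 : ‖((a : ℤ) : ℚ_[p])‖ ≤ (p : ℝ) ^ (-(s : ℤ)) := by
    have h2 : ((a : ℤ) : ℚ_[p]) = (p : ℚ_[p]) ^ s * (q : ℚ_[p]) := by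
      rw [← Rat.cast_intCast, ← h]
      push_cast
      rfl
    rw [h2, norm_mul, norm_pow, Padic.norm_p, inv_pow, zpow_neg, zpow_natCast]
    calc ((p : ℝ) ^ s)⁻¹ * ‖(q : ℚ_[p])‖ ≤ ((p : ℝ) ^ s)⁻¹ * 1 :=
          mul_le_mul_of_nonneg_left hq (by positivity)
      _ = _ := mul_one _
  rw [Padic.norm_int_le_pow_iff_dvd] at h1
  obtain ⟨k, hk⟩ := h1
  refine ⟨k, ?_⟩
  rw [hk] at h
  push_cast at h
  exact mul_left_cancel₀ (pow_ne_zero s hp0) h

private lemma Local_approx {p : ℕ} [Fact p.Prime] (t : ℚ_[p]) (k : ℕ) :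
    ∃ (a : ℤ) (s : ℕ), ‖t - (((a : ℚ) / (p : ℚ) ^ s : ℚ) : ℚ_[p])‖ ≤ (p : ℝ) ^ (-(k : ℤ)) := by
  have hp1 : (1 : ℝ) < p := by exact_mod_cast (Fact.out : p.Prime).one_lt
  have hp0 : (p : ℚ_[p]) ≠ 0 := by exact_mod_cast (Fact.out : p.Prime).ne_zero
  obtain ⟨s, hs⟩ := pow_unbounded_of_one_lt ‖t‖ hp1
  have hu : ‖(p : ℚ_[p]) ^ s * t‖ ≤ 1 := by
    rw [norm_mul, norm_pow, Padic.norm_p, inv_pow, inv_mul_le_iff₀ (by positivity), mul_one]
    exact hs.le
  set u : ℤ_[p] := ⟨(p : ℚ_[p]) ^ s * t, hu⟩ with hudef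
  have h1 := PadicInt.appr_spec (k + s) u
  rw [← PadicInt.norm_le_pow_iff_mem_span_pow] at h1
  refine ⟨(u.appr (k + s) : ℤ), s, ?_⟩
  have h2 : t - ((((u.appr (k + s) : ℤ) : ℚ) / (p : ℚ) ^ s : ℚ) : ℚ_[p]) =
      ((p : ℚ_[p]) ^ s)⁻¹ * ((u - (u.appr (k + s) : ℤ_[p]) : ℤ_[p]) : ℚ_[p]) := by
    rw [PadicInt.coe_sub, PadicInt.coe_natCast, hudef]
    simp only
    push_cast
    field_simp
  rw [h2, norm_mul, norm_inv, norm_pow, Padic.norm_p, inv_pow, inv_inv]
  have h3 : ‖((u - (u.appr (k + s) : ℤ_[p]) : ℤ_[p]) : ℚ_[p])‖ ≤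
      (p : ℝ) ^ (-((k + s : ℕ) : ℤ)) := h1
  calc (p : ℝ) ^ s * ‖((u - (u.appr (k + s) : ℤ_[p]) : ℤ_[p]) : ℚ_[p])‖
      ≤ (p : ℝ) ^ s * (p : ℝ) ^ (-((k + s : ℕ) : ℤ)) :=
        mul_le_mul_of_nonneg_left h3 (by positivity)
    _ = (p : ℝ) ^ (-(k : ℤ)) := by
        rw [← zpow_natCast, ← zpow_add₀ (by positivity)]
        congr 1
        push_cast
        ring

/-- conjugation into integral matrices -/
private lemma Local_conj (D : Type) [DivisionRing D] [Algebra ℚ D] [FiniteDimensional ℚ D]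
    (Λ : Subring D) (hΛ : IsOrder Λ) (p : ℕ) [Fact p.Prime] (n : ℕ)
    (e : ℚ_[p] ⊗[ℚ] D ≃ₐ[ℚ_[p]] Matrix (Fin n) (Fin n) ℚ_[p]) :
    ∃ e' : ℚ_[p] ⊗[ℚ] D ≃ₐ[ℚ_[p]] Matrix (Fin n) (Fin n) ℚ_[p],
      ∀ x ∈ Λ, ∀ a c, ‖e' (1 ⊗ₜ x) a c‖ ≤ 1 := by
  classical
  obtain ⟨b, hb⟩ := exists_latBasis D Λ.toAddSubgroup hΛ.fg hΛ.span
  have hb' : ∀ x : D, x ∈ Λ → ∃ k : Fin (finrank ℚ D) → ℤ, x = ∑ i, (k i : ℤ) • b i := by
    intro x hx
    choose k hk using (hb x).mp hx
    refine ⟨k, ?_⟩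
    conv_lhs => rw [← b.sum_repr x]
    refine Finset.sum_congr rfl fun i _ => ?_
    rw [hk i, Int.cast_smul_eq_zsmul]
  have hbm : ∀ i, b i ∈ Λ := by
    intro i
    refine (hb (b i)).mpr fun j => ?_
    rw [b.repr_self, Finsupp.single_apply]
    split_ifs
    · exact ⟨1, by simp⟩
    · exact ⟨0, by simp⟩
  -- the lattice
  let gen : Fin (finrank ℚ D) × Fin n → (Fin n → ℚ_[p]) := fun x =>
    (e (1 ⊗ₜ b x.1)).mulVec (Pi.single x.2 1)
  set L : Submodule ℤ_[p] (Fin n → ℚ_[p]) := Submodule.span ℤ_[p] (Set.range gen) with hL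
  have hzs : ∀ (k : Fin (finrank ℚ D) → ℤ) (a : Fin n),
      (e (1 ⊗ₜ (∑ i, k i • b i))).mulVec (Pi.single a 1) ∈ L := by
    intro k a
    rw [TensorProduct.tmul_sum, map_sum, Matrix.sum_mulVec]
    refine Submodule.sum_mem _ fun i _ => ?_
    rw [TensorProduct.tmul_smul, map_zsmul, Matrix.smul_mulVec, ← Int.cast_smul_eq_zsmul ℤ_[p]]
    exact Submodule.smul_mem _ _ (Submodule.subset_span ⟨(i, a), rfl⟩)
  have hstable : ∀ x ∈ Λ, ∀ w ∈ L, (e (1 ⊗ₜ x)).mulVec w ∈ L := by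
    intro x hx w hw
    rw [hL] at hw
    induction hw using Submodule.span_induction with
    | mem w hw =>
      obtain ⟨⟨i, a⟩, rfl⟩ := hw
      simp only [gen]
      rw [Matrix.mulVec_mulVec, ← map_mul, Algebra.TensorProduct.tmul_mul_tmul, one_mul]
      obtain ⟨k, hk⟩ := hb' (x * b i) (Λ.mul_mem hx (hbm i))
      rw [hk]
      exact hzs k a
    | zero => rw [Matrix.mulVec_zero]; exact L.zero_mem
    | add u v _ _ hu hv => rw [Matrix.mulVec_add]; exact L.add_mem hu hv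
    | smul r u _ hu =>
      have : (e (1 ⊗ₜ x)).mulVec (r • u) = r • (e (1 ⊗ₜ x)).mulVec u := by
        rw [← algebraMap_smul ℚ_[p] r u, Matrix.mulVec_smul, algebraMap_smul]
      rw [this]
      exact L.smul_mem r hu
  have hsingle : ∀ a : Fin n, (Pi.single a 1 : Fin n → ℚ_[p]) ∈ L := by
    intro a
    obtain ⟨k, hk⟩ := hb' 1 Λ.one_mem
    have := hzs k a
    rw [← hk, ← Algebra.TensorProduct.one_def, map_one, Matrix.one_mulVec] at this
    exact this
  have hLfg : Module.Finite ℤ_[p] L := Module.Finite.span_of_finite _ (Set.finite_range gen)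
  have hLfree : Module.Free ℤ_[p] L := Module.free_of_finite_type_torsion_free'
  set β := Module.finBasis ℤ_[p] L with hβ
  set v : Fin (finrank ℤ_[p] L) → (Fin n → ℚ_[p]) := fun i => (β i : Fin n → ℚ_[p]) with hv
  have hli : LinearIndependent ℚ_[p] v := by
    rw [← LinearIndependent.iff_fractionRing ℤ_[p] ℚ_[p]]
    exact β.linearIndependent.map' L.subtype (Submodule.ker_subtype L)
  have hrepr : ∀ w : L, (w : Fin n → ℚ_[p]) = ∑ i, ((β.repr w i : ℤ_[p]) : ℚ_[p]) • v i := by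
    intro w
    have h1 := congrArg (Subtype.val) (β.sum_repr w)
    rw [← h1]
    simp only [Submodule.coe_sum, Submodule.coe_smul, hv]
    rfl
  have hspan : ⊤ ≤ Submodule.span ℚ_[p] (Set.range v) := by
    intro w _
    have hw : w = ∑ a, w a • (Pi.single a 1 : Fin n → ℚ_[p]) := by
      funext i
      rw [Finset.sum_apply, Finset.sum_eq_single i]
      · simp
      · intro j _ hj; simp [hj.symm]
      · simp
    rw [hw]
    refine Submodule.sum_mem _ fun a _ => Submodule.smul_mem _ _ ?_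
    have h := hrepr ⟨_, hsingle a⟩
    change (Pi.single a 1 : Fin n → ℚ_[p]) = _ at h
    rw [h]
    exact Submodule.sum_mem _ fun i _ => Submodule.smul_mem _ _ (Submodule.subset_span ⟨i, rfl⟩)
  set V0 : Basis (Fin (finrank ℤ_[p] L)) ℚ_[p] (Fin n → ℚ_[p]) := Basis.mk hli hspan with hV0
  have hcard : finrank ℤ_[p] L = n := by
    have h1 := finrank_eq_card_basis V0
    rw [finrank_fin_fun, Fintype.card_fin] at h1
    exact h1.symm
  set V : Basis (Fin n) ℚ_[p] (Fin n → ℚ_[p]) := V0.reindex (finCongr hcard) with hV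
  have hVrepr : ∀ w ∈ L, ∀ a, ‖V.repr w a‖ ≤ 1 := by
    intro w hw a
    rw [hV, Basis.repr_reindex_apply]
    have h1 : V0.repr w = Finsupp.equivFunOnFinite.symm
        (fun i => ((β.repr ⟨w, hw⟩ i : ℤ_[p]) : ℚ_[p])) := by
      rw [← LinearEquiv.eq_symm_apply, Basis.repr_symm_apply]
      have h2 := hrepr ⟨w, hw⟩
      simp only at h2
      rw [Finsupp.linearCombination_apply, Finsupp.sum_fintype _ _ (by simp)]
      conv_lhs => rw [h2]
      refine Finset.sum_congr rfl fun i _ => ?_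
      rw [hV0, Basis.mk_apply]
      rfl
    rw [h1]
    exact PadicInt.norm_le_one _
  have hVmem : ∀ a, V a ∈ L := by
    intro a
    rw [hV, Basis.reindex_apply, hV0, Basis.mk_apply]
    exact Subtype.property _
  refine ⟨e.trans (Matrix.toLinAlgEquiv'.trans (LinearMap.toMatrixAlgEquiv V)), ?_⟩
  intro x hx a c
  have h1 : (e.trans (Matrix.toLinAlgEquiv'.trans (LinearMap.toMatrixAlgEquiv V))) (1 ⊗ₜ x) a c =
      V.repr ((e (1 ⊗ₜ x)).mulVec (V c)) a := by
    simp only [AlgEquiv.trans_apply]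
    rw [LinearMap.toMatrixAlgEquiv_apply, Matrix.toLinAlgEquiv'_apply]
  rw [h1]
  exact hVrepr _ (hstable x hx _ (hVmem c)) a

theorem maxOrder_local (D : Type) [DivisionRing D] [Algebra ℚ D] [FiniteDimensional ℚ D]
    (Λ : Subring D) (hΛ : IsMaxOrder Λ) (p : ℕ) [Fact p.Prime] (n : ℕ)
    (e : ℚ_[p] ⊗[ℚ] D ≃ₐ[ℚ_[p]] Matrix (Fin n) (Fin n) ℚ_[p]) (k : ℕ) :
    SplitAt Λ n (p ^ k) := by
  classical
  have hp : p.Prime := Fact.out
  obtain ⟨e', he'⟩ := Local_conj D Λ hΛ.toIsOrder p n e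
  obtain ⟨b, hb⟩ := exists_latBasis D Λ.toAddSubgroup hΛ.fg hΛ.span
  have hb' : ∀ x : D, x ∈ Λ ↔ ∀ i, ∃ k : ℤ, b.repr x i = k := fun x => hb x
  have hbm : ∀ i, b i ∈ Λ := by
    intro i
    refine (hb' (b i)).mpr fun j => ?_
    rw [b.repr_self, Finsupp.single_apply]
    split_ifs
    · exact ⟨1, by simp⟩
    · exact ⟨0, by simp⟩
  let j : D →+* Matrix (Fin n) (Fin n) ℚ_[p] :=
    (e' : ℚ_[p] ⊗[ℚ] D →+* Matrix (Fin n) (Fin n) ℚ_[p]).comp
      (Algebra.TensorProduct.includeRight : D →ₐ[ℚ] ℚ_[p] ⊗[ℚ] D).toRingHom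
  have hj : ∀ x, j x = e' (1 ⊗ₜ x) := fun x => rfl
  have hjQ : ∀ (q : ℚ) (x : D), j (q • x) = (q : ℚ_[p]) • j x := by
    intro q x
    rw [hj, hj, TensorProduct.tmul_smul, ← algebraMap_smul ℚ_[p] q ((1 : ℚ_[p]) ⊗ₜ[ℚ] x),
      map_smul, eq_ratCast]
  -- the basis of the matrix algebra
  set β : Basis (Fin (finrank ℚ D)) ℚ_[p] (Matrix (Fin n) (Fin n) ℚ_[p]) :=
    (Algebra.TensorProduct.basis ℚ_[p] b).map e'.toLinearEquiv with hβ
  have hβi : ∀ i, β i = j (b i) := by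
    intro i
    rw [hβ, Basis.map_apply, Algebra.TensorProduct.basis_apply]
    rfl
  have hjsum : ∀ c : Fin (finrank ℚ D) → ℚ, j (∑ i, c i • b i) = ∑ i, (c i : ℚ_[p]) • β i := by
    intro c
    rw [map_sum]
    exact Finset.sum_congr rfl fun i _ => by rw [hjQ, hβi]
  have hrepr : ∀ x i, β.repr (j x) i = (b.repr x i : ℚ_[p]) := by
    intro x i
    have h1 : j x = ∑ i, (b.repr x i : ℚ_[p]) • β i := by
      rw [← hjsum, b.sum_repr]
    rw [h1, Basis.repr_sum_self]
  -- the order Λ'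
  have hnat : ∀ (s : ℕ) (x : D), ((p ^ s : ℕ) : D) * x = ((p : ℚ) ^ s) • x := by
    intro s x
    rw [Algebra.smul_def, map_pow, map_natCast, Nat.cast_pow]
  let Λ' : Subring D :=
    { carrier := {x | (∃ s : ℕ, ((p ^ s : ℕ) : D) * x ∈ Λ) ∧ ∀ a c, ‖j x a c‖ ≤ 1}
      mul_mem' := by
        rintro x y ⟨⟨s, hs⟩, hx⟩ ⟨⟨t, ht⟩, hy⟩
        refine ⟨⟨s + t, ?_⟩, ?_⟩
        · have h1 : ((p ^ (s + t) : ℕ) : D) * (x * y) =
              (((p ^ s : ℕ) : D) * x) * (((p ^ t : ℕ) : D) * y) := by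
            rw [pow_add, Nat.cast_mul]
            rw [mul_assoc (((p ^ s : ℕ) : D)) x, ← mul_assoc x, (Nat.cast_commute (p ^ t) x).symm.eq]
            simp only [mul_assoc]
          rw [h1]
          exact Λ.mul_mem hs ht
        · intro a c
          rw [map_mul, Matrix.mul_apply]
          refine IsUltrametricDist.norm_sum_le_of_forall_le_of_nonneg zero_le_one fun i _ => ?_
          rw [norm_mul]
          exact mul_le_one₀ (hx a i) (norm_nonneg _) (hy i c)
      one_mem' := by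
        refine ⟨⟨0, by simp⟩, ?_⟩
        exact fun a c => he' 1 Λ.one_mem a c
      add_mem' := by
        rintro x y ⟨⟨s, hs⟩, hx⟩ ⟨⟨t, ht⟩, hy⟩
        refine ⟨⟨s + t, ?_⟩, ?_⟩
        · have h1 : ((p ^ (s + t) : ℕ) : D) * (x + y) =
              ((p ^ t : ℕ) : D) * (((p ^ s : ℕ) : D) * x) +
              ((p ^ s : ℕ) : D) * (((p ^ t : ℕ) : D) * y) := by
            rw [pow_add, Nat.cast_mul, mul_add, ← mul_assoc, ← mul_assoc,
              (Nat.cast_commute (p ^ t) ((p ^ s : ℕ) : D)).eq]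
          rw [h1]
          exact Λ.add_mem (Λ.mul_mem (natCast_mem Λ _) hs) (Λ.mul_mem (natCast_mem Λ _) ht)
        · intro a c
          rw [map_add, Matrix.add_apply]
          exact (IsUltrametricDist.norm_add_le_max _ _).trans (max_le (hx a c) (hy a c))
      zero_mem' := by
        refine ⟨⟨0, by simp⟩, ?_⟩
        exact fun a c => he' 0 Λ.zero_mem a c
      neg_mem' := by
        rintro x ⟨⟨s, hs⟩, hx⟩
        refine ⟨⟨s, ?_⟩, ?_⟩
        · rw [mul_neg]; exact Λ.neg_mem hs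
        · intro a c
          rw [map_neg, Matrix.neg_apply, norm_neg]
          exact hx a c }
  have hΛ'mem : ∀ x, x ∈ Λ' ↔ (∃ s : ℕ, ((p ^ s : ℕ) : D) * x ∈ Λ) ∧ ∀ a c, ‖j x a c‖ ≤ 1 :=
    fun x => Iff.rfl
  have hle : Λ ≤ Λ' := by
    intro x hx
    exact (hΛ'mem x).mpr ⟨⟨0, by simpa using hx⟩, fun a c => he' x hx a c⟩
  -- bounded denominators
  have hp1 : (1 : ℝ) < p := by exact_mod_cast hp.one_lt
  obtain ⟨c, hc⟩ : ∃ c : ℕ, ∀ i a d, ‖β.repr (Matrix.single a d 1) i‖ ≤ (p : ℝ) ^ c := by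
    have h1 : ∀ x : Fin (finrank ℚ D) × Fin n × Fin n, ∃ c : ℕ,
        ‖β.repr (Matrix.single x.2.1 x.2.2 1) x.1‖ ≤ (p : ℝ) ^ c := by
      intro x
      obtain ⟨c, hc⟩ := pow_unbounded_of_one_lt ‖β.repr (Matrix.single x.2.1 x.2.2 1) x.1‖ hp1
      exact ⟨c, hc.le⟩
    choose c hc using h1
    refine ⟨Finset.univ.sup c, fun i a d => (hc (i, a, d)).trans ?_⟩
    exact pow_le_pow_right₀ hp1.le (Finset.le_sup (f := c) (Finset.mem_univ _))
  have hden : ∀ x ∈ Λ', ((p ^ c : ℕ) : D) * x ∈ Λ := by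
    intro x hx
    obtain ⟨⟨s, hs⟩, hx1⟩ := (hΛ'mem x).mp hx
    rw [hb']
    intro i
    rw [hnat, map_smul, Finsupp.smul_apply, smul_eq_mul]
    rw [hb'] at hs
    obtain ⟨a, ha⟩ := hs i
    rw [hnat, map_smul, Finsupp.smul_apply, smul_eq_mul] at ha
    apply Local_int_of_norm (p := p) (s := s) (a := (p : ℤ) ^ c * a)
    · push_cast
      rw [← ha]; ring
    · push_cast
      rw [norm_mul, norm_pow, Padic.norm_p, inv_pow, ← hrepr]
      have h1 : β.repr (j x) i = ∑ a, ∑ d, j x a d * β.repr (Matrix.single a d 1) i := by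
        conv_lhs => rw [Matrix.matrix_eq_sum_single (j x)]
        rw [map_sum, Finsupp.finsetSum_apply]
        refine Finset.sum_congr rfl fun a _ => ?_
        rw [map_sum, Finsupp.finsetSum_apply]
        refine Finset.sum_congr rfl fun d _ => ?_
        have h2 : Matrix.single a d (j x a d) = j x a d • Matrix.single a d (1 : ℚ_[p]) := by
          rw [Matrix.smul_single, smul_eq_mul, mul_one]
        rw [h2, map_smul, Finsupp.smul_apply, smul_eq_mul]
      have h2 : ‖β.repr (j x) i‖ ≤ (p : ℝ) ^ c := by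
        rw [h1]
        refine IsUltrametricDist.norm_sum_le_of_forall_le_of_nonneg (by positivity) fun a _ => ?_
        refine IsUltrametricDist.norm_sum_le_of_forall_le_of_nonneg (by positivity) fun d _ => ?_
        rw [norm_mul]
        calc ‖j x a d‖ * ‖β.repr (Matrix.single a d 1) i‖ ≤ 1 * (p : ℝ) ^ c :=
              mul_le_mul (hx1 a d) (hc i a d) (norm_nonneg _) zero_le_one
          _ = _ := one_mul _
      rw [inv_mul_le_iff₀ (by positivity), mul_one]
      exact h2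
  have hΛ' : IsOrder Λ' := by
    refine ⟨?_, ?_⟩
    · have hinj : Function.Injective (LinearMap.mulLeft ℤ ((p ^ c : ℕ) : D)) := by
        intro x y hxy
        have h0 : ((p ^ c : ℕ) : D) ≠ 0 := by
          have : CharZero D := algebraRat.charZero D
          exact_mod_cast pow_ne_zero c hp.ne_zero
        exact mul_left_cancel₀ h0 hxy
      have hfgΛ : (AddSubgroup.toIntSubmodule Λ.toAddSubgroup).FG := by
        rw [Submodule.fg_iff_addSubgroup_fg]
        simpa using hΛ.fg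
      have hnoeth : IsNoetherian ℤ (AddSubgroup.toIntSubmodule Λ.toAddSubgroup) :=
        isNoetherian_of_fg_of_noetherian _ hfgΛ
      have h1 : ((AddSubgroup.toIntSubmodule Λ'.toAddSubgroup).map
          (LinearMap.mulLeft ℤ ((p ^ c : ℕ) : D))).FG := by
        apply isNoetherian_submodule.mp hnoeth
        rintro _ ⟨x, hx, rfl⟩
        exact hden x hx
      have h2 := Submodule.fg_of_fg_map_injective _ hinj h1
      rw [Submodule.fg_iff_addSubgroup_fg] at h2
      simpa using h2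
    · intro x
      obtain ⟨k, hk, h⟩ := hΛ.span x
      exact ⟨k, hk, hle h⟩
  have heq : Λ' = Λ := hΛ.max Λ' hΛ' hle
  have hmem : ∀ x : D, (∃ s : ℕ, ((p ^ s : ℕ) : D) * x ∈ Λ) → (∀ a c, ‖j x a c‖ ≤ 1) → x ∈ Λ := by
    intro x h1 h2
    rw [← heq]
    exact (hΛ'mem x).mpr ⟨h1, h2⟩
  -- the ring homomorphism
  let r : Λ → Matrix (Fin n) (Fin n) ℤ_[p] := fun x => Matrix.of fun a c => ⟨j x a c, he' x x.2 a c⟩
  have hrj : ∀ x : Λ, (r x).map (fun y : ℤ_[p] => (y : ℚ_[p])) = j x := by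
    intro x
    ext a c
    rfl
  have hcoe_inj : Function.Injective
      (fun m : Matrix (Fin n) (Fin n) ℤ_[p] => (PadicInt.Coe.ringHom (p := p)).mapMatrix m) := by
    intro m m' h
    ext a c
    exact Subtype.ext (congrFun (congrFun h a) c)
  have hrj' : ∀ x : Λ, (PadicInt.Coe.ringHom (p := p)).mapMatrix (r x) = j x := by
    intro x
    ext a c
    rfl
  let R : Λ →+* Matrix (Fin n) (Fin n) ℤ_[p] :=
    { toFun := r
      map_one' := by
        apply hcoe_inj
        simp only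
        rw [hrj', map_one, Subring.coe_one, map_one]
      map_mul' := by
        intro x y
        apply hcoe_inj
        simp only
        rw [hrj', map_mul, hrj', hrj', Subring.coe_mul, map_mul]
      map_zero' := by
        apply hcoe_inj
        simp only
        rw [hrj', map_zero, Subring.coe_zero, map_zero]
      map_add' := by
        intro x y
        apply hcoe_inj
        simp only
        rw [hrj', map_add, hrj', hrj', Subring.coe_add, map_add] }
  have hRj : ∀ (x : Λ) a c, ((R x a c : ℤ_[p]) : ℚ_[p]) = j x a c := fun x a c => rfl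
  refine ⟨((PadicInt.toZModPow (p := p) k).mapMatrix).comp R, ?_, ?_⟩
  · -- surjectivity
    intro m
    -- lift entries
    have hm : ∀ a d, ∃ u : ℤ_[p], PadicInt.toZModPow k u = m a d := by
      intro a d
      exact ZMod.ringHom_surjective (PadicInt.toZModPow k) (m a d)
    choose u hu using hm
    set M : Matrix (Fin n) (Fin n) ℚ_[p] := Matrix.of fun a d => (u a d : ℚ_[p]) with hM
    have happ : ∀ i, ∃ (a : ℤ) (s : ℕ),
        ‖β.repr M i - (((a : ℚ) / (p : ℚ) ^ s : ℚ) : ℚ_[p])‖ ≤ (p : ℝ) ^ (-(k : ℤ)) :=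
      fun i => Local_approx _ k
    choose A s hAs using happ
    set x : D := ∑ i, ((A i : ℚ) / (p : ℚ) ^ s i) • b i with hx
    have hdiff : ∀ a d, ‖(M - j x) a d‖ ≤ (p : ℝ) ^ (-(k : ℤ)) := by
      intro a d
      have h1 : M - j x = ∑ i, (β.repr M i - (((A i : ℚ) / (p : ℚ) ^ s i : ℚ) : ℚ_[p])) • β i := by
        rw [hx, hjsum]
        conv_lhs => rw [← β.sum_repr M]
        rw [← Finset.sum_sub_distrib]
        exact Finset.sum_congr rfl fun i _ => by rw [sub_smul]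
      rw [h1, Matrix.sum_apply]
      refine IsUltrametricDist.norm_sum_le_of_forall_le_of_nonneg (by positivity) fun i _ => ?_
      rw [Matrix.smul_apply, smul_eq_mul, norm_mul, hβi]
      calc _ ≤ (p : ℝ) ^ (-(k : ℤ)) * 1 :=
            mul_le_mul (hAs i) (he' (b i) (hbm i) a d) (norm_nonneg _) (by positivity)
        _ = _ := mul_one _
    have hk1 : (p : ℝ) ^ (-(k : ℤ)) ≤ 1 := by
      rw [zpow_neg, zpow_natCast]
      exact inv_le_one_of_one_le₀ (one_le_pow₀ hp1.le)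
    have hxΛ : x ∈ Λ := by
      apply hmem
      · refine ⟨Finset.univ.sup s, ?_⟩
        rw [hb']
        intro i
        rw [hnat, map_smul, Finsupp.smul_apply, smul_eq_mul, hx, Basis.repr_sum_self]
        have h1 : s i ≤ Finset.univ.sup s := Finset.le_sup (Finset.mem_univ i)
        have hp0 : (p : ℚ) ≠ 0 := by exact_mod_cast hp.ne_zero
        refine ⟨(p : ℤ) ^ (Finset.univ.sup s - s i) * A i, ?_⟩
        push_cast
        rw [mul_div_assoc', div_eq_iff (pow_ne_zero _ hp0)]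
        have h2 : (p : ℚ) ^ (Finset.univ.sup s) = (p : ℚ) ^ (Finset.univ.sup s - s i) * p ^ s i := by
          rw [← pow_add, Nat.sub_add_cancel h1]
        rw [h2]; ring
      · intro a d
        have h1 : j x a d = M a d - (M - j x) a d := by
          rw [Matrix.sub_apply, sub_sub_cancel]
        rw [h1]
        rw [sub_eq_add_neg]
        refine (IsUltrametricDist.norm_add_le_max _ _).trans (max_le ?_ ?_)
        swap
        · rw [norm_neg]; exact (hdiff a d).trans hk1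
        exact PadicInt.norm_le_one _
    refine ⟨⟨x, hxΛ⟩, ?_⟩
    ext a d
    rw [RingHom.comp_apply, RingHom.mapMatrix_apply, Matrix.map_apply, ← hu a d, ← sub_eq_zero,
      ← map_sub, ← RingHom.mem_ker, PadicInt.ker_toZModPow, ← PadicInt.norm_le_pow_iff_mem_span_pow]
    rw [PadicInt.norm_def, PadicInt.coe_sub, hRj, ← norm_neg, neg_sub]
    exact hdiff a d
  · intro x
    constructor
    · intro hx
      have h1 : ∀ a d, ‖j x a d‖ ≤ (p : ℝ) ^ (-(k : ℤ)) := by
        intro a d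
        have h2 := congrFun (congrFun hx a) d
        rw [RingHom.comp_apply, RingHom.mapMatrix_apply, Matrix.map_apply, Matrix.zero_apply,
          ← RingHom.mem_ker, PadicInt.ker_toZModPow, ← PadicInt.norm_le_pow_iff_mem_span_pow,
          PadicInt.norm_def, hRj] at h2
        exact h2
      have hpk : ((p : ℚ) ^ k) ≠ 0 := by
        have : (p : ℚ) ≠ 0 := by exact_mod_cast hp.ne_zero
        exact pow_ne_zero _ this
      set y : D := ((p : ℚ) ^ k)⁻¹ • (x : D) with hy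
      have hyx : ((p ^ k : ℕ) : D) * y = x := by
        rw [hnat, hy, smul_smul, mul_inv_cancel₀ hpk, one_smul]
      have hyΛ : y ∈ Λ := by
        apply hmem
        · exact ⟨k, by rw [hyx]; exact x.2⟩
        · intro a d
          rw [hy, hjQ, Matrix.smul_apply, smul_eq_mul, norm_mul]
          push_cast
          rw [norm_inv, norm_pow, Padic.norm_p, inv_pow, inv_inv]
          calc (p : ℝ) ^ k * ‖j x a d‖ ≤ (p : ℝ) ^ k * (p : ℝ) ^ (-(k : ℤ)) :=
                mul_le_mul_of_nonneg_left (h1 a d) (by positivity)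
            _ = 1 := by
                rw [zpow_neg, zpow_natCast]
                exact mul_inv_cancel₀ (by positivity)
      refine ⟨⟨y, hyΛ⟩, ?_⟩
      apply Subtype.ext
      rw [Subring.coe_mul, Subring.coe_natCast]
      exact hyx.symm
    · rintro ⟨y, rfl⟩
      rw [map_mul, map_natCast]
      have h1 : ((p ^ k : ℕ) : Matrix (Fin n) (Fin n) (ZMod (p ^ k))) = 0 := by
        rw [← map_natCast (algebraMap (ZMod (p ^ k)) (Matrix (Fin n) (Fin n) (ZMod (p ^ k)))),
          ZMod.natCast_self, map_zero]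
      rw [h1, zero_mul]

end Pool.Agent.Helper8.Hey
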