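import Pool.Agent.Helper8.Hey.Defs

set_option autoImplicit false

/-! HY-8 -/

open Module
open scoped TensorProduct ContDiff

namespace Pool.Agent.Helper8.Hey

/-- a finitely generated subgroup of a `ℚ`-vector space that spans it has a basis -/
theorem lat_exists_basis (D : Type) [AddCommGroup D] [Module ℚ D]
    (M : AddSubgroup D) (hM : M.FG) (hs : ∀ x : D, ∃ k : ℕ, k ≠ 0 ∧ k • x ∈ M) :
    ∃ (r : ℕ) (b : Basis (Fin r) ℚ D), M = AddSubgroup.closure (Set.range b) := by
  classical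
  have hfin : Module.Finite ℤ (AddSubgroup.toIntSubmodule M) := by
    rw [Module.Finite.iff_fg]
    have h1 := (AddSubgroup.fg_iff_addSubmonoid_fg M).1 hM
    obtain ⟨S, hS⟩ := hM
    refine ⟨S, ?_⟩
    rw [← AddSubgroup.toIntSubmodule_closure, hS]
  have htf : IsAddTorsionFree D := by
    exact IsAddTorsionFree.of_module_rat D
  have hfree : Module.Free ℤ (AddSubgroup.toIntSubmodule M) := inferInstance
  let b0 : Basis (Fin (finrank ℤ (AddSubgroup.toIntSubmodule M))) ℤ
    (AddSubgroup.toIntSubmodule M) := Module.finBasis ℤ _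
  have hli : LinearIndependent ℤ (fun i => (b0 i : D)) := by
    have := b0.linearIndependent.map' (AddSubgroup.toIntSubmodule M).subtype
      (Submodule.ker_subtype _)
    exact this
  have hliQ : LinearIndependent ℚ (fun i => (b0 i : D)) :=
    (LinearIndependent.iff_fractionRing ℤ ℚ).1 hli
  have hspanZ : AddSubgroup.closure (Set.range fun i => (b0 i : D)) = M := by
    have h1 : Submodule.span ℤ (Set.range b0) = ⊤ := b0.span_eq
    have h2 : Submodule.span ℤ (Set.range fun i => (b0 i : D)) =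
        AddSubgroup.toIntSubmodule M := by
      have h3 := congrArg (Submodule.map (AddSubgroup.toIntSubmodule M).subtype) h1
      rw [Submodule.map_span, Submodule.map_top, Submodule.range_subtype, ← Set.range_comp] at h3
      exact h3
    have h4 := congrArg Submodule.toAddSubgroup h2
    rw [Submodule.span_int_eq_addSubgroupClosure] at h4
    simpa using h4
  have hspanQ : ⊤ ≤ Submodule.span ℚ (Set.range fun i => (b0 i : D)) := by
    intro x _
    obtain ⟨k, hk, hkx⟩ := hs x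
    have h5 : k • x ∈ Submodule.span ℚ (Set.range fun i => (b0 i : D)) := by
      rw [← hspanZ] at hkx
      refine AddSubgroup.closure_induction (p := fun y _ => y ∈ Submodule.span ℚ
        (Set.range fun i => (b0 i : D))) ?_ ?_ ?_ ?_ hkx
      · intro y hy; exact Submodule.subset_span hy
      · exact Submodule.zero_mem _
      · intro y z _ _ hy hz; exact Submodule.add_mem _ hy hz
      · intro y _ hy; exact Submodule.neg_mem _ hy
    have h6 : x = ((k : ℚ)⁻¹) • (k • x) := by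
      rw [← Nat.cast_smul_eq_nsmul ℚ k x, smul_smul, inv_mul_cancel₀ (by exact_mod_cast hk),
        one_smul]
    rw [h6]
    exact Submodule.smul_mem _ _ h5
  refine ⟨_, Basis.mk hliQ hspanQ, ?_⟩
  rw [Basis.coe_mk]
  exact hspanZ.symm

theorem lat_mem_closure_iff {D : Type} [AddCommGroup D] [Module ℚ D] {r : ℕ}
    (b : Basis (Fin r) ℚ D) (x : D) :
    x ∈ AddSubgroup.closure (Set.range b) ↔ ∀ i, ∃ k : ℤ, b.repr x i = k := by
  constructor
  · intro hx
    refine AddSubgroup.closure_induction (p := fun y _ => ∀ i, ∃ k : ℤ, b.repr y i = k)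
      ?_ ?_ ?_ ?_ hx
    · rintro _ ⟨j, rfl⟩ i
      rw [Basis.repr_self]
      by_cases h : j = i
      · refine ⟨1, ?_⟩
        subst h
        simp
      · exact ⟨0, by simp [Finsupp.single_eq_of_ne (Ne.symm h)]⟩
    · intro i; exact ⟨0, by simp⟩
    · intro y z _ _ hy hz i
      obtain ⟨k, hk⟩ := hy i
      obtain ⟨l, hl⟩ := hz i
      exact ⟨k + l, by rw [map_add, Finsupp.add_apply, hk, hl]; push_cast; rfl⟩
    · intro y _ hy i
      obtain ⟨k, hk⟩ := hy i
      exact ⟨-k, by rw [map_neg, Finsupp.neg_apply, hk]; push_cast; rfl⟩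
  · intro h
    choose k hk using h
    rw [← b.sum_repr x]
    refine AddSubgroup.sum_mem _ fun i _ => ?_
    rw [hk i]
    have : ((k i : ℤ) : ℚ) • b i = k i • b i := Int.cast_smul_eq_zsmul ℚ (k i) (b i)
    rw [this]
    exact AddSubgroup.zsmul_mem _ (AddSubgroup.subset_closure (Set.mem_range_self i)) _

theorem exists_latBasis (D : Type) [Ring D] [Algebra ℚ D] [FiniteDimensional ℚ D]
    (M : AddSubgroup D) (hM : M.FG) (hs : ∀ x : D, ∃ k : ℕ, k ≠ 0 ∧ (k : D) * x ∈ M) :
    ∃ b : Basis (Fin (finrank ℚ D)) ℚ D, IsLatBasis M b := by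
  obtain ⟨r, b, hb⟩ := lat_exists_basis D M hM (fun x => by
    obtain ⟨k, hk, h⟩ := hs x
    exact ⟨k, hk, by rwa [nsmul_eq_mul]⟩)
  have hr : r = finrank ℚ D := by
    rw [Module.finrank_eq_card_basis b, Fintype.card_fin]
  subst hr
  refine ⟨b, fun x => ?_⟩
  rw [hb]
  exact lat_mem_closure_iff b x

theorem lat_fg_of_le {D : Type} [AddCommGroup D] {A B : AddSubgroup D} (hB : B.FG) (h : A ≤ B) :
    A.FG := by
  obtain ⟨S, hS⟩ := hB
  have hB' : (AddSubgroup.toIntSubmodule B).FG := ⟨S, by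
    rw [← AddSubgroup.toIntSubmodule_closure, hS]⟩
  have hle : AddSubgroup.toIntSubmodule A ≤ AddSubgroup.toIntSubmodule B := h
  have hA : (AddSubgroup.toIntSubmodule A).FG := Submodule.FG.of_le hB' hle
  obtain ⟨T, hT⟩ := hA
  refine ⟨T, ?_⟩
  have h4 := congrArg Submodule.toAddSubgroup hT
  rw [Submodule.span_int_eq_addSubgroupClosure] at h4
  simpa using h4

theorem lat_index_mul_mem {D : Type} [AddCommGroup D] {A B : AddSubgroup D}
    {x : D} (hx : x ∈ B) : (A.relIndex B) • x ∈ A := by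
  have h := AddSubgroup.nsmul_index_mem (A.addSubgroupOf B) (⟨x, hx⟩ : B)
  rw [AddSubgroup.mem_addSubgroupOf] at h
  exact h

theorem lat_leftIdeal_span {D : Type} [Ring D] [Algebra ℚ D] {Λ : Subring D} (hΛ : IsOrder Λ)
    {I : AddSubgroup D} (hI : IsLeftIdeal Λ I) (x : D) : ∃ k : ℕ, k ≠ 0 ∧ (k : D) * x ∈ I := by
  obtain ⟨k, hk, h⟩ := hΛ.span x
  refine ⟨I.relIndex Λ.toAddSubgroup * k, mul_ne_zero hI.fin hk, ?_⟩
  have := lat_index_mul_mem (A := I) (B := Λ.toAddSubgroup) (x := (k : D) * x) h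
  rw [nsmul_eq_mul] at this
  rw [Nat.cast_mul, mul_assoc]
  exact this

theorem lat_leftIdeal_fg {D : Type} [Ring D] [Algebra ℚ D] {Λ : Subring D} (hΛ : IsOrder Λ)
    {I : AddSubgroup D} (hI : IsLeftIdeal Λ I) : I.FG := lat_fg_of_le hΛ.fg hI.le

theorem latBasis_leftIdeal (D : Type) [Ring D] [Algebra ℚ D] [FiniteDimensional ℚ D]
    (Λ : Subring D) (hΛ : IsOrder Λ) (I : AddSubgroup D) (hI : IsLeftIdeal Λ I) :
    ∃ b : Basis (Fin (finrank ℚ D)) ℚ D, IsLatBasis I b :=
  exists_latBasis D I (lat_leftIdeal_fg hΛ hI) (lat_leftIdeal_span hΛ hI)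

theorem lat_fg_of_injective {D E : Type} [AddCommGroup D] [AddCommGroup E] (φ : D →+ E)
    (hφ : Function.Injective φ) (A : AddSubgroup D) (B : AddSubgroup E) (hB : B.FG)
    (h : A.map φ ≤ B) : A.FG := by
  have h1 : (A.map φ).FG := lat_fg_of_le hB h
  obtain ⟨S, hS⟩ := h1
  have h2 : (AddSubgroup.toIntSubmodule (A.map φ)).FG := ⟨S, by
    rw [← AddSubgroup.toIntSubmodule_closure, hS]⟩
  have h3 : AddSubgroup.toIntSubmodule (A.map φ) =
      (AddSubgroup.toIntSubmodule A).map φ.toIntLinearMap := rfl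
  rw [h3] at h2
  obtain ⟨T, hT⟩ := Submodule.fg_of_fg_map_injective φ.toIntLinearMap hφ h2
  refine ⟨T, ?_⟩
  have h4 := congrArg Submodule.toAddSubgroup hT
  rw [Submodule.span_int_eq_addSubgroupClosure] at h4
  simpa using h4

/-- the lattice `{y | J y ⊆ M}` for left ideals `J`, `M` (for `M = Λ` it is `quo Λ J`, for
`M = J` it is the right order of `J`) -/
theorem latBasis_quo (D : Type) [DivisionRing D] [Algebra ℚ D] [FiniteDimensional ℚ D]
    (Λ : Subring D) (hΛ : IsOrder Λ) (J M L : AddSubgroup D) (hJ : IsLeftIdeal Λ J)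
    (hM : IsLeftIdeal Λ M) (hL : ∀ y, y ∈ L ↔ ∀ x ∈ J, x * y ∈ M) :
    ∃ b : Basis (Fin (finrank ℚ D)) ℚ D, IsLatBasis L b := by
  have hchar : CharZero D := algebraRat.charZero D
  apply exists_latBasis
  · have h1 : (J.relIndex Λ.toAddSubgroup) • (1 : D) ∈ J := lat_index_mul_mem Λ.one_mem
    rw [nsmul_eq_mul, mul_one] at h1
    have h2 : ((J.relIndex Λ.toAddSubgroup : ℕ) : D) ≠ 0 := by exact_mod_cast hJ.fin
    refine lat_fg_of_injective (AddMonoidHom.mulLeft ((J.relIndex Λ.toAddSubgroup : ℕ) : D))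
      ?_ L M (lat_leftIdeal_fg hΛ hM) ?_
    · intro y z hyz
      exact mul_left_cancel₀ h2 hyz
    · rintro _ ⟨y, hy, rfl⟩
      exact (hL y).1 hy _ h1
  · intro y
    obtain ⟨k, hk, h⟩ := hΛ.span y
    refine ⟨M.relIndex Λ.toAddSubgroup * k, mul_ne_zero hM.fin hk, ?_⟩
    rw [hL]
    intro x hx
    have h3 : x * ((k : D) * y) ∈ Λ.toAddSubgroup := Λ.mul_mem (hJ.le hx) h
    have h4 := lat_index_mul_mem (A := M) h3
    rw [nsmul_eq_mul] at h4
    have h5 : x * (((M.relIndex Λ.toAddSubgroup * k : ℕ) : D) * y) =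
        ((M.relIndex Λ.toAddSubgroup : ℕ) : D) * (x * ((k : D) * y)) := by
      rw [Nat.cast_mul, mul_assoc, ← mul_assoc x, ← Nat.cast_comm, mul_assoc]
    rw [h5]
    exact h4

end Pool.Agent.Helper8.Hey
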