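import Pool.Agent.Helper8.Hey.Defs
import Pool.Agent.Helper8.Hey.Lat

set_option autoImplicit false

/-! HY-3 -/

open Module
open scoped TensorProduct ContDiff

namespace Pool.Agent.Helper8.Hey

private theorem maxOrder_noeth {D : Type} [Ring D] [Algebra ℚ D] {ι : Type} [Finite ι]
    (T : D →ₗ[ℚ] (ι → ℚ)) (hT : Function.Injective T) (S : Submodule ℤ D)
    (hS : ∀ x ∈ S, ∀ i, ∃ k : ℤ, T x i = k) : IsNoetherian ℤ S := by
  choose g hg using hS
  let f : S →+ (ι → ℤ) :=
    { toFun := fun x i => g x.1 x.2 i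
      map_zero' := by
        ext i
        apply Int.cast_injective (α := ℚ)
        rw [← hg]
        simp
      map_add' := by
        intro x y
        ext i
        apply Int.cast_injective (α := ℚ)
        rw [Pi.add_apply, Int.cast_add, ← hg, ← hg, ← hg]
        simp }
  refine isNoetherian_of_injective f.toIntLinearMap ?_
  intro x y hxy
  apply Subtype.ext
  apply hT
  ext i
  rw [hg x.1 x.2 i, hg y.1 y.2 i]
  exact congrArg (fun k : ℤ => (k : ℚ)) (congrFun hxy i)

private theorem maxOrder_denom {ι : Type} [Fintype ι] (c : ι → ℚ) :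
    ∃ k : ℕ, k ≠ 0 ∧ ∀ i, ∃ m : ℤ, (k : ℚ) * c i = m := by
  classical
  refine ⟨∏ i, (c i).den, Finset.prod_ne_zero_iff.2 fun i _ => (c i).den_nz, fun i => ?_⟩
  refine ⟨(∏ j ∈ Finset.univ.erase i, ((c j).den : ℤ)) * (c i).num, ?_⟩
  rw [← Finset.mul_prod_erase _ _ (Finset.mem_univ i)]
  push_cast
  have h : ((c i).den : ℚ) * c i = (c i).num := by
    rw [mul_comm]
    exact Rat.mul_den_eq_num (c i)
  rw [mul_comm ((c i).den : ℚ), mul_assoc, h]

/-- the left order of the lattice spanned by a basis -/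
private theorem exists_order (D : Type) [DivisionRing D] [Algebra ℚ D] [FiniteDimensional ℚ D] :
    ∃ Λ : Subring D, IsOrder Λ := by
  let e := finBasis ℚ D
  let Λ : Subring D :=
    { carrier := {x | ∀ y, (∀ i, ∃ k : ℤ, e.repr y i = k) → ∀ i, ∃ k : ℤ, e.repr (x * y) i = k}
      mul_mem' := by
        intro a b ha hb y hy
        rw [mul_assoc]
        exact ha _ (hb y hy)
      one_mem' := by
        intro y hy
        rwa [one_mul]
      add_mem' := by
        intro a b ha hb y hy i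
        obtain ⟨k, hk⟩ := ha y hy i
        obtain ⟨l, hl⟩ := hb y hy i
        exact ⟨k + l, by rw [add_mul, map_add, Finsupp.add_apply, hk, hl, Int.cast_add]⟩
      zero_mem' := by
        intro y _ i
        exact ⟨0, by simp⟩
      neg_mem' := by
        intro a ha y hy i
        obtain ⟨k, hk⟩ := ha y hy i
        exact ⟨-k, by rw [neg_mul, map_neg, Finsupp.neg_apply, hk, Int.cast_neg]⟩ }
  have hmem : ∀ x, x ∈ Λ ↔ ∀ y, (∀ i, ∃ k : ℤ, e.repr y i = k) →
    ∀ i, ∃ k : ℤ, e.repr (x * y) i = k := fun x => Iff.rfl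
  have he : ∀ j, ∀ i, ∃ k : ℤ, e.repr (e j) i = k := by
    intro j i
    rw [Basis.repr_self, Finsupp.single_apply]
    by_cases hji : j = i
    · exact ⟨1, by simp [hji]⟩
    · exact ⟨0, by simp [hji]⟩
  refine ⟨Λ, ?_, ?_⟩
  · let T : D →ₗ[ℚ] (Fin (finrank ℚ D) × Fin (finrank ℚ D) → ℚ) :=
      { toFun := fun x q => e.repr (x * e q.1) q.2
        map_add' := by
          intro x y
          ext q
          simp [add_mul]
        map_smul' := by
          intro c x
          ext q
          simp }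
    have hT : Function.Injective T := by
      rw [injective_iff_map_eq_zero]
      intro x hx
      have h1 : ∀ j, x * e j = 0 := by
        intro j
        apply e.repr.injective
        ext i
        rw [map_zero, Finsupp.zero_apply]
        exact congrFun hx (j, i)
      have h2 : LinearMap.mulLeft ℚ x = 0 := e.ext fun j => by simpa using h1 j
      have h3 := LinearMap.congr_fun h2 1
      simpa using h3
    have hN := maxOrder_noeth T hT (AddSubgroup.toIntSubmodule Λ.toAddSubgroup)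
      (fun x hx q => hx (e q.1) (he q.1) q.2)
    have hfg := (isNoetherian_submodule.1 hN) _ le_rfl
    rw [Submodule.fg_iff_addSubgroup_fg] at hfg
    exact hfg
  · intro x
    obtain ⟨k, hk0, hk⟩ := maxOrder_denom
      (fun q : Fin (finrank ℚ D) × Fin (finrank ℚ D) => e.repr (x * e q.1) q.2)
    refine ⟨k, hk0, fun y hy i => ?_⟩
    choose c hc using hy
    choose m hm using hk
    refine ⟨∑ j, c j * m (j, i), ?_⟩
    have hy' : y = ∑ j, (c j : ℚ) • e j := by
      conv_lhs => rw [← e.sum_repr y]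
      exact Finset.sum_congr rfl fun j _ => by rw [hc]
    rw [hy', Finset.mul_sum, map_sum, Finset.sum_apply']
    push_cast
    refine Finset.sum_congr rfl fun j _ => ?_
    have hkx : (k : D) * x * ((c j : ℚ) • e j) = ((c j : ℚ) * k) • (x * e j) := by
      rw [mul_smul_comm, mul_smul, mul_assoc, ← nsmul_eq_mul, ← Nat.cast_smul_eq_nsmul ℚ]
    rw [hkx, map_smul, Finsupp.smul_apply, smul_eq_mul, mul_assoc, hm (j, i)]

theorem exists_maxOrder (D : Type) [DivisionRing D] [Algebra ℚ D] [FiniteDimensional ℚ D] :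
    ∃ Λ : Subring D, IsMaxOrder Λ := by
  obtain ⟨Λ₀, h₀⟩ := exists_order D
  obtain ⟨b, hb⟩ := exists_latBasis D Λ₀.toAddSubgroup h₀.fg h₀.span
  -- the trace
  let t : D →ₗ[ℚ] ℚ := (LinearMap.trace ℚ D).comp (LinearMap.mul ℚ D)
  have ht : ∀ x, t x = LinearMap.trace ℚ D (LinearMap.mulLeft ℚ x) := fun x => rfl
  have htint : ∀ Λ : Subring D, IsOrder Λ → ∀ x ∈ Λ, ∃ k : ℤ, t x = k := by
    intro Λ hΛ x hx
    obtain ⟨c, hc⟩ := exists_latBasis D Λ.toAddSubgroup hΛ.fg hΛ.span
    have hcm : ∀ i, c i ∈ Λ := by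
      intro i
      refine (hc (c i)).2 fun j => ?_
      rw [Basis.repr_self, Finsupp.single_apply]
      by_cases hij : i = j
      · exact ⟨1, by simp [hij]⟩
      · exact ⟨0, by simp [hij]⟩
    have h1 : ∀ i, ∃ k : ℤ, c.repr (x * c i) i = k := fun i =>
      (hc (x * c i)).1 (Λ.mul_mem hx (hcm i)) i
    choose k hk using h1
    refine ⟨∑ i, k i, ?_⟩
    rw [ht, LinearMap.trace_eq_matrix_trace ℚ c, Matrix.trace]
    push_cast
    refine Finset.sum_congr rfl fun i _ => ?_
    rw [Matrix.diag_apply, LinearMap.toMatrix_apply, LinearMap.mulLeft_apply, hk]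
  have hbm : ∀ i, b i ∈ Λ₀ := by
    intro i
    refine (hb (b i)).2 fun j => ?_
    rw [Basis.repr_self, Finsupp.single_apply]
    by_cases hij : i = j
    · exact ⟨1, by simp [hij]⟩
    · exact ⟨0, by simp [hij]⟩
  let T : D →ₗ[ℚ] (Fin (finrank ℚ D) → ℚ) :=
    LinearMap.pi fun i => t.comp (LinearMap.mulRight ℚ (b i))
  have hTa : ∀ x i, T x i = t (x * b i) := fun x i => rfl
  have hT : Function.Injective T := by
    rw [injective_iff_map_eq_zero]
    intro x hx
    by_contra hx0
    have h1 : t.comp (LinearMap.mulLeft ℚ x) = 0 := by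
      refine b.ext fun i => ?_
      have := congrFun hx i
      simpa [hTa] using this
    have h2 := LinearMap.congr_fun h1 x⁻¹
    rw [LinearMap.comp_apply, LinearMap.mulLeft_apply, mul_inv_cancel₀ hx0, ht,
      LinearMap.mulLeft_one, LinearMap.trace_id, LinearMap.zero_apply] at h2
    have h3 : 0 < finrank ℚ D := finrank_pos
    rw [Nat.cast_eq_zero] at h2
    omega
  let S : Submodule ℤ D :=
    { carrier := {x | ∀ i, ∃ k : ℤ, T x i = k}
      add_mem' := by
        intro x y hx hy i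
        obtain ⟨k, hk⟩ := hx i
        obtain ⟨l, hl⟩ := hy i
        exact ⟨k + l, by rw [map_add, Pi.add_apply, hk, hl, Int.cast_add]⟩
      zero_mem' := fun i => ⟨0, by simp⟩
      smul_mem' := by
        intro c x hx i
        obtain ⟨k, hk⟩ := hx i
        refine ⟨c * k, ?_⟩
        rw [map_zsmul, Pi.smul_apply, hk, zsmul_eq_mul, Int.cast_mul] }
  have hS : IsNoetherian ℤ S := maxOrder_noeth T hT S fun x hx => hx
  have hle : ∀ Λ : Subring D, IsOrder Λ → Λ₀ ≤ Λ → ∀ x ∈ Λ, x ∈ S := by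
    intro Λ hΛ h0 x hx i
    exact htint Λ hΛ (x * b i) (Λ.mul_mem hx (h0 (hbm i)))
  let Q : Set (Submodule ℤ S) := {P | ∃ Λ : Subring D, IsOrder Λ ∧ Λ₀ ≤ Λ ∧
    P = (AddSubgroup.toIntSubmodule Λ.toAddSubgroup).comap S.subtype}
  have hQ : Q.Nonempty := ⟨_, Λ₀, h₀, le_rfl, rfl⟩
  obtain ⟨P, ⟨Λ, hΛ, h0, rfl⟩, hmax⟩ := set_has_maximal_iff_noetherian.2 hS Q hQ
  refine ⟨Λ, hΛ, fun Λ' hΛ' hle' => ?_⟩
  refine le_antisymm ?_ hle'
  by_contra hnot
  refine hmax _ ⟨Λ', hΛ', h0.trans hle', rfl⟩ ?_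
  refine lt_of_le_not_ge (fun x hx => hle' hx) ?_
  intro hge
  apply hnot
  intro x hx
  exact hge (show (⟨x, hle Λ' hΛ' (h0.trans hle') x hx⟩ : S) ∈
    (AddSubgroup.toIntSubmodule Λ'.toAddSubgroup).comap S.subtype from hx)

end Pool.Agent.Helper8.Hey
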