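import Pool.Agent.Helper8.Hey.Unfold
import Pool.Agent.Helper8.Hey.LatticeN
import Pool.Agent.Helper8.Hey.Count
import Pool.Agent.Helper8.Hey.LeftIdeals
import Pool.Agent.Helper8.Hey.Crt
import Pool.Agent.Helper8.Hey.Local
import Pool.Agent.Helper8.Hey.MaxOrder
import Pool.Agent.Helper8.Hey.LeftRight

set_option autoImplicit false

/-! HY-18 -/

open Module
open scoped TensorProduct ContDiff

namespace Pool.Agent.Helper8.Hey

private theorem cnt_zero_right (n : ℕ) : cnt n 0 = 0 := by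
  cases n <;> simp [cnt]

theorem main_asymp (D : Type) [DivisionRing D] [Algebra ℚ D] [FiniteDimensional ℚ D] (n : ℕ)
    (hn : n ≠ 0) (hN : finrank ℚ D = n ^ 2)
    (hs : ∀ (p : ℕ) [Fact p.Prime],
      Nonempty (ℚ_[p] ⊗[ℚ] D ≃ₐ[ℚ_[p]] Matrix (Fin n) (Fin n) ℚ_[p]))
    (Φ : ℝ → ℝ) (hΦ : ContDiff ℝ ∞ Φ) (hΦc : HasCompactSupport Φ)
    (hΦs : tsupport Φ ⊆ Set.Ioi 0) :
    ∃ C : ℝ, ∀ k : ℕ, ∃ K : ℝ, ∀ T : ℝ, 1 ≤ T →
      |∑' m : ℕ, (cnt n m : ℝ) * Φ ((m : ℝ) ^ n / T ^ (n ^ 2)) - C * T ^ (n ^ 2)| ≤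
        K * T ^ (n ^ 2) / T ^ k := by
  classical
  obtain ⟨Λ, hΛ⟩ := exists_maxOrder D
  have hO : IsOrder Λ := hΛ.toIsOrder
  have hLR : ∀ a : D, LinearMap.det (LinearMap.mulLeft ℚ a) =
      LinearMap.det (LinearMap.mulRight ℚ a) := by
    have : Fact (Nat.Prime 2) := ⟨Nat.prime_two⟩
    obtain ⟨e⟩ := hs 2
    exact det_left_eq_right D ℚ_[2] n e
  have hsp : ∀ m : ℕ, m ≠ 0 → SplitAt Λ n m := by
    refine splitAt_all Λ n ?_
    intro p k hp
    have : Fact p.Prime := ⟨hp⟩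
    obtain ⟨e⟩ := hs p
    exact maxOrder_local D Λ hΛ p n e k
  obtain ⟨R, hRf, hRI, hRu⟩ := finite_classes D Λ hO
  let _ : Fintype R := hRf.fintype
  have hcl := fun J : R => class_sum D hLR Λ hO J (hRI J J.2) Φ hΦ hΦc hΦs
  choose f hf1 hf2 hf3 using hcl
  have hlat := fun (J : R) (k : ℕ) => lattice_sum (f J) (hf1 J) (hf2 J) k
  choose K hK using hlat
  refine ⟨∑ J : R, ∫ x, f J x, fun k => ⟨∑ J : R, K J k, fun T hT => ?_⟩⟩
  have hT0 : (0 : ℝ) < T := lt_of_lt_of_le one_pos hT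
  -- the sum over all left ideals
  have hfin : (Function.support fun I : {I : AddSubgroup D // IsLeftIdeal Λ I} =>
      Φ (((I : AddSubgroup D).relIndex Λ.toAddSubgroup : ℝ) / T ^ (n ^ 2))).Finite := by
    obtain ⟨B, hB⟩ := hΦc.isCompact.isBounded.subset_closedBall 0
    refine Set.Finite.of_finite_image (f := fun I => (I : AddSubgroup D)) ?_
      (Set.injOn_of_injective Subtype.val_injective)
    refine (finite_relIndex Λ hO ⌊B * T ^ (n ^ 2)⌋₊).subset ?_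
    rintro _ ⟨I, hI, rfl⟩
    refine ⟨I.2, ?_⟩
    have h1 := hB (subset_tsupport _ hI)
    rw [mem_closedBall_zero_iff, Real.norm_eq_abs] at h1
    have h2 := (le_abs_self _).trans h1
    rw [div_le_iff₀ (by positivity)] at h2
    exact Nat.le_floor h2
  have hS : HasSum (fun I : {I : AddSubgroup D // IsLeftIdeal Λ I} =>
      Φ (((I : AddSubgroup D).relIndex Λ.toAddSubgroup : ℝ) / T ^ (n ^ 2)))
      (∑' I : {I : AddSubgroup D // IsLeftIdeal Λ I},
      Φ (((I : AddSubgroup D).relIndex Λ.toAddSubgroup : ℝ) / T ^ (n ^ 2))) :=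
    (summable_of_hasFiniteSupport hfin).hasSum
  -- by index
  have hidx := fun I : {I : AddSubgroup D // IsLeftIdeal Λ I} => relIndex_leftIdeal Λ n hn hsp I I.2
  choose g hg0 hg using hidx
  have hA := hS.tsum_fiberwise g
  have hA2 : ∀ m : ℕ, (∑' b : g ⁻¹' {m},
      Φ (((b : {I : AddSubgroup D // IsLeftIdeal Λ I}) : AddSubgroup D).relIndex
        Λ.toAddSubgroup / T ^ (n ^ 2))) = (cnt n m : ℝ) * Φ ((m : ℝ) ^ n / T ^ (n ^ 2)) := by
    intro m
    have h1 : (∑' b : g ⁻¹' {m},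
      Φ (((b : {I : AddSubgroup D // IsLeftIdeal Λ I}) : AddSubgroup D).relIndex
        Λ.toAddSubgroup / T ^ (n ^ 2))) = ∑' _ : g ⁻¹' {m}, Φ ((m : ℝ) ^ n / T ^ (n ^ 2)) := by
      refine tsum_congr (fun b => ?_)
      have hb : g b = m := b.2
      rw [hg, hb, Nat.cast_pow]
    have h2 : Nat.card (g ⁻¹' {m}) = cnt n m := by
      rcases eq_or_ne m 0 with hm | hm
      · subst hm
        rw [cnt_zero_right]
        have : IsEmpty (g ⁻¹' {0}) := ⟨fun b => hg0 _ b.2⟩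
        exact Nat.card_of_isEmpty
      · obtain ⟨e⟩ := card_leftIdeal Λ n hn hsp m hm
        rw [← card_index n m hm, ← Nat.card_congr e]
        refine Nat.card_congr
          { toFun := fun x => ⟨x.1.1, x.1.2, ?_⟩
            invFun := fun y => ⟨⟨y.1, y.2.1⟩, ?_⟩
            left_inv := fun x => rfl
            right_inv := fun y => rfl }
        · have hb : g x = m := x.2
          rw [hg, hb]
        · have h3 := hg ⟨y.1, y.2.1⟩
          have h4 := y.2.2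
          exact Nat.pow_left_injective hn (h3.symm.trans h4)
    rw [h1, tsum_const, h2, nsmul_eq_mul]
  -- by class
  have hcls := fun I : {I : AddSubgroup D // IsLeftIdeal Λ I} => (hRu I I.2).exists
  choose cls hcR hcy using hcls
  have hB := hS.tsum_fiberwise (fun I => (⟨cls I, hcR I⟩ : R))
  have hB2 : ∀ J : R, (∑' b : (fun I => (⟨cls I, hcR I⟩ : R)) ⁻¹' {J},
      Φ (((b : {I : AddSubgroup D // IsLeftIdeal Λ I}) : AddSubgroup D).relIndex
        Λ.toAddSubgroup / T ^ (n ^ 2))) =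
      ∑' x : Fin (finrank ℚ D) → ℤ, f J (T⁻¹ • fun i => (x i : ℝ)) := by
    intro J
    rw [← hf3 J T hT0, hN]
    let e : ((fun I => (⟨cls I, hcR I⟩ : R)) ⁻¹' {J}) ≃
        {I : AddSubgroup D // IsLeftIdeal Λ I ∧ ∃ y : D, y ≠ 0 ∧ I = rt J y} :=
      { toFun := fun x => ⟨x.1.1, x.1.2, by
          have h1 : (⟨cls x.1, hcR x.1⟩ : R) = J := x.2
          have h2 : cls x.1 = (J : AddSubgroup D) := congrArg Subtype.val h1
          rw [← h2]
          exact hcy x.1⟩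
        invFun := fun y => ⟨⟨y.1, y.2.1⟩, by
          have h1 := (hRu y.1 y.2.1).unique ⟨hcR ⟨y.1, y.2.1⟩, hcy ⟨y.1, y.2.1⟩⟩ ⟨J.2, y.2.2⟩
          exact Subtype.ext h1⟩
        left_inv := fun x => rfl
        right_inv := fun y => rfl }
    exact e.tsum_eq (fun I : {I : AddSubgroup D // IsLeftIdeal Λ I ∧ ∃ y : D, y ≠ 0 ∧ I = rt J y} =>
      Φ (((I : AddSubgroup D).relIndex Λ.toAddSubgroup : ℝ) / T ^ (n ^ 2)))
  simp only [hA2] at hA
  simp only [hB2] at hB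
  rw [hA.tsum_eq, hB.unique (hasSum_fintype _), Finset.sum_mul, ← Finset.sum_sub_distrib]
  refine (Finset.abs_sum_le_sum_abs _ _).trans ?_
  rw [Finset.sum_mul, Finset.sum_div]
  refine Finset.sum_le_sum (fun J _ => ?_)
  have h5 := hK J k T hT
  have hTN : T ^ (finrank ℚ D) = T ^ (n ^ 2) := by rw [hN]
  rw [hTN] at h5
  rw [mul_comm (∫ x, f J x)]
  exact h5

end Pool.Agent.Helper8.Hey
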