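import Pool.Agent.Helper8.Hey.Defs

set_option autoImplicit false

/-! HY-1 -/

open Module
open scoped TensorProduct ContDiff

namespace Pool.Agent.Helper8.Hey

section Basic

variable {D : Type} [Ring D] [Algebra ℚ D] {N : ℕ} (b : Basis (Fin N) ℚ D)

/-- a linear family of rational endomorphisms, as real matrices -/
noncomputable def matR (φ : D →ₗ[ℚ] (D →ₗ[ℚ] D)) (x : Fin N → ℝ) : Matrix (Fin N) (Fin N) ℝ :=
  ∑ i, x i • (LinearMap.toMatrix b b (φ (b i))).map (algebraMap ℚ ℝ)

theorem matR_vec (φ : D →ₗ[ℚ] (D →ₗ[ℚ] D)) (y : D) :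
    matR b φ (vec b y) = (LinearMap.toMatrix b b (φ y)).map (algebraMap ℚ ℝ) := by
  unfold matR vec
  have h1 : LinearMap.toMatrix b b (φ y) =
      ∑ i, b.repr y i • LinearMap.toMatrix b b (φ (b i)) := by
    conv_lhs => rw [← b.sum_repr y]
    rw [map_sum, map_sum]
    apply Finset.sum_congr rfl
    intro i _
    rw [map_smul, map_smul]
  rw [h1]
  ext p q
  rw [Matrix.sum_apply, Matrix.map_apply, Matrix.sum_apply, map_sum]
  apply Finset.sum_congr rfl
  intro i _
  rw [Matrix.smul_apply, Matrix.map_apply, Matrix.smul_apply, smul_eq_mul, smul_eq_mul, map_mul]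
  rfl

theorem matR_add (φ : D →ₗ[ℚ] (D →ₗ[ℚ] D)) (x y : Fin N → ℝ) :
    matR b φ (x + y) = matR b φ x + matR b φ y := by
  unfold matR
  rw [← Finset.sum_add_distrib]
  apply Finset.sum_congr rfl
  intro i _
  rw [Pi.add_apply, add_smul]

theorem matR_smul (φ : D →ₗ[ℚ] (D →ₗ[ℚ] D)) (t : ℝ) (x : Fin N → ℝ) :
    matR b φ (t • x) = t • matR b φ x := by
  unfold matR
  rw [Finset.smul_sum]
  apply Finset.sum_congr rfl
  intro i _
  rw [Pi.smul_apply, smul_smul, smul_eq_mul]

theorem matR_contDiff (φ : D →ₗ[ℚ] (D →ₗ[ℚ] D)) (p q : Fin N) :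
    ContDiff ℝ ∞ (fun x => matR b φ x p q) := by
  have h1 : (fun x : Fin N → ℝ => matR b φ x p q) = fun x =>
      ∑ i, x i * ((LinearMap.toMatrix b b (φ (b i))).map (algebraMap ℚ ℝ)) p q := by
    funext x
    unfold matR
    rw [Matrix.sum_apply]
    apply Finset.sum_congr rfl
    intro i _
    rw [Matrix.smul_apply, smul_eq_mul]
  rw [h1]
  apply ContDiff.sum
  intro i _
  exact (contDiff_apply ℝ ℝ i).mul contDiff_const

theorem matR_det_contDiff (φ : D →ₗ[ℚ] (D →ₗ[ℚ] D)) :
    ContDiff ℝ ∞ (fun x => (matR b φ x).det) := by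
  have h1 : (fun x : Fin N → ℝ => (matR b φ x).det) = fun x =>
      ∑ σ : Equiv.Perm (Fin N), ((Equiv.Perm.sign σ : ℤ) : ℝ) * ∏ i, matR b φ x (σ i) i := by
    funext x
    rw [Matrix.det_apply']
  rw [h1]
  apply ContDiff.sum
  intro σ _
  refine contDiff_const.mul ?_
  apply contDiff_prod
  intro i _
  exact matR_contDiff b φ _ _

theorem dense_vec : DenseRange (vec b) := by
  have h1 : DenseRange (Pi.map (fun (_ : Fin N) (q : ℚ) => (q : ℝ))) :=
    DenseRange.piMap fun _ => Rat.denseRange_cast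
  have h2 : Set.range (Pi.map (fun (_ : Fin N) (q : ℚ) => (q : ℝ))) ⊆ Set.range (vec b) := by
    rintro _ ⟨q, rfl⟩
    refine ⟨b.equivFun.symm q, ?_⟩
    funext i
    unfold vec
    rw [← Basis.equivFun_apply, LinearEquiv.apply_symm_apply]
    rfl
  exact Dense.mono h2 h1

theorem matR_continuous (φ : D →ₗ[ℚ] (D →ₗ[ℚ] D)) : Continuous (matR b φ) := by
  apply continuous_matrix
  intro p q
  exact (matR_contDiff b φ p q).continuous

theorem nrm_eq (x : Fin N → ℝ) : nrm b x = (matR b (LinearMap.mul ℚ D).flip x).det := by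
  rfl

theorem det_map_toMatrix (f : D →ₗ[ℚ] D) :
    ((LinearMap.toMatrix b b f).map (algebraMap ℚ ℝ)).det = ((LinearMap.det f : ℚ) : ℝ) := by
  rw [← LinearMap.det_toMatrix b f]
  have := (RingHom.map_det (algebraMap ℚ ℝ) (LinearMap.toMatrix b b f)).symm
  exact this

theorem nrm_vec (y : D) : nrm b (vec b y) = ((LinearMap.det (LinearMap.mulRight ℚ y) : ℚ) : ℝ) := by
  rw [nrm_eq, matR_vec, det_map_toMatrix]
  rfl

theorem actM_one : actM b 1 = 1 := by
  unfold actM
  rw [LinearMap.mulLeft_one, LinearMap.toMatrix_id]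
  exact Matrix.map_one _ (map_zero _) (map_one _)

theorem actM_mul (x y : D) : actM b (x * y) = actM b x * actM b y := by
  unfold actM
  rw [LinearMap.mulLeft_mul, LinearMap.toMatrix_comp b b b, Matrix.map_mul]

theorem actM_vec (a y : D) : (actM b a).mulVec (vec b y) = vec b (a * y) := by
  funext i
  have h1 := congrFun (LinearMap.toMatrix_mulVec_repr b b (LinearMap.mulLeft ℚ a) y) i
  rw [LinearMap.mulLeft_apply] at h1
  unfold vec actM
  rw [← h1]
  simp only [Matrix.mulVec, dotProduct, Matrix.map_apply]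
  push_cast
  rfl

theorem matR_actM (a : D) (x : Fin N → ℝ) :
    matR b (LinearMap.mul ℚ D).flip ((actM b a).mulVec x) =
      matR b (LinearMap.mul ℚ D).flip x *
        (LinearMap.toMatrix b b (LinearMap.mulRight ℚ a)).map (algebraMap ℚ ℝ) := by
  have h : (fun x => matR b (LinearMap.mul ℚ D).flip ((actM b a).mulVec x)) =
      fun x => matR b (LinearMap.mul ℚ D).flip x *
        (LinearMap.toMatrix b b (LinearMap.mulRight ℚ a)).map (algebraMap ℚ ℝ) := by
    apply (dense_vec b).equalizer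
    · exact (matR_continuous b _).comp (Continuous.matrix_mulVec continuous_const continuous_id)
    · exact (matR_continuous b _).matrix_mul continuous_const
    · funext y
      simp only [Function.comp]
      rw [actM_vec, matR_vec, matR_vec, ← Matrix.map_mul]
      congr 1
      rw [← LinearMap.toMatrix_comp b b b]
      congr 1
      ext z
      simp [mul_assoc]
  exact congrFun h x

theorem nrm_actM (a : D) (x : Fin N → ℝ) : nrm b ((actM b a).mulVec x) =
    ((LinearMap.det (LinearMap.mulRight ℚ a) : ℚ) : ℝ) * nrm b x := by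
  rw [nrm_eq, matR_actM, Matrix.det_mul, det_map_toMatrix, nrm_eq, mul_comm]

theorem nrm_smul (t : ℝ) (x : Fin N → ℝ) : nrm b (t • x) = t ^ N * nrm b x := by
  rw [nrm_eq, matR_smul, Matrix.det_smul, Fintype.card_fin, nrm_eq]

theorem nrm_contDiff : ContDiff ℝ ∞ (nrm b) := by
  have h2 : nrm b = fun x => (matR b (LinearMap.mul ℚ D).flip x).det := funext (nrm_eq b)
  rw [h2]
  exact matR_det_contDiff b (LinearMap.mul ℚ D).flip

theorem nrm_eq_left (h : ∀ a : D, LinearMap.det (LinearMap.mulLeft ℚ a) =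
    LinearMap.det (LinearMap.mulRight ℚ a)) (x : Fin N → ℝ) :
    nrm b x = Matrix.det (∑ i, x i • (LinearMap.toMatrix b b (LinearMap.mulLeft ℚ (b i))).map
      (algebraMap ℚ ℝ)) := by
  have h1 : nrm b = fun x => (matR b (LinearMap.mul ℚ D) x).det := by
    apply (dense_vec b).equalizer
    · exact (nrm_contDiff b).continuous
    · exact (matR_det_contDiff b (LinearMap.mul ℚ D)).continuous
    · funext y
      simp only [Function.comp]
      rw [nrm_vec, matR_vec, det_map_toMatrix, ← h y]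
      rfl
  rw [h1]
  rfl

end Basic

end Pool.Agent.Helper8.Hey
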