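import Mathlib

set_option autoImplicit false

/-! HY-14 -/

open Module
open scoped TensorProduct ContDiff

namespace Pool.Agent.Helper8.Hey

theorem exists_bump {N : ℕ} (hN : 0 < N) (P : (Fin N → ℝ) → ℝ) (hP : ContDiff ℝ ∞ P)
    (hom : ∀ (t : ℝ) (x : Fin N → ℝ), P (t • x) = t ^ N * P x)
    (w : (Fin N → ℝ) → ℝ) (hw : ContDiffOn ℝ ∞ w {x | P x ≠ 0})
    (hws : ∀ (t : ℝ) (x : Fin N → ℝ), 0 < t → w (t • x) = w x)
    (hwK : ∃ K : Set (Fin N → ℝ), IsCompact K ∧ (∀ x ∈ K, P x ≠ 0) ∧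
        ∀ x, |P x| = 1 → w x ≠ 0 → x ∈ K)
    (Φ : ℝ → ℝ) (hΦ : ContDiff ℝ ∞ Φ) (hΦc : HasCompactSupport Φ)
    (hΦs : tsupport Φ ⊆ Set.Ioi 0) (c : ℝ) (hc : 0 < c) :
    ContDiff ℝ ∞ (fun x => if P x = 0 then 0 else w x * Φ (c * |P x|)) ∧
      HasCompactSupport (fun x => if P x = 0 then 0 else w x * Φ (c * |P x|)) := by
  have hPc : Continuous P := hP.continuous
  have hU : IsOpen {x | P x ≠ 0} := isOpen_ne_fun hPc continuous_const
  constructor
  · rw [contDiff_iff_contDiffAt]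
    intro x
    by_cases hx : P x = 0
    · -- zero near x
      have h0 : (0 : ℝ) ∉ tsupport Φ := fun h => lt_irrefl (0 : ℝ) (Set.mem_Ioi.mp (hΦs h))
      have hev : ∀ᶠ y in nhds x, c * |P y| ∉ tsupport Φ := by
        have hcont : ContinuousAt (fun y => c * |P y|) x := by fun_prop
        have hop : (tsupport Φ)ᶜ ∈ nhds (c * |P x|) := by
          rw [hx, abs_zero, mul_zero]
          exact (isClosed_tsupport Φ).isOpen_compl.mem_nhds h0
        exact hcont hop
      have hzero : (fun x => if P x = 0 then 0 else w x * Φ (c * |P x|)) =ᶠ[nhds x]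
          fun _ => (0 : ℝ) := by
        filter_upwards [hev] with y hy
        rw [image_eq_zero_of_notMem_tsupport hy]
        simp
      exact contDiffAt_const.congr_of_eventuallyEq hzero
    · have h1 : (fun x => if P x = 0 then 0 else w x * Φ (c * |P x|)) =ᶠ[nhds x]
          fun x => w x * Φ (c * |P x|) := by
        filter_upwards [hU.mem_nhds hx] with y hy
        rw [if_neg hy]
      refine ContDiffAt.congr_of_eventuallyEq ?_ h1
      have h2 : ContDiffAt ℝ ∞ w x := hw.contDiffAt (hU.mem_nhds hx)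
      have h3 : ContDiffAt ℝ ∞ (fun y => |P y|) x :=
        (contDiffAt_abs hx).comp x hP.contDiffAt
      exact h2.mul (hΦ.contDiffAt.comp x (contDiffAt_const.mul h3))
  · obtain ⟨K, hK, -, hKw⟩ := hwK
    obtain ⟨B, hB⟩ := hΦc.isCompact.bddAbove
    have hcomp : IsCompact ((fun q : ℝ × (Fin N → ℝ) => q.1 • q.2) ''
        (Set.Icc 0 ((c⁻¹ * B) ^ ((1 : ℝ) / N)) ×ˢ K)) :=
      (isCompact_Icc.prod hK).image (by fun_prop)
    refine HasCompactSupport.intro hcomp fun x hx => ?_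
    by_contra hne
    apply hx
    have hPx : P x ≠ 0 := by
      intro h; rw [if_pos h] at hne; exact hne rfl
    rw [if_neg hPx] at hne
    have hwx : w x ≠ 0 := left_ne_zero_of_mul hne
    have hΦx : Φ (c * |P x|) ≠ 0 := right_ne_zero_of_mul hne
    have hmem : c * |P x| ∈ tsupport Φ := subset_tsupport _ hΦx
    have hle : c * |P x| ≤ B := hB hmem
    have habs : 0 < |P x| := abs_pos.mpr hPx
    set s : ℝ := |P x| ^ ((1 : ℝ) / N) with hs
    have hs0 : 0 < s := Real.rpow_pos_of_pos habs _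
    have hsN : s ^ N = |P x| := by
      rw [hs, ← Real.rpow_natCast, ← Real.rpow_mul habs.le]
      have : (1 : ℝ) / N * N = 1 := by
        field_simp
      rw [this, Real.rpow_one]
    refine ⟨(s, s⁻¹ • x), ⟨⟨hs0.le, ?_⟩, ?_⟩, ?_⟩
    · show |P x| ^ ((1 : ℝ) / N) ≤ (c⁻¹ * B) ^ ((1 : ℝ) / N)
      refine Real.rpow_le_rpow habs.le ?_ (by positivity)
      rw [le_inv_mul_iff₀ hc]
      exact hle
    · refine hKw _ ?_ ?_
      · rw [hom, abs_mul, abs_of_pos (by positivity : 0 < s⁻¹ ^ N), inv_pow, hsN,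
          inv_mul_cancel₀ habs.ne']
      · rw [hws _ _ (inv_pos.mpr hs0)]
        exact hwx
    · show s • s⁻¹ • x = x
      rw [smul_smul, mul_inv_cancel₀ hs0.ne', one_smul]

end Pool.Agent.Helper8.Hey
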