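import Pool.Agent.Helper8.Hey.Defs
import Pool.Agent.Helper8.Hey.Lat

set_option autoImplicit false

/-! HY-9 -/

open Module
open scoped TensorProduct ContDiff

namespace Pool.Agent.Helper8.Hey

theorem relIndex_map {D : Type} [AddCommGroup D] [Module ℚ D] {N : ℕ} (Λ A : AddSubgroup D)
    (b : Basis (Fin N) ℚ D) (hb : ∀ x : D, x ∈ Λ ↔ ∀ i, ∃ k : ℤ, b.repr x i = k) (hA : A ≤ Λ)
    (hfin : A.relIndex Λ ≠ 0) (φ : D →ₗ[ℚ] D) (hφ : LinearMap.det φ ≠ 0)
    (hle : A.map φ.toAddMonoidHom ≤ Λ) :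
    ((A.map φ.toAddMonoidHom).relIndex Λ : ℚ) = A.relIndex Λ * |LinearMap.det φ| := by
  classical
  have hΛ : Λ = AddSubgroup.closure (Set.range b) := by
    ext x
    rw [hb, lat_mem_closure_iff]
  have hΛfg : Λ.FG := by
    rw [hΛ]
    exact ⟨(Set.finite_range b).toFinset, by rw [Set.Finite.coe_toFinset]⟩
  have hspanΛ : ∀ x : D, ∃ k : ℕ, k ≠ 0 ∧ k • x ∈ Λ := by
    intro x
    refine ⟨∏ i, (b.repr x i).den, Finset.prod_ne_zero_iff.2 fun i _ => (b.repr x i).den_nz, ?_⟩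
    rw [hb]
    intro i
    refine ⟨(∏ j ∈ Finset.univ.erase i, ((b.repr x j).den : ℤ)) * (b.repr x i).num, ?_⟩
    rw [map_nsmul, Finsupp.smul_apply, ← Finset.mul_prod_erase _ _ (Finset.mem_univ i)]
    have h1 : ((b.repr x i).den : ℚ) * b.repr x i = (b.repr x i).num := Rat.den_mul_eq_num _
    rw [nsmul_eq_mul]
    push_cast
    rw [mul_comm ((b.repr x i).den : ℚ), mul_assoc, h1]
  obtain ⟨r, a, ha⟩ := lat_exists_basis D A (lat_fg_of_le hΛfg hA) (fun x => by
    obtain ⟨k, hk, h⟩ := hspanΛ x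
    refine ⟨A.relIndex Λ * k, mul_ne_zero hfin hk, ?_⟩
    rw [mul_smul]
    exact lat_index_mul_mem h)
  have hr : r = N := by
    rw [← Fintype.card_fin r, ← Module.finrank_eq_card_basis a, Module.finrank_eq_card_basis b,
      Fintype.card_fin]
  subst hr
  have hdet : IsUnit (LinearMap.det φ) := hφ.isUnit
  let e : D ≃ₗ[ℚ] D := LinearEquiv.ofIsUnitDet (f := φ) (v := b) (v' := b) (by
    rw [LinearMap.det_toMatrix]; exact hdet)
  have he : ∀ x, e x = φ x := fun x => rfl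
  have hc : A.map φ.toAddMonoidHom = AddSubgroup.closure (Set.range (a.map e)) := by
    rw [ha, AddMonoidHom.map_closure, ← Set.range_comp]
    rfl
  have h1 := AddSubgroup.relIndex_eq_abs_det _ Λ hle (a.map e) b hc hΛ
  have h2 := AddSubgroup.relIndex_eq_abs_det A Λ hA a b ha hΛ
  rw [h1, h2, ← abs_mul]
  congr 1
  have h3 : (⇑(a.map e) : Fin r → D) = φ ∘ a := by
    funext i
    rw [Basis.map_apply, he]
    rfl
  rw [h3, Basis.det_comp, mul_comm]

end Pool.Agent.Helper8.Hey
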