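import Pool.Agent.Helper8.Hey.Lat
import Pool.Agent.Helper8.Hey.Index
import Pool.Agent.Helper8.Hey.Basic

set_option autoImplicit false

/-! HY-10 -/

open Module
open scoped TensorProduct ContDiff

namespace Pool.Agent.Helper8.Hey

/-- finitely many subgroups between `K Λ` and `Λ` -/
theorem cl_between {D : Type} [AddCommGroup D] (Λ : AddSubgroup D) (hfg : Λ.FG) (K : ℕ)
    (hK : K ≠ 0) : {I : AddSubgroup D | I ≤ Λ ∧ ∀ x ∈ Λ, K • x ∈ I}.Finite := by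
  classical
  have hfg' : AddGroup.FG Λ := (AddGroup.fg_iff_addSubgroup_fg Λ).2 hfg
  let μ : Λ →+ Λ := nsmulAddMonoidHom K
  have hmod : Module.Finite ℤ Λ := Module.Finite.iff_addGroup_fg.2 hfg'
  have hfin : Finite (Λ ⧸ μ.range) := by
    have h1 : AddGroup.FG (Λ ⧸ μ.range) := QuotientAddGroup.fg μ.range
    have h2 : Module.Finite ℤ (Λ ⧸ μ.range) := Module.Finite.iff_addGroup_fg.2 h1
    refine Module.finite_of_fg_torsion _ ?_
    intro q
    induction q using QuotientAddGroup.induction_on with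
    | H x =>
      refine ⟨⟨(K : ℤ), by simpa using hK⟩, ?_⟩
      show (K : ℤ) • ((x : Λ) : Λ ⧸ μ.range) = 0
      rw [natCast_zsmul, ← QuotientAddGroup.mk_nsmul, QuotientAddGroup.eq_zero_iff]
      exact ⟨x, rfl⟩
  let t : (Λ ⧸ μ.range) → D := fun q => (q.out : Λ)
  have hrep : ∀ x ∈ Λ, ∃ q, ∃ y ∈ Λ, x = t q + K • y := by
    intro x hx
    refine ⟨((⟨x, hx⟩ : Λ) : Λ ⧸ μ.range), ?_⟩
    have h1 : ((((⟨x, hx⟩ : Λ) : Λ ⧸ μ.range).out : Λ) : Λ ⧸ μ.range) =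
        ((⟨x, hx⟩ : Λ) : Λ ⧸ μ.range) := Quotient.out_eq' _
    rw [QuotientAddGroup.eq] at h1
    obtain ⟨y, hy⟩ := h1
    refine ⟨y, y.2, ?_⟩
    have h2 : ((K • y : Λ) : D) = -(t ((⟨x, hx⟩ : Λ) : Λ ⧸ μ.range)) + x := by
      have := congrArg (Subtype.val) hy
      exact this
    have h3 : ((K • y : Λ) : D) = K • (y : D) := rfl
    rw [← h3, h2]
    abel
  have htΛ : ∀ q, t q ∈ Λ := fun q => (q.out : Λ).2
  refine Set.Finite.of_injOn (f := fun I : AddSubgroup D => {q | t q ∈ I})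
    (t := (Set.univ : Set (Set (Λ ⧸ μ.range)))) (fun _ _ => Set.mem_univ _) ?_ Set.finite_univ
  intro I hI I' hI' h
  have h' : {q | t q ∈ I} = {q | t q ∈ I'} := h
  have key : ∀ J J' : AddSubgroup D, (J ≤ Λ ∧ ∀ x ∈ Λ, K • x ∈ J) →
      (J' ≤ Λ ∧ ∀ x ∈ Λ, K • x ∈ J') → {q | t q ∈ J} = {q | t q ∈ J'} → J ≤ J' := by
    intro J J' hJ hJ' hE x hx
    obtain ⟨q, y, hy, e⟩ := hrep x (hJ.1 hx)
    have h1 : t q ∈ J := by
      have : t q = x - K • y := by rw [e]; abel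
      rw [this]
      exact J.sub_mem hx (hJ.2 y hy)
    have h2 : q ∈ {q | t q ∈ J'} := by rw [← hE]; exact h1
    rw [e]
    exact J'.add_mem h2 (hJ'.2 y hy)
  exact le_antisymm (key I I' hI hI' h') (key I' I hI' hI h'.symm)

theorem finite_relIndex {D : Type} [Ring D] [Algebra ℚ D] [FiniteDimensional ℚ D]
    (Λ : Subring D) (hΛ : IsOrder Λ) (M : ℕ) :
    {I : AddSubgroup D | IsLeftIdeal Λ I ∧ I.relIndex Λ.toAddSubgroup ≤ M}.Finite := by
  refine (cl_between Λ.toAddSubgroup hΛ.fg M.factorial M.factorial_ne_zero).subset ?_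
  rintro I ⟨hI, hM⟩
  refine ⟨hI.le, fun x hx => ?_⟩
  have h1 := AddSubgroup.nsmul_mem_of_relIndex_ne_zero_of_dvd hI.fin hx (n := M.factorial)
    (fun m h0 h1 => Nat.dvd_factorial h0 (h1.trans hM))
  exact h1.1

/-- short vectors have small norm -/
private theorem cl_bound {D : Type} [Ring D] [Algebra ℚ D] {N : ℕ} (b : Basis (Fin N) ℚ D) :
    ∃ C : ℝ, 0 ≤ C ∧ ∀ (x : D) (r : ℕ), 0 < r → (∀ i, |(b.repr x i : ℝ)| ≤ r) →
      |((LinearMap.det (LinearMap.mulRight ℚ x) : ℚ) : ℝ)| ≤ C * (r : ℝ) ^ N := by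
  have hcont : Continuous (nrm b) := (nrm_contDiff b).continuous
  have hcpt : IsCompact (Set.Icc (fun _ : Fin N => (-1 : ℝ)) (fun _ => 1)) := isCompact_Icc
  obtain ⟨C, hC⟩ := hcpt.exists_bound_of_continuousOn hcont.continuousOn
  refine ⟨max C 0, le_max_right _ _, ?_⟩
  intro x r hr hx
  have hr' : (0 : ℝ) < r := by exact_mod_cast hr
  have h1 : vec b x = (r : ℝ) • ((r : ℝ)⁻¹ • vec b x) := by
    rw [smul_smul, mul_inv_cancel₀ hr'.ne', one_smul]
  have h2 : (r : ℝ)⁻¹ • vec b x ∈ Set.Icc (fun _ : Fin N => (-1 : ℝ)) (fun _ => 1) := by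
    rw [Set.mem_Icc, Pi.le_def, Pi.le_def]
    have h3 : ∀ i, |((r : ℝ)⁻¹ • vec b x) i| ≤ 1 := by
      intro i
      show |(r : ℝ)⁻¹ * (b.repr x i : ℝ)| ≤ 1
      rw [abs_mul, abs_inv, abs_of_pos hr', inv_mul_le_iff₀ hr', mul_one]
      exact hx i
    exact ⟨fun i => (abs_le.1 (h3 i)).1, fun i => (abs_le.1 (h3 i)).2⟩
  rw [← nrm_vec b x, h1, nrm_smul, abs_mul, abs_of_pos (pow_pos hr' N), mul_comm]
  refine mul_le_mul_of_nonneg_right ?_ (pow_pos hr' N).le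
  exact (hC _ h2).trans (le_max_left _ _)

theorem cl_det_ne {D : Type} [DivisionRing D] [Algebra ℚ D] [FiniteDimensional ℚ D]
    (x : D) (hx : x ≠ 0) : LinearMap.det (LinearMap.mulRight ℚ x) ≠ 0 := by
  have h1 : LinearMap.mulRight ℚ x * LinearMap.mulRight ℚ x⁻¹ = 1 := by
    ext y
    simp [hx]
  have h2 := congrArg LinearMap.det h1
  rw [map_mul, map_one] at h2
  exact left_ne_zero_of_mul_eq_one h2

/-- every left ideal is a translate of one between `K Λ` and `Λ` -/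
private theorem cl_reduce (D : Type) [DivisionRing D] [Algebra ℚ D] [FiniteDimensional ℚ D]
    (Λ : Subring D) (hΛ : IsOrder Λ) :
    ∃ K : ℕ, K ≠ 0 ∧ ∀ I, IsLeftIdeal Λ I → ∃ J, IsLeftIdeal Λ J ∧
      (∀ z ∈ Λ, K • z ∈ J) ∧ ∃ y : D, y ≠ 0 ∧ I = rt J y := by
  classical
  have hlat := exists_latBasis D Λ.toAddSubgroup hΛ.fg hΛ.span
  have hNpos : 0 < finrank ℚ D := finrank_pos
  generalize finrank ℚ D = N at hlat hNpos
  obtain ⟨b, hb⟩ := hlat
  obtain ⟨C, hC0, hC⟩ := cl_bound b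
  refine ⟨(⌊C⌋₊).factorial, Nat.factorial_ne_zero _, ?_⟩
  intro I hI
  set M := I.relIndex Λ.toAddSubgroup with hM
  have hM0 : M ≠ 0 := hI.fin
  -- r
  obtain ⟨r, hr0, hr1, hr2⟩ : ∃ r : ℕ, 0 < r ∧ r ^ N ≤ M ∧ M < (r + 1) ^ N := by
    have hex : ∃ r : ℕ, M < (r + 1) ^ N := ⟨M, lt_of_lt_of_le (Nat.lt_succ_self M)
      (Nat.le_self_pow hNpos.ne' _)⟩
    refine ⟨Nat.find hex, ?_, ?_, Nat.find_spec hex⟩
    · rw [Nat.pos_iff_ne_zero]
      intro h0
      have := Nat.find_spec hex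
      rw [h0] at this
      simp at this
      exact hM0 this
    · by_contra hcon
      push Not at hcon
      have hpos : Nat.find hex ≠ 0 := by
        intro h0
        rw [h0, zero_pow hNpos.ne'] at hcon
        exact absurd hcon (by omega)
      have h1 := Nat.find_min hex (m := Nat.find hex - 1) (by omega)
      apply h1
      rwa [Nat.sub_add_cancel (Nat.one_le_iff_ne_zero.2 hpos)]
  -- pigeonhole
  have hrepr : ∀ (f : Fin N → Fin (r + 1)) (i : Fin N),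
      b.repr (∑ i, ((f i : ℕ) : ℚ) • b i) i = ((f i : ℕ) : ℚ) := by
    intro f i
    rw [b.repr_sum_self]
  have hmemΛ : ∀ f : Fin N → Fin (r + 1), ∑ i, ((f i : ℕ) : ℚ) • b i ∈ Λ.toAddSubgroup := by
    intro f
    rw [hb]
    intro i
    refine ⟨((f i : ℕ) : ℤ), ?_⟩
    rw [hrepr]
    push_cast
    rfl
  have hfi : (I.addSubgroupOf Λ.toAddSubgroup).FiniteIndex := AddSubgroup.finiteIndex_iff.2 hM0
  have hfinq : Finite (Λ.toAddSubgroup ⧸ I.addSubgroupOf Λ.toAddSubgroup) :=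
    AddSubgroup.finite_quotient_of_finiteIndex
  have hft : Fintype (Λ.toAddSubgroup ⧸ I.addSubgroupOf Λ.toAddSubgroup) := Fintype.ofFinite _
  have hcard : Fintype.card (Λ.toAddSubgroup ⧸ I.addSubgroupOf Λ.toAddSubgroup) = M := by
    rw [← Nat.card_eq_fintype_card]
    rfl
  obtain ⟨f, g, hfg, hEq⟩ := Fintype.exists_ne_map_eq_of_card_lt
    (fun f : Fin N → Fin (r + 1) => ((⟨_, hmemΛ f⟩ : Λ.toAddSubgroup) :
      Λ.toAddSubgroup ⧸ I.addSubgroupOf Λ.toAddSubgroup)) (by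
        rw [hcard, Fintype.card_fun, Fintype.card_fin, Fintype.card_fin]
        exact hr2)
  rw [QuotientAddGroup.eq, AddSubgroup.mem_addSubgroupOf] at hEq
  obtain ⟨x, hxdef⟩ : ∃ x : D, x = -(∑ i, ((f i : ℕ) : ℚ) • b i) + ∑ i, ((g i : ℕ) : ℚ) • b i :=
    ⟨_, rfl⟩
  have hxI : x ∈ I := by rw [hxdef]; exact hEq
  have hxrepr : ∀ i, b.repr x i = -((f i : ℕ) : ℚ) + ((g i : ℕ) : ℚ) := by
    intro i
    rw [hxdef, map_add, map_neg, Finsupp.add_apply, Finsupp.neg_apply, hrepr, hrepr]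
  have hx0 : x ≠ 0 := by
    rintro rfl
    apply hfg
    funext i
    have h1 := hxrepr i
    rw [map_zero, Finsupp.zero_apply] at h1
    have h2 : ((f i : ℕ) : ℚ) = ((g i : ℕ) : ℚ) := by linarith
    exact Fin.ext (by exact_mod_cast h2)
  have hxbd : ∀ i, |(b.repr x i : ℝ)| ≤ r := by
    intro i
    rw [hxrepr]
    push_cast
    have h1 : ((f i : ℕ) : ℝ) ≤ r := by
      have := (f i).2
      exact_mod_cast Nat.lt_succ_iff.1 this
    have h2 : ((g i : ℕ) : ℝ) ≤ r := by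
      have := (g i).2
      exact_mod_cast Nat.lt_succ_iff.1 this
    have h3 : (0 : ℝ) ≤ ((f i : ℕ) : ℝ) := Nat.cast_nonneg _
    have h4 : (0 : ℝ) ≤ ((g i : ℕ) : ℝ) := Nat.cast_nonneg _
    rw [abs_le]
    constructor <;> linarith
  have hdet := hC x r hr0 hxbd
  have hdet0 := cl_det_ne x hx0
  -- the subgroup Λ x
  set A : AddSubgroup D := Λ.toAddSubgroup.map (LinearMap.mulRight ℚ x).toAddMonoidHom with hA
  have hmemA : ∀ z, z ∈ A ↔ ∃ y ∈ Λ, y * x = z := by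
    intro z
    rw [hA, AddSubgroup.mem_map]
    rfl
  have hAI : A ≤ I := by
    intro z hz
    obtain ⟨y, hy, rfl⟩ := (hmemA z).1 hz
    exact hI.mul y hy x hxI
  have hAidx := relIndex_map Λ.toAddSubgroup Λ.toAddSubgroup b hb le_rfl
    (by rw [AddSubgroup.relIndex_self]; exact one_ne_zero) (LinearMap.mulRight ℚ x) hdet0
    (hAI.trans hI.le)
  rw [AddSubgroup.relIndex_self, Nat.cast_one, one_mul, ← hA] at hAidx
  have hmul := AddSubgroup.relIndex_mul_relIndex A I Λ.toAddSubgroup hAI hI.le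
  have hAI0 : A.relIndex I ≠ 0 := by
    intro h0
    rw [h0, zero_mul] at hmul
    rw [← hmul, Nat.cast_zero] at hAidx
    exact (abs_pos.2 hdet0).ne hAidx
  have hAIle : A.relIndex I ≤ ⌊C⌋₊ := by
    apply Nat.le_floor
    have h1 : ((A.relIndex I : ℕ) : ℝ) * M = |((LinearMap.det (LinearMap.mulRight ℚ x) : ℚ) : ℝ)| := by
      have h2 : ((A.relIndex I : ℕ) : ℚ) * M = |LinearMap.det (LinearMap.mulRight ℚ x)| := by
        rw [← hAidx, ← hmul]
        push_cast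
        rfl
      have h3 := congrArg (fun q : ℚ => (q : ℝ)) h2
      simpa using h3
    have h4 : ((A.relIndex I : ℕ) : ℝ) * M ≤ C * M := by
      rw [h1]
      refine hdet.trans (mul_le_mul_of_nonneg_left ?_ hC0)
      exact_mod_cast hr1
    have hMpos : (0 : ℝ) < M := by
      have := Nat.pos_of_ne_zero hM0
      exact_mod_cast this
    exact le_of_mul_le_mul_right h4 hMpos
  have hKA : ∀ y ∈ I, (⌊C⌋₊).factorial • y ∈ A := by
    intro y hy
    exact (AddSubgroup.nsmul_mem_of_relIndex_ne_zero_of_dvd hAI0 hy (n := (⌊C⌋₊).factorial)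
      (fun m h0 h1 => Nat.dvd_factorial h0 (h1.trans hAIle))).1
  set K := (⌊C⌋₊).factorial with hKdef
  have hK0 : K ≠ 0 := Nat.factorial_ne_zero _
  have hchar : CharZero D := algebraRat.charZero D
  have hKD : (K : D) ≠ 0 := by exact_mod_cast hK0
  have hu0 : x⁻¹ * (K : D) ≠ 0 := mul_ne_zero (inv_ne_zero hx0) hKD
  have hcomm : ∀ z : D, z * (K : D) = K • z := fun z => by
    rw [nsmul_eq_mul, Nat.cast_comm]
  have hJle : rt I (x⁻¹ * (K : D)) ≤ Λ.toAddSubgroup := by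
    intro z hz
    obtain ⟨y, hy, rfl⟩ := (mem_rt I _ z).1 hz
    obtain ⟨a, ha, he⟩ := (hmemA _).1 (hKA y hy)
    have h1 : y * (x⁻¹ * (K : D)) = a := by
      rw [← mul_assoc, hcomm, ← smul_mul_assoc, ← he, mul_assoc, mul_inv_cancel₀ hx0, mul_one]
    rw [h1]
    exact ha
  refine ⟨rt I (x⁻¹ * (K : D)), ⟨hJle, ?_, ?_⟩, ?_, (x⁻¹ * (K : D))⁻¹, inv_ne_zero hu0, ?_⟩
  · intro a ha z hz
    obtain ⟨y, hy, rfl⟩ := (mem_rt I _ z).1 hz
    exact (mem_rt I _ _).2 ⟨a * y, hI.mul a ha y hy, mul_assoc _ _ _⟩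
  · have h1 := relIndex_map Λ.toAddSubgroup I b hb hI.le hM0 (LinearMap.mulRight ℚ (x⁻¹ * (K : D)))
      (cl_det_ne _ hu0) hJle
    have h2 : ((I.map (LinearMap.mulRight ℚ (x⁻¹ * (K : D))).toAddMonoidHom).relIndex
        Λ.toAddSubgroup : ℚ) ≠ 0 := by
      rw [h1]
      exact mul_ne_zero (by exact_mod_cast hM0) (abs_pos.2 (cl_det_ne _ hu0)).ne'
    exact_mod_cast h2
  · intro z hz
    refine (mem_rt I _ _).2 ⟨z * x, hI.mul z hz x hxI, ?_⟩
    rw [mul_assoc, mul_inv_cancel_left₀ hx0, hcomm]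
  · rw [rt_rt, mul_inv_cancel₀ hu0, rt_one]

theorem finite_classes (D : Type) [DivisionRing D] [Algebra ℚ D] [FiniteDimensional ℚ D]
    (Λ : Subring D) (hΛ : IsOrder Λ) :
    ∃ R : Set (AddSubgroup D), R.Finite ∧ (∀ J ∈ R, IsLeftIdeal Λ J) ∧
      ∀ I, IsLeftIdeal Λ I → ∃! J, J ∈ R ∧ ∃ y : D, y ≠ 0 ∧ I = rt J y := by
  classical
  obtain ⟨K, hK, hred⟩ := cl_reduce D Λ hΛ
  let F : Set (AddSubgroup D) := {J | IsLeftIdeal Λ J ∧ ∀ z ∈ Λ, K • z ∈ J}
  have hF : F.Finite := (cl_between Λ.toAddSubgroup hΛ.fg K hK).subset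
    fun J hJ => ⟨hJ.1.le, hJ.2⟩
  let cl : AddSubgroup D → Set (AddSubgroup D) := fun I => {J | J ∈ F ∧ ∃ y : D, y ≠ 0 ∧ I = rt J y}
  have hcl : ∀ I, IsLeftIdeal Λ I → (cl I).Nonempty := by
    intro I hI
    obtain ⟨J, h1, h2, h3⟩ := hred I hI
    exact ⟨J, ⟨h1, h2⟩, h3⟩
  let rep : Set (AddSubgroup D) → AddSubgroup D := fun S => if h : S.Nonempty then h.choose else ⊥
  have hrep : ∀ S : Set (AddSubgroup D), S.Nonempty → rep S ∈ S := by
    intro S h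
    show (if h : S.Nonempty then h.choose else ⊥) ∈ S
    rw [dif_pos h]
    exact h.choose_spec
  have hinv : ∀ I J : AddSubgroup D, ∀ y : D, y ≠ 0 → I = rt J y → J = rt I y⁻¹ := by
    intro I J y hy h
    rw [h, rt_rt, mul_inv_cancel₀ hy, rt_one]
  have hclass : ∀ I I' : AddSubgroup D, ∀ y : D, y ≠ 0 → I = rt I' y → cl I = cl I' := by
    have key : ∀ I I' : AddSubgroup D, ∀ y : D, y ≠ 0 → I = rt I' y → cl I ⊆ cl I' := by
      rintro I I' y hy h J ⟨hJF, z, hz, hJ⟩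
      refine ⟨hJF, z * y⁻¹, mul_ne_zero hz (inv_ne_zero hy), ?_⟩
      rw [← rt_rt, ← hJ]
      exact hinv I I' y hy h
    intro I I' y hy h
    exact Set.Subset.antisymm (key I I' y hy h)
      (key I' I y⁻¹ (inv_ne_zero hy) (hinv I I' y hy h))
  refine ⟨{J | ∃ I, IsLeftIdeal Λ I ∧ J = rep (cl I)}, ?_, ?_, ?_⟩
  · refine hF.subset ?_
    rintro J ⟨I, hI, rfl⟩
    exact (hrep _ (hcl I hI)).1
  · rintro J ⟨I, hI, rfl⟩
    exact (hrep _ (hcl I hI)).1.1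
  · intro I hI
    refine ⟨rep (cl I), ⟨⟨I, hI, rfl⟩, (hrep _ (hcl I hI)).2⟩, ?_⟩
    rintro J ⟨⟨I', hI', rfl⟩, y, hy, h⟩
    obtain ⟨y', hy', h'⟩ := (hrep _ (hcl I' hI')).2
    have h1 : cl I = cl (rep (cl I')) := hclass _ _ y hy h
    have h2 : cl I' = cl (rep (cl I')) := hclass _ _ y' hy' h'
    rw [h1, ← h2]

end Pool.Agent.Helper8.Hey
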