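import Pool.Agent.Helper8.Hey.Lat
import Pool.Agent.Helper8.Hey.Index
import Pool.Agent.Helper8.Hey.Basic

set_option autoImplicit false

/-! HY-12 -/

open Module
open scoped TensorProduct ContDiff

namespace Pool.Agent.Helper8.Hey

section ProperAux

variable {D : Type} [Ring D] [Algebra ℚ D] {N : ℕ} (b : Basis (Fin N) ℚ D)

/-- the matrix of right multiplication by the real point `x` -/
private noncomputable def properR (x : Fin N → ℝ) : Matrix (Fin N) (Fin N) ℝ :=
  ∑ i, x i • (LinearMap.toMatrix b b (LinearMap.mulRight ℚ (b i))).map (algebraMap ℚ ℝ)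

private theorem properR_det (x : Fin N → ℝ) : (properR b x).det = nrm b x := rfl

private theorem properR_mulVec (a : D) (x : Fin N → ℝ) :
    (properR b x).mulVec (vec b a) = (actM b a).mulVec x := by
  ext i
  have h1 : ∀ j : Fin N, ∑ k, (LinearMap.toMatrix b b (LinearMap.mulRight ℚ (b j))) i k *
      b.repr a k = (LinearMap.toMatrix b b (LinearMap.mulLeft ℚ a)) i j := by
    intro j
    have h2 := congrFun (LinearMap.toMatrix_mulVec_repr b b (LinearMap.mulRight ℚ (b j)) a) i
    rw [LinearMap.toMatrix_apply b b (LinearMap.mulLeft ℚ a)]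
    rw [Matrix.mulVec, dotProduct] at h2
    rw [h2]
    rfl
  simp only [properR, Matrix.mulVec, dotProduct, actM, vec, Matrix.map_apply, Matrix.sum_apply,
    Matrix.smul_apply, smul_eq_mul, Finset.sum_mul]
  rw [Finset.sum_comm]
  refine Finset.sum_congr rfl (fun j _ => ?_)
  rw [← h1 j, map_sum, Finset.sum_mul]
  refine Finset.sum_congr rfl (fun k _ => ?_)
  rw [map_mul]
  have : (algebraMap ℚ ℝ) (b.repr a k) = ((b.repr a k : ℚ) : ℝ) := rfl
  rw [this]
  ring

private theorem properR_cont : Continuous (properR b) := by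
  unfold properR
  refine continuous_finsetSum _ (fun i _ => ?_)
  exact (continuous_apply i).smul continuous_const

end ProperAux

theorem proper (D : Type) [DivisionRing D] [Algebra ℚ D] [FiniteDimensional ℚ D]
    (Λ : Subring D) (hΛ : IsOrder Λ) (J : AddSubgroup D) (hJ : IsLeftIdeal Λ J) {N : ℕ}
    (b : Basis (Fin N) ℚ D) (K : Set (Fin N → ℝ)) (hK : IsCompact K)
    (h0 : ∀ x ∈ K, nrm b x ≠ 0) :
    {u : Dˣ | u ∈ stab J ∧ ∃ x ∈ K, (actM b (u : D)).mulVec x ∈ K}.Finite := by
  classical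
  -- the right order
  let L : AddSubgroup D :=
    { carrier := {y | ∀ x ∈ J, x * y ∈ J}
      zero_mem' := fun x _ => by rw [mul_zero]; exact J.zero_mem
      add_mem' := fun {a c} ha hc x hx => by rw [mul_add]; exact J.add_mem (ha x hx) (hc x hx)
      neg_mem' := fun {a} ha x hx => by rw [mul_neg]; exact J.neg_mem (ha x hx) }
  obtain ⟨c, hc⟩ := latBasis_quo D Λ hΛ J J L hJ hJ (fun y => Iff.rfl)
  -- a bound for the coordinates
  have hcont : ContinuousOn (fun z : (Fin N → ℝ) × (Fin N → ℝ) =>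
      ((properR b z.1).det)⁻¹ • ((properR b z.1).adjugate.mulVec z.2)) (K ×ˢ K) := by
    have h1 : Continuous fun z : (Fin N → ℝ) × (Fin N → ℝ) => properR b z.1 :=
      (properR_cont b).comp continuous_fst
    refine ContinuousOn.smul (ContinuousOn.inv₀ h1.matrix_det.continuousOn ?_) ?_
    · rintro ⟨x, y⟩ ⟨hx, _⟩
      exact h0 x hx
    · exact (h1.matrix_adjugate.matrix_mulVec continuous_snd).continuousOn
  obtain ⟨C, hC⟩ := (hK.prod hK).exists_bound_of_continuousOn hcont
  -- change of basis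
  set P : Matrix (Fin (finrank ℚ D)) (Fin N) ℚ := c.toMatrix b with hP
  have hchange : ∀ a : D, ∀ i, c.repr a i = ∑ j, P i j * b.repr a j := by
    intro a i
    have h2 := congrArg (fun v => c.repr v i) (b.sum_repr a)
    simp only [map_sum, map_smul, Finsupp.coe_finsetSum, Finset.sum_apply, Finsupp.coe_smul,
      Pi.smul_apply, smul_eq_mul] at h2
    rw [← h2]
    refine Finset.sum_congr rfl (fun j _ => ?_)
    rw [hP, Basis.toMatrix_apply, mul_comm]
  set B : ℝ := (∑ i, ∑ j, |((P i j : ℚ) : ℝ)|) * |C| with hB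
  obtain ⟨m, hm⟩ := exists_nat_gt B
  -- the integer coordinates
  have hfin : (Set.Icc (fun _ => -(m : ℤ)) (fun _ => (m : ℤ)) :
      Set (Fin (finrank ℚ D) → ℤ)).Finite := Set.finite_Icc _ _
  have hfin2 : {a : D | ∃ k ∈ (Set.Icc (fun _ => -(m : ℤ)) (fun _ => (m : ℤ)) :
      Set (Fin (finrank ℚ D) → ℤ)), ∀ i, c.repr a i = k i}.Finite := by
    have h3 := hfin.image (fun k => ∑ i, ((k i : ℤ) : ℚ) • c i)
    refine h3.subset ?_
    rintro a ⟨k, hk, hka⟩
    refine ⟨k, hk, ?_⟩
    simp only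
    rw [← c.sum_repr a]
    refine Finset.sum_congr rfl (fun i _ => ?_)
    rw [hka]
  have hinj : Set.InjOn (fun u : Dˣ => (u : D))
      {u : Dˣ | u ∈ stab J ∧ ∃ x ∈ K, (actM b (u : D)).mulVec x ∈ K} :=
    fun u _ v _ h => Units.ext h
  refine Set.Finite.of_finite_image (hfin2.subset ?_) hinj
  rintro _ ⟨u, ⟨hu, x, hx, hux⟩, rfl⟩
  have huL : (u : D) ∈ L := by
    intro y hy
    have h4 : y * (u : D) ∈ rt J (u : D) := (mem_rt J _ _).2 ⟨y, hy, rfl⟩
    rw [(mem_stab J u).1 hu] at h4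
    exact h4
  obtain ⟨k, hk⟩ := Classical.axiomOfChoice ((hc (u : D)).1 huL)
  refine ⟨k, ?_, hk⟩
  -- the bound for vec b u
  have h5 : vec b (u : D) = ((properR b x).det)⁻¹ •
      ((properR b x).adjugate.mulVec ((actM b (u : D)).mulVec x)) := by
    rw [← properR_mulVec, Matrix.mulVec_mulVec, Matrix.adjugate_mul, Matrix.smul_mulVec,
      Matrix.one_mulVec, smul_smul, inv_mul_cancel₀ (show (properR b x).det ≠ 0 from h0 x hx),
      one_smul]
  have h6 : ‖vec b (u : D)‖ ≤ |C| := by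
    rw [h5]
    exact (hC (x, (actM b (u : D)).mulVec x) ⟨hx, hux⟩).trans (le_abs_self C)
  have h7 : ∀ i, |(k i : ℝ)| ≤ B := by
    intro i
    have h8 : ((k i : ℤ) : ℝ) = ∑ j, ((P i j : ℚ) : ℝ) * vec b (u : D) j := by
      have h9 := hchange (u : D) i
      rw [hk] at h9
      have h10 : (((k i : ℤ) : ℚ) : ℝ) = ((∑ j, P i j * b.repr (u : D) j : ℚ) : ℝ) := by
        rw [h9]
      push_cast at h10
      rw [h10]
      rfl
    rw [h8]
    refine (Finset.abs_sum_le_sum_abs _ _).trans ?_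
    rw [hB, Finset.sum_mul]
    refine le_trans ?_ (Finset.single_le_sum (f := fun i => (∑ j, |((P i j : ℚ) : ℝ)|) * |C|)
      (fun i _ => mul_nonneg (Finset.sum_nonneg (fun j _ => abs_nonneg _)) (abs_nonneg C))
      (Finset.mem_univ i))
    rw [Finset.sum_mul]
    refine Finset.sum_le_sum (fun j _ => ?_)
    rw [abs_mul]
    refine mul_le_mul_of_nonneg_left ?_ (abs_nonneg _)
    exact (norm_le_pi_norm (vec b (u : D)) j).trans h6
  have h11 : ∀ i, |k i| ≤ (m : ℤ) := by
    intro i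
    have h12 : ((|k i| : ℤ) : ℝ) ≤ ((m : ℤ) : ℝ) := by
      push_cast
      exact (h7 i).trans hm.le
    exact_mod_cast h12
  exact ⟨fun i => (abs_le.1 (h11 i)).1, fun i => (abs_le.1 (h11 i)).2⟩

/-- elements of the stabiliser have norm `± 1` -/
theorem stab_det (D : Type) [DivisionRing D] [Algebra ℚ D] [FiniteDimensional ℚ D]
    (Λ : Subring D) (hΛ : IsOrder Λ) (J : AddSubgroup D) (hJ : IsLeftIdeal Λ J) (u : Dˣ)
    (hu : u ∈ stab J) : |LinearMap.det (LinearMap.mulRight ℚ (u : D))| = 1 := by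
  classical
  obtain ⟨b, hb⟩ := latBasis_leftIdeal D Λ hΛ J hJ
  have key : ∀ v : Dˣ, v ∈ stab J →
      ∃ d : ℤ, LinearMap.det (LinearMap.mulRight ℚ (v : D)) = d := by
    intro v hv
    have h1 : ∀ i j, ∃ k : ℤ,
        (LinearMap.toMatrix b b (LinearMap.mulRight ℚ (v : D))) i j = k := by
      intro i j
      have h2 : b j ∈ J := by
        rw [hb]
        intro i
        rw [b.repr_self]
        by_cases h : j = i
        · subst h; exact ⟨1, by simp⟩
        · exact ⟨0, by rw [Finsupp.single_eq_of_ne (Ne.symm h)]; simp⟩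
      have h3 : b j * (v : D) ∈ J := by
        have h4 : b j * (v : D) ∈ rt J (v : D) := (mem_rt J _ _).2 ⟨b j, h2, rfl⟩
        rw [(mem_stab J v).1 hv] at h4
        exact h4
      obtain ⟨k, hk⟩ := (hb _).1 h3 i
      refine ⟨k, ?_⟩
      rw [LinearMap.toMatrix_apply]
      exact hk
    choose k hk using h1
    refine ⟨(Matrix.of k).det, ?_⟩
    rw [← LinearMap.det_toMatrix b]
    have h5 : LinearMap.toMatrix b b (LinearMap.mulRight ℚ (v : D)) =
        (Matrix.of k).map (Int.castRingHom ℚ) := by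
      ext i j
      rw [hk]; rfl
    rw [h5]
    have h6 := (RingHom.map_det (Int.castRingHom ℚ) (Matrix.of k)).symm
    exact h6
  obtain ⟨d, hd⟩ := key u hu
  obtain ⟨d', hd'⟩ := key u⁻¹ ((stab J).inv_mem hu)
  have h7 : LinearMap.det (LinearMap.mulRight ℚ (u : D)) *
      LinearMap.det (LinearMap.mulRight ℚ ((u⁻¹ : Dˣ) : D)) = 1 := by
    rw [← LinearMap.det_comp]
    have h8 : LinearMap.mulRight ℚ (u : D) ∘ₗ LinearMap.mulRight ℚ ((u⁻¹ : Dˣ) : D) =
        LinearMap.id := by
      ext x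
      simp only [LinearMap.comp_apply, LinearMap.mulRight_apply, LinearMap.id_apply]
      rw [mul_assoc, Units.inv_mul, mul_one]
    rw [h8, LinearMap.det_id]
  rw [hd, hd'] at h7
  have h9 : d * d' = 1 := by exact_mod_cast h7
  have h10 : IsUnit d := IsUnit.of_mul_eq_one d' h9
  rw [hd]
  rcases Int.isUnit_iff.1 h10 with h | h
  · rw [h]; norm_num
  · rw [h]; norm_num

end Pool.Agent.Helper8.Hey
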