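import Pool.Agent.Helper8.Hey.Classes
import Pool.Agent.Helper8.Hey.Basic
import Pool.Agent.Helper8.Hey.Proper

set_option autoImplicit false

/-! HY-11 -/

open Module MeasureTheory
open scoped TensorProduct ContDiff

namespace Pool.Agent.Helper8.Hey

/-- the matrix of right multiplication by a real point -/
private noncomputable def ccR {D : Type} [Ring D] [Algebra ℚ D] {N : ℕ} (b : Basis (Fin N) ℚ D)
    (x : Fin N → ℝ) : Matrix (Fin N) (Fin N) ℝ :=
  ∑ i, x i • (LinearMap.toMatrix b b (LinearMap.mulRight ℚ (b i))).map (algebraMap ℚ ℝ)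

private theorem cc_act {D : Type} [Ring D] [Algebra ℚ D] {N : ℕ} (b : Basis (Fin N) ℚ D)
    (a : D) (x : Fin N → ℝ) : (actM b a).mulVec x = (ccR b x).mulVec (vec b a) := by
  have h1 : ∀ j : Fin N, (actM b a).mulVec (Pi.single j 1) =
      ((LinearMap.toMatrix b b (LinearMap.mulRight ℚ (b j))).map (algebraMap ℚ ℝ)).mulVec
        (vec b a) := by
    intro j
    have e1 : vec b (b j) = Pi.single j 1 := by
      funext i
      show ((b.repr (b j) i : ℚ) : ℝ) = _
      rw [b.repr_self, Finsupp.single_apply, Pi.single_apply]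
      by_cases h : j = i
      · rw [if_pos h, if_pos h.symm, Rat.cast_one]
      · rw [if_neg h, if_neg (Ne.symm h), Rat.cast_zero]
    rw [← e1, actM_vec]
    funext i
    show ((b.repr (a * b j) i : ℚ) : ℝ) = ∑ k, ((LinearMap.toMatrix b b
      (LinearMap.mulRight ℚ (b j)) i k : ℚ) : ℝ) * ((b.repr a k : ℚ) : ℝ)
    have e2 := LinearMap.toMatrix_mulVec_repr b b (LinearMap.mulRight ℚ (b j)) a
    have e3 := congrFun e2 i
    simp only [Matrix.mulVec, dotProduct, LinearMap.mulRight_apply] at e3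
    rw [← e3]
    push_cast
    rfl
  have h2 : x = ∑ j, x j • Pi.single j (1 : ℝ) := by
    funext i
    simp [Finset.sum_apply, Pi.single_apply]
  conv_lhs => rw [h2]
  rw [Matrix.mulVec_sum]
  unfold ccR
  rw [Matrix.sum_mulVec]
  refine Finset.sum_congr rfl fun j _ => ?_
  rw [Matrix.mulVec_smul, Matrix.smul_mulVec, h1]

/-- Minkowski for linear forms -/
private theorem cc_minkowski {N : ℕ} (T : Matrix (Fin N) (Fin N) ℝ) (hT : T.det ≠ 0)
    (C : ℝ) (hC : 0 ≤ C) (h : |T.det| < C ^ N) :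
    ∃ t : Fin N → ℤ, t ≠ 0 ∧ ‖T.mulVec (fun i => (t i : ℝ))‖ ≤ C := by
  classical
  let f : (Fin N → ℝ) →ₗ[ℝ] (Fin N → ℝ) := Matrix.toLin' T
  have hdet : LinearMap.det f = T.det := LinearMap.det_toLin' T
  let b := Pi.basisFun ℝ (Fin N)
  let L : AddSubgroup (Fin N → ℝ) := (Submodule.span ℤ (Set.range b)).toAddSubgroup
  have fund : IsAddFundamentalDomain L (ZSpan.fundamentalDomain b) (volume : Measure (Fin N → ℝ)) :=
    ZSpan.isAddFundamentalDomain' b volume
  have hcount : Countable L := by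
    have : Countable (Submodule.span ℤ (Set.range b)) := inferInstance
    exact this
  have hvol : volume (ZSpan.fundamentalDomain b) = 1 := by
    rw [ZSpan.volume_fundamentalDomain]
    have : (Matrix.of b : Matrix (Fin N) (Fin N) ℝ) = 1 := by
      ext i j
      simp [b, Matrix.one_apply, Pi.single_apply, eq_comm]
    rw [this]
    simp
  have hs := exists_ne_zero_mem_lattice_of_measure_mul_two_pow_lt_measure (μ := volume)
    (s := f ⁻¹' (Metric.closedBall 0 C)) fund ?_ ?_ ?_
  · obtain ⟨x, hx0, hx⟩ := hs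
    have hx2 : ∀ i, ∃ k : ℤ, (k : ℝ) = (x : Fin N → ℝ) i := by
      intro i
      have h1 : (x : Fin N → ℝ) ∈ Submodule.span ℤ (Set.range b) := x.2
      have h2 := (b.mem_span_iff_repr_mem ℤ (x : Fin N → ℝ)).1 h1 i
      obtain ⟨k, hk⟩ := h2
      refine ⟨k, ?_⟩
      simpa [b] using hk
    choose t ht using hx2
    refine ⟨t, ?_, ?_⟩
    · rintro rfl
      apply hx0
      apply Subtype.ext
      funext i
      rw [← ht i]
      simp
    · have h3 : (fun i => (t i : ℝ)) = (x : Fin N → ℝ) := funext ht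
      rw [h3]
      have h4 : f (x : Fin N → ℝ) ∈ Metric.closedBall (0 : Fin N → ℝ) C := hx
      rw [mem_closedBall_zero_iff] at h4
      exact h4
  · intro x hx
    have h4 : f x ∈ Metric.closedBall (0 : Fin N → ℝ) C := hx
    show f (-x) ∈ Metric.closedBall (0 : Fin N → ℝ) C
    rw [map_neg, mem_closedBall_zero_iff, norm_neg, ← mem_closedBall_zero_iff]
    exact h4
  · exact (convex_closedBall 0 C).linear_preimage f
  · rw [hvol, one_mul, Measure.addHaar_preimage_linearMap volume (by rw [hdet]; exact hT), hdet,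
      Real.volume_pi_closedBall _ hC, ← ENNReal.ofReal_mul (abs_nonneg _), finrank_fintype_fun_eq_card,
      Fintype.card_fin]
    have h2 : (2 : ENNReal) ^ N = ENNReal.ofReal (2 ^ N) := by
      rw [ENNReal.ofReal_pow (by norm_num)]
      simp
    rw [h2]
    have hpos : 0 < |T.det| := abs_pos.2 hT
    refine (ENNReal.ofReal_lt_ofReal_iff ?_).2 ?_
    · rw [abs_inv]
      have : 0 < C ^ N := hpos.trans h
      rw [mul_pow]
      positivity
    · rw [abs_inv, mul_pow, inv_mul_eq_div, lt_div_iff₀ hpos]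
      exact mul_lt_mul_of_pos_left h (by positivity)

theorem cocompact (D : Type) [DivisionRing D] [Algebra ℚ D] [FiniteDimensional ℚ D]
    (hLR : ∀ a : D, LinearMap.det (LinearMap.mulLeft ℚ a) =
      LinearMap.det (LinearMap.mulRight ℚ a))
    (Λ : Subring D) (hΛ : IsOrder Λ) (J : AddSubgroup D) (hJ : IsLeftIdeal Λ J) {N : ℕ}
    (b : Basis (Fin N) ℚ D) :
    ∃ Ω : Set (Fin N → ℝ), IsCompact Ω ∧ (∀ x ∈ Ω, nrm b x ≠ 0) ∧
      ∀ x, |nrm b x| = 1 → ∃ u ∈ stab J, (actM b (u : D)).mulVec x ∈ Ω := by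
  classical
  have hNe : N = finrank ℚ D := by rw [finrank_eq_card_basis b, Fintype.card_fin]
  have hNpos : 0 < N := by rw [hNe]; exact finrank_pos
  -- the right order
  let O : AddSubgroup D :=
    { carrier := {a | ∀ x ∈ J, x * a ∈ J}
      zero_mem' := fun x _ => by rw [mul_zero]; exact J.zero_mem
      add_mem' := fun {a b} ha hb x hx => by rw [mul_add]; exact J.add_mem (ha x hx) (hb x hx)
      neg_mem' := fun {a} ha x hx => by rw [mul_neg]; exact J.neg_mem (ha x hx) }
  have hO : ∀ a, a ∈ O ↔ ∀ x ∈ J, x * a ∈ J := fun a => Iff.rfl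
  have hO1 : (1 : D) ∈ O := fun x hx => by rw [mul_one]; exact hx
  have hOmul : ∀ a ∈ O, ∀ a' ∈ O, a * a' ∈ O := fun a ha a' ha' x hx => by
    rw [← mul_assoc]; exact ha' _ (ha x hx)
  obtain ⟨c, hc⟩ : ∃ c : Basis (Fin N) ℚ D, IsLatBasis O c := by
    rw [hNe]
    exact latBasis_quo D Λ hΛ J J O hJ hJ fun y => Iff.rfl
  have hsum_mem : ∀ t : Fin N → ℤ, ∑ j, ((t j : ℤ) : ℚ) • c j ∈ O := by
    intro t
    rw [hc]
    intro i
    exact ⟨t i, by rw [c.repr_sum_self]⟩
  have hOfg : O.FG := by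
    refine ⟨Finset.univ.image c, le_antisymm ?_ ?_⟩
    · rw [AddSubgroup.closure_le]
      intro z hz
      rw [Finset.coe_image, Finset.coe_univ, Set.image_univ] at hz
      obtain ⟨j, rfl⟩ := hz
      show c j ∈ O
      rw [hc]
      intro i
      rw [c.repr_self, Finsupp.single_apply]
      split_ifs
      · exact ⟨1, by simp⟩
      · exact ⟨0, by simp⟩
    · intro z hz
      rw [hc] at hz
      choose k hk using hz
      have h1 : z = ∑ j, k j • c j := by
        conv_lhs => rw [← c.sum_repr z]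
        refine Finset.sum_congr rfl fun j _ => ?_
        rw [hk j, Int.cast_smul_eq_zsmul]
      rw [h1]
      refine AddSubgroup.sum_mem _ fun j _ => AddSubgroup.zsmul_mem _ ?_ _
      exact AddSubgroup.subset_closure (by
        rw [Finset.coe_image, Finset.coe_univ, Set.image_univ]; exact ⟨j, rfl⟩)
  -- change of basis
  let P : Matrix (Fin N) (Fin N) ℝ := (b.toMatrix c).map (algebraMap ℚ ℝ)
  have hPdet : P.det ≠ 0 := by
    have h1 : P.det = algebraMap ℚ ℝ (b.toMatrix c).det := by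
      rw [RingHom.map_det]
      rfl
    rw [h1, ← Basis.det_apply]
    exact (map_ne_zero _).2 (b.isUnit_det c).ne_zero
  have hvec : ∀ t : Fin N → ℤ, vec b (∑ j, ((t j : ℤ) : ℚ) • c j) =
      P.mulVec (fun i => (t i : ℝ)) := by
    intro t
    funext i
    show ((b.repr (∑ j, ((t j : ℤ) : ℚ) • c j) i : ℚ) : ℝ) =
      ∑ j, ((b.toMatrix c i j : ℚ) : ℝ) * (t j : ℝ)
    rw [map_sum, Finsupp.finsetSum_apply]
    push_cast
    refine Finset.sum_congr rfl fun j _ => ?_
    rw [map_smul, Finsupp.smul_apply, smul_eq_mul, Basis.toMatrix_apply]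
    push_cast
    ring
  let C1 : ℝ := |P.det| + 1
  have hC1 : 1 ≤ C1 := by
    have := abs_nonneg P.det
    show (1 : ℝ) ≤ |P.det| + 1
    linarith
  have hC1N : |P.det| < C1 ^ N := by
    have h1 : C1 ≤ C1 ^ N := le_self_pow₀ hC1 hNpos.ne'
    have h2 : |P.det| < C1 := by
      show |P.det| < |P.det| + 1
      linarith
    linarith
  obtain ⟨C2, hC2⟩ := (isCompact_closedBall (0 : Fin N → ℝ) C1).exists_bound_of_continuousOn
    (nrm_contDiff b).continuous.continuousOn
  set K := (⌊C2⌋₊).factorial with hK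
  have hK0 : K ≠ 0 := Nat.factorial_ne_zero _
  let S : Set (AddSubgroup D) := {B | B ≤ O ∧ ∀ x ∈ O, K • x ∈ B}
  have hS : S.Finite := cl_between O hOfg K hK0
  let Q : AddSubgroup D → D → Prop := fun B a =>
    a ∈ O ∧ a ≠ 0 ∧ B = O.map (LinearMap.mulLeft ℚ a).toAddMonoidHom
  let rep : AddSubgroup D → D := fun B => if h : ∃ a, Q B a then h.choose else 1
  have hrep : ∀ B, (∃ a, Q B a) → Q B (rep B) := by
    intro B h
    show Q B (if h : ∃ a, Q B a then h.choose else 1)
    rw [dif_pos h]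
    exact h.choose_spec
  refine ⟨(⋃ B ∈ S, (fun x => (actM b (rep B)⁻¹).mulVec x) '' Metric.closedBall 0 C1) ∩
    {x | |nrm b x| = 1}, ?_, ?_, ?_⟩
  · refine IsCompact.inter_right ?_ ?_
    · refine hS.isCompact_biUnion fun B _ => ?_
      refine (isCompact_closedBall _ _).image ?_
      exact Continuous.matrix_mulVec continuous_const continuous_id
    · exact isClosed_eq (nrm_contDiff b).continuous.abs continuous_const
  · rintro x ⟨-, hx⟩ h0
    have hx' : |nrm b x| = 1 := hx
    rw [h0, abs_zero] at hx'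
    exact zero_ne_one hx'
  · intro x hx
    -- Minkowski
    have hTdet : (ccR b x * P).det = nrm b x * P.det := by
      rw [Matrix.det_mul]
      rfl
    have hnx : nrm b x ≠ 0 := by
      intro h0
      rw [h0, abs_zero] at hx
      exact zero_ne_one hx
    obtain ⟨t, ht0, ht⟩ := cc_minkowski (ccR b x * P) (by rw [hTdet]; exact mul_ne_zero hnx hPdet)
      C1 (by linarith) (by rw [hTdet, abs_mul, hx, one_mul]; exact hC1N)
    obtain ⟨a, ha⟩ : ∃ a : D, a = ∑ j, ((t j : ℤ) : ℚ) • c j := ⟨_, rfl⟩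
    have haO : a ∈ O := by rw [ha]; exact hsum_mem t
    have ha0 : a ≠ 0 := by
      intro h0
      apply ht0
      funext i
      have h1 : c.repr a i = ((t i : ℤ) : ℚ) := by rw [ha, c.repr_sum_self]
      rw [h0, map_zero, Finsupp.zero_apply] at h1
      exact_mod_cast h1.symm
    have hax : (actM b a).mulVec x = (ccR b x * P).mulVec (fun i => (t i : ℝ)) := by
      rw [cc_act, ha, hvec, Matrix.mulVec_mulVec]
    have hball : (actM b a).mulVec x ∈ Metric.closedBall (0 : Fin N → ℝ) C1 := by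
      rw [mem_closedBall_zero_iff, hax]
      exact ht
    have hdet : |((LinearMap.det (LinearMap.mulLeft ℚ a) : ℚ) : ℝ)| ≤ C2 := by
      have h1 := hC2 _ hball
      rw [nrm_actM, Real.norm_eq_abs, abs_mul, hx, mul_one, ← hLR] at h1
      exact h1
    have hdet0 : LinearMap.det (LinearMap.mulLeft ℚ a) ≠ 0 := by
      rw [hLR]
      exact cl_det_ne a ha0
    -- the subgroup a O
    have hBle : O.map (LinearMap.mulLeft ℚ a).toAddMonoidHom ≤ O := by
      rintro z hz
      obtain ⟨y, hy, rfl⟩ := AddSubgroup.mem_map.1 hz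
      exact hOmul a haO y hy
    have hidx := relIndex_map O O c hc le_rfl
      (by rw [AddSubgroup.relIndex_self]; exact one_ne_zero) (LinearMap.mulLeft ℚ a) hdet0 hBle
    rw [AddSubgroup.relIndex_self, Nat.cast_one, one_mul] at hidx
    have hB0 : (O.map (LinearMap.mulLeft ℚ a).toAddMonoidHom).relIndex O ≠ 0 := by
      intro h0
      rw [h0, Nat.cast_zero] at hidx
      exact (abs_pos.2 hdet0).ne hidx
    have hBC : (O.map (LinearMap.mulLeft ℚ a).toAddMonoidHom).relIndex O ≤ ⌊C2⌋₊ := by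
      apply Nat.le_floor
      have h2 := congrArg (fun q : ℚ => (q : ℝ)) hidx
      simp only [Rat.cast_natCast, Rat.cast_abs] at h2
      rw [h2]
      exact hdet
    have hBS : O.map (LinearMap.mulLeft ℚ a).toAddMonoidHom ∈ S := by
      refine ⟨hBle, fun y hy => ?_⟩
      exact (AddSubgroup.nsmul_mem_of_relIndex_ne_zero_of_dvd hB0 hy (n := K)
        (fun m h0 h1 => Nat.dvd_factorial h0 (h1.trans hBC))).1
    set B := O.map (LinearMap.mulLeft ℚ a).toAddMonoidHom with hB
    obtain ⟨haO', ha0', hBe⟩ := hrep B ⟨a, haO, ha0, hB⟩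
    set a' := rep B with ha'
    have hmemB : ∀ z, z ∈ B ↔ ∃ y ∈ O, a * y = z := fun z => by
      rw [hB, AddSubgroup.mem_map]; rfl
    have hmemB' : ∀ z, z ∈ B ↔ ∃ y ∈ O, a' * y = z := fun z => by
      rw [hBe, AddSubgroup.mem_map]; rfl
    obtain ⟨γ, hγ, hγe⟩ := (hmemB' a).1 ((hmemB a).2 ⟨1, hO1, mul_one a⟩)
    obtain ⟨γ', hγ', hγe'⟩ := (hmemB a').1 ((hmemB' a').2 ⟨1, hO1, mul_one a'⟩)
    have hγ0 : γ ≠ 0 := by
      rintro rfl
      rw [mul_zero] at hγe
      exact ha0 hγe.symm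
    have hinv : γ' = γ⁻¹ := by
      have h1 : a' * (γ * γ') = a' * 1 := by rw [← mul_assoc, hγe, hγe', mul_one]
      have h2 := mul_left_cancel₀ ha0' h1
      exact eq_inv_of_mul_eq_one_right h2
    rw [hinv] at hγ'
    have hstab : Units.mk0 γ hγ0 ∈ stab J := by
      rw [mem_stab]
      show rt J γ = J
      apply le_antisymm
      · intro z hz
        obtain ⟨y, hy, rfl⟩ := (mem_rt J _ z).1 hz
        exact hγ y hy
      · intro z hz
        refine (mem_rt J _ z).2 ⟨z * γ⁻¹, hγ' z hz, ?_⟩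
        rw [mul_assoc, inv_mul_cancel₀ hγ0, mul_one]
    refine ⟨Units.mk0 γ hγ0, hstab, ?_, ?_⟩
    · rw [Set.mem_iUnion₂]
      refine ⟨B, hBS, (actM b a).mulVec x, hball, ?_⟩
      show (actM b a'⁻¹).mulVec ((actM b a).mulVec x) = (actM b γ).mulVec x
      rw [Matrix.mulVec_mulVec, ← actM_mul]
      congr 2
      rw [← hγe, inv_mul_cancel_left₀ ha0']
    · show |nrm b ((actM b γ).mulVec x)| = 1
      have h1 := stab_det D Λ hΛ J hJ (Units.mk0 γ hγ0) hstab
      have h2 : |LinearMap.det (LinearMap.mulRight ℚ γ)| = 1 := h1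
      have h3 : |((LinearMap.det (LinearMap.mulRight ℚ γ) : ℚ) : ℝ)| = 1 := by
        have := congrArg (fun q : ℚ => (q : ℝ)) h2
        simpa using this
      rw [nrm_actM, abs_mul, hx, mul_one]
      exact h3

end Pool.Agent.Helper8.Hey
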