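import Mathlib

set_option autoImplicit false

/-!
# Definitions for Hey's theorem (a central division algebra over `ℚ` that splits at every prime
is `ℚ`); used for MP_55a891_nt
-/

open Module

namespace Pool.Agent.Helper8.Hey

/-- the number of subgroups of index `m` of `ℤ ^ n` -/
def cnt : ℕ → ℕ → ℕ
  | 0, m => if m = 1 then 1 else 0
  | n + 1, m => ∑ d ∈ m.divisors, cnt n d * d

section Ring

variable {D : Type} [Ring D]

/-- `Λ / m Λ` is the ring of `n × n` matrices over `ℤ / m` -/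
def SplitAt (Λ : Subring D) (n m : ℕ) : Prop :=
  ∃ π : Λ →+* Matrix (Fin n) (Fin n) (ZMod m), Function.Surjective π ∧
    ∀ x : Λ, π x = 0 ↔ ∃ y : Λ, x = (m : Λ) * y

/-- left ideals of finite index, as subgroups of `D` -/
structure IsLeftIdeal (Λ : Subring D) (I : AddSubgroup D) : Prop where
  le : I ≤ Λ.toAddSubgroup
  mul : ∀ a ∈ Λ, ∀ x ∈ I, a * x ∈ I
  fin : I.relIndex Λ.toAddSubgroup ≠ 0

/-- the right translate `I y` -/
def rt (I : AddSubgroup D) (y : D) : AddSubgroup D := I.map (AddMonoidHom.mulRight y)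

/-- the lattice `{y | J y ⊆ Λ}` -/
def quo (Λ : Subring D) (J : AddSubgroup D) : AddSubgroup D where
  carrier := {y | ∀ x ∈ J, x * y ∈ Λ}
  zero_mem' := fun x _ => by rw [mul_zero]; exact Λ.zero_mem
  add_mem' := fun {a b} ha hb x hx => by rw [mul_add]; exact Λ.add_mem (ha x hx) (hb x hx)
  neg_mem' := fun {a} ha x hx => by rw [mul_neg]; exact Λ.neg_mem (ha x hx)

theorem mem_rt (I : AddSubgroup D) (y z : D) : z ∈ rt I y ↔ ∃ x ∈ I, x * y = z := by
  unfold rt
  rw [AddSubgroup.mem_map]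
  rfl

theorem rt_rt (I : AddSubgroup D) (y z : D) : rt (rt I y) z = rt I (y * z) := by
  ext w
  simp only [mem_rt]
  constructor
  · rintro ⟨_, ⟨x, hx, rfl⟩, rfl⟩
    exact ⟨x, hx, (mul_assoc x y z).symm⟩
  · rintro ⟨x, hx, rfl⟩
    exact ⟨x * y, ⟨x, hx, rfl⟩, mul_assoc x y z⟩

theorem rt_one (I : AddSubgroup D) : rt I 1 = I := by
  ext w
  simp only [mem_rt, mul_one, exists_eq_right]

/-- the stabiliser of the lattice `J` under right multiplication -/
def stab (J : AddSubgroup D) : Subgroup Dˣ where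
  carrier := {u | rt J (u : D) = J}
  one_mem' := rt_one J
  mul_mem' := by
    intro a b ha hb
    change rt J ((a * b : Dˣ) : D) = J
    rw [Units.val_mul, ← rt_rt, show rt J (a : D) = J from ha]
    exact hb
  inv_mem' := by
    intro a ha
    change rt J ((a⁻¹ : Dˣ) : D) = J
    conv_lhs => rw [← show rt J (a : D) = J from ha]
    rw [rt_rt, Units.mul_inv, rt_one]

theorem mem_stab (J : AddSubgroup D) (u : Dˣ) : u ∈ stab J ↔ rt J (u : D) = J := Iff.rfl

end Ring

section Algebra

variable {D : Type} [Ring D] [Algebra ℚ D]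

/-- an order: a subring that is a finitely generated group and spans `D` over `ℚ` -/
structure IsOrder (Λ : Subring D) : Prop where
  fg : Λ.toAddSubgroup.FG
  span : ∀ x : D, ∃ k : ℕ, k ≠ 0 ∧ (k : D) * x ∈ Λ

/-- a maximal order -/
structure IsMaxOrder (Λ : Subring D) : Prop extends IsOrder Λ where
  max : ∀ Λ' : Subring D, IsOrder Λ' → Λ ≤ Λ' → Λ' = Λ

/-- `b` is a `ℤ`-basis of the subgroup `M` (and a `ℚ`-basis of `D`) -/
def IsLatBasis {N : ℕ} (M : AddSubgroup D) (b : Basis (Fin N) ℚ D) : Prop :=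
  ∀ x : D, x ∈ M ↔ ∀ i, ∃ k : ℤ, b.repr x i = k

/-- the matrix of left multiplication by `a` in the basis `b`, as a real matrix -/
noncomputable def actM {N : ℕ} (b : Basis (Fin N) ℚ D) (a : D) : Matrix (Fin N) (Fin N) ℝ :=
  (LinearMap.toMatrix b b (LinearMap.mulLeft ℚ a)).map (algebraMap ℚ ℝ)

/-- the determinant of right multiplication by the real point `x` (coordinates in `b`) -/
noncomputable def nrm {N : ℕ} (b : Basis (Fin N) ℚ D) (x : Fin N → ℝ) : ℝ :=
  Matrix.det (∑ i, x i • (LinearMap.toMatrix b b (LinearMap.mulRight ℚ (b i))).map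
    (algebraMap ℚ ℝ))

/-- the real coordinates of an element of `D` -/
noncomputable def vec {N : ℕ} (b : Basis (Fin N) ℚ D) (y : D) : Fin N → ℝ :=
  fun i => (b.repr y i : ℝ)

end Algebra

end Pool.Agent.Helper8.Hey
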