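import Pool.Agent.Helper8.Hey.Defs

set_option autoImplicit false

/-! HY-19 -/

open Module
open scoped TensorProduct ContDiff

namespace Pool.Agent.Helper8.Hey

theorem dirichlet_term_shift (f : ℕ → ℂ) (s : ℂ) :
    LSeries.term (fun m => f m * m) s = LSeries.term f (s - 1) := by
  funext m
  rcases eq_or_ne m 0 with rfl | hm
  · simp
  · rw [LSeries.term_of_ne_zero hm, LSeries.term_of_ne_zero hm]
    have hm' : (m : ℂ) ≠ 0 := Nat.cast_ne_zero.2 hm
    rw [Complex.cpow_sub _ _ hm', Complex.cpow_one]
    have h1 : (m : ℂ) ^ s ≠ 0 := by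
      rw [Ne, Complex.cpow_eq_zero_iff]
      exact fun h => hm' h.1
    field_simp

theorem dirichlet_cnt_succ (n : ℕ) : (fun m => (cnt (n + 1) m : ℂ)) =
    LSeries.convolution (fun m => (cnt n m : ℂ) * m) 1 := by
  rw [LSeries.convolution_def]
  funext m
  have h : cnt (n + 1) m = ∑ d ∈ m.divisors, cnt n d * d := rfl
  rw [h]
  push_cast
  have h2 : ∑ p ∈ m.divisorsAntidiagonal, ((cnt n p.1 : ℂ) * (p.1 : ℂ)) * (1 : ℕ → ℂ) p.2 =
      ∑ d ∈ m.divisors, (cnt n d : ℂ) * (d : ℂ) := by
    have h3 := Nat.sum_divisorsAntidiagonal (n := m) (fun d : ℕ => fun e : ℕ =>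
      (cnt n d : ℂ) * (d : ℂ))
    simpa using h3
  exact h2.symm

theorem dirichlet_aux (n : ℕ) : ∀ s : ℂ, (n = 0 ∨ (n : ℝ) < s.re) →
    LSeriesSummable (fun m => (cnt n m : ℂ)) s ∧
      LSeries (fun m => (cnt n m : ℂ)) s = ∏ i ∈ Finset.range n, riemannZeta (s - i) := by
  induction n with
  | zero =>
    intro s _
    have h : (fun m => (cnt 0 m : ℂ)) = LSeries.delta := by
      funext m
      have h1 : cnt 0 m = if m = 1 then 1 else 0 := rfl
      rw [h1]
      unfold LSeries.delta
      split_ifs <;> simp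
    rw [h]
    constructor
    · have h2 : Summable (LSeries.term LSeries.delta s) := by
        apply summable_of_ne_finset_zero (s := {1})
        intro m hm
        rw [LSeries.term_delta]
        rw [Finset.mem_singleton] at hm
        rw [if_neg hm]
      exact h2
    · rw [LSeries_delta]
      simp
  | succ n ih =>
    intro s hs
    have hs1 : ((n : ℝ) + 1) < s.re := by
      rcases hs with h | h
      · omega
      · push_cast at h; exact h
    have hn0 : (0 : ℝ) ≤ n := Nat.cast_nonneg n
    have h1 := ih (s - 1) (Or.inr (by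
      rw [Complex.sub_re, Complex.one_re]; linarith))
    have h2 : LSeriesSummable (fun m => (cnt n m : ℂ) * m) s := by
      have : Summable (LSeries.term (fun m => (cnt n m : ℂ) * m) s) := by
        rw [dirichlet_term_shift]
        exact h1.1
      exact this
    have h3 : LSeriesSummable (1 : ℕ → ℂ) s := LSeriesSummable_one_iff.2 (by linarith)
    have h4 : LSeries (fun m => (cnt n m : ℂ) * m) s = LSeries (fun m => (cnt n m : ℂ)) (s - 1) := by
      unfold LSeries
      rw [dirichlet_term_shift]
    rw [dirichlet_cnt_succ]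
    refine ⟨h2.convolution h3, ?_⟩
    rw [LSeries_convolution' h2 h3, h4, h1.2, LSeries_one_eq_riemannZeta (by linarith),
      Finset.prod_range_succ']
    simp only [Nat.cast_zero, sub_zero]
    congr 1
    apply Finset.prod_congr rfl
    intro i _
    congr 1
    push_cast
    ring

theorem LSeries_cnt (n : ℕ) (hn : n ≠ 0) (s : ℂ) (hs : (n : ℝ) < s.re) :
    LSeriesSummable (fun m => (cnt n m : ℂ)) s ∧
      LSeries (fun m => (cnt n m : ℂ)) s = ∏ i ∈ Finset.range n, riemannZeta (s - i) :=
  dirichlet_aux n s (Or.inr hs)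

end Pool.Agent.Helper8.Hey
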