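import Pool.Agent.Helper8.BR.Defs

set_option autoImplicit false

/-! HY-0 -/

open Module
open scoped TensorProduct ContDiff

namespace Pool.Agent.Helper8.Hey

section split
variable {K A V : Type} [Field K] [Ring A] [Algebra K A] [AddCommGroup V] [Module K V]
  {n : ℕ} [NeZero n]

/-- the matrix with the single entry `a` in position `(0,0)` -/
def hy0_s (a : A) : Matrix (Fin n) (Fin n) A := Matrix.single 0 0 a

lemma hy0_s_mul (a b : A) : hy0_s (n := n) (a * b) = hy0_s a * hy0_s b := by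
  simp [hy0_s]

lemma hy0_corner (X : Matrix (Fin n) (Fin n) A) :
    hy0_s (n := n) (1 : A) * X * hy0_s 1 = hy0_s (X 0 0) := by
  simp [hy0_s]

lemma hy0_mem (ψ : Matrix (Fin n) (Fin n) A ≃ₐ[K] End K V) (a : A) (w : V) :
    (ψ (hy0_s a)) w ∈ LinearMap.range (ψ (hy0_s (1 : A))) := by
  refine ⟨(ψ (hy0_s a)) w, ?_⟩
  have : hy0_s (n := n) a = hy0_s (1 : A) * hy0_s a := by rw [← hy0_s_mul, one_mul]
  conv_rhs => rw [this, map_mul]
  rfl

lemma hy0_fix (ψ : Matrix (Fin n) (Fin n) A ≃ₐ[K] End K V) (w : V)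
    (hw : w ∈ LinearMap.range (ψ (hy0_s (1 : A)))) : ψ (hy0_s (1 : A)) w = w := by
  obtain ⟨v, rfl⟩ := hw
  have : hy0_s (n := n) (1 : A) = hy0_s (1 : A) * hy0_s 1 := by rw [← hy0_s_mul, one_mul]
  conv_rhs => rw [this, map_mul]
  rfl

/-- the corner as endomorphisms of the range -/
def hy0_hom (ψ : Matrix (Fin n) (Fin n) A ≃ₐ[K] End K V) :
    A →ₐ[K] End K (LinearMap.range (ψ (hy0_s (1 : A)))) :=
  AlgHom.ofLinearMap
    { toFun := fun a => (ψ (hy0_s a)).restrict (fun w _ => hy0_mem ψ a w)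
      map_add' := by
        intro a b
        ext w
        have : hy0_s (n := n) (a + b) = hy0_s a + hy0_s b := by
          simp [hy0_s, Matrix.single_add]
        simp [LinearMap.restrict_apply, this]
      map_smul' := by
        intro c a
        ext w
        have : hy0_s (n := n) (c • a) = c • hy0_s a := by
          simp [hy0_s, Matrix.smul_single]
        simp [LinearMap.restrict_apply, this] }
    (by
      ext w
      show ψ (hy0_s (1 : A)) w = w
      exact hy0_fix ψ w w.2)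
    (by
      intro a b
      ext w
      show ψ (hy0_s (a * b)) w = ψ (hy0_s a) (ψ (hy0_s b) w)
      rw [hy0_s_mul, map_mul]
      rfl)

lemma hy0_hom_apply (ψ : Matrix (Fin n) (Fin n) A ≃ₐ[K] End K V) (a : A)
    (w : LinearMap.range (ψ (hy0_s (1 : A)))) : ((hy0_hom ψ a) w : V) = ψ (hy0_s a) w := rfl

lemma hy0_hom_bij (ψ : Matrix (Fin n) (Fin n) A ≃ₐ[K] End K V) :
    Function.Bijective (hy0_hom ψ) := by
  constructor
  · rw [injective_iff_map_eq_zero]
    intro a ha
    have h1 : ψ (hy0_s a) = 0 := by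
      have h2 : hy0_s (n := n) a = hy0_s a * hy0_s 1 := by rw [← hy0_s_mul, mul_one]
      ext v
      rw [h2, map_mul]
      have h3 := congrArg (fun f => ((f ⟨ψ (hy0_s (1 : A)) v, ⟨v, rfl⟩⟩ : LinearMap.range _) : V)) ha
      exact h3
    have h2 : hy0_s (n := n) a = 0 := by
      apply ψ.injective
      rw [h1, map_zero]
    have h3 := congrFun (congrFun h2 0) 0
    simpa [hy0_s] using h3
  · intro f
    -- extend `f`
    let F : End K V := (LinearMap.range (ψ (hy0_s (1 : A)))).subtype ∘ₗ f ∘ₗ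
      (ψ (hy0_s (1 : A))).rangeRestrict
    have hF : ψ (hy0_s (1 : A)) * F * ψ (hy0_s (1 : A)) = F := by
      ext v
      show ψ (hy0_s (1 : A)) (f ((ψ (hy0_s (1 : A))).rangeRestrict (ψ (hy0_s (1 : A)) v)) : V) =
        (f ((ψ (hy0_s (1 : A))).rangeRestrict v) : V)
      rw [hy0_fix ψ _ (f _).2]
      congr 2
      apply Subtype.ext
      show ψ (hy0_s (1 : A)) (ψ (hy0_s (1 : A)) v) = ψ (hy0_s (1 : A)) v
      exact hy0_fix ψ _ ⟨v, rfl⟩
    refine ⟨(ψ.symm F) 0 0, ?_⟩
    ext w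
    rw [hy0_hom_apply, ← hy0_corner, map_mul, map_mul, AlgEquiv.apply_symm_apply, hF]
    show (f ((ψ (hy0_s (1 : A))).rangeRestrict w) : V) = f w
    congr 2
    apply Subtype.ext
    exact hy0_fix ψ _ w.2

end split

theorem split_matrix (K A : Type) [Field K] [Ring A] [Algebra K A] [FiniteDimensional K A]
    (h : BR.BrEq K A K) : ∃ n : ℕ, n ≠ 0 ∧ Nonempty (A ≃ₐ[K] Matrix (Fin n) (Fin n) K) := by
  classical
  obtain ⟨n, m, hn, hm, ⟨φ₀⟩⟩ := h
  haveI : NeZero n := ⟨hn⟩
  haveI : NeZero m := ⟨hm⟩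
  let ψ : Matrix (Fin n) (Fin n) A ≃ₐ[K] End K (Fin m → K) :=
    φ₀.trans (algEquivMatrix' (R := K) (n := Fin m)).symm
  let W : Submodule K (Fin m → K) := LinearMap.range (ψ (hy0_s (1 : A)))
  let e₁ : A ≃ₐ[K] End K W := AlgEquiv.ofBijective (hy0_hom ψ) (hy0_hom_bij ψ)
  let e₂ : End K W ≃ₐ[K] Matrix (Fin (finrank K W)) (Fin (finrank K W)) K :=
    algEquivMatrix (finBasis K W)
  refine ⟨finrank K W, ?_, ⟨e₁.trans e₂⟩⟩
  intro h0
  have hW : W = ⊥ := Submodule.finrank_eq_zero.mp h0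
  have h1 : ψ (hy0_s (1 : A)) = 0 := LinearMap.range_eq_bot.mp hW
  have h2 : hy0_s (n := n) (1 : A) = 0 := by
    apply ψ.injective
    rw [h1, map_zero]
  have h3 : (1 : A) = 0 := by
    have := congrFun (congrFun h2 0) 0
    simpa [hy0_s] using this
  -- then everything is zero
  haveI : Subsingleton A := subsingleton_of_zero_eq_one h3.symm
  have h4 : (1 : End K (Fin m → K)) = 0 := by
    apply ψ.symm.injective
    exact Subsingleton.elim _ _
  have h5 := LinearMap.congr_fun h4 (fun _ => 1)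
  have h6 := congrFun h5 0
  simp at h6

end Pool.Agent.Helper8.Hey
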