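import Pool.Agent.Helper8.Hey.Pole
import Pool.Agent.Helper8.Hey.Asymp
import Pool.Agent.Helper8.Hey.Split

set_option autoImplicit false

/-! HY-22 -/

open Module
open scoped TensorProduct ContDiff

namespace Pool.Agent.Helper8.Hey

private theorem final_bump : ∃ Φ : ℝ → ℝ, ContDiff ℝ ∞ Φ ∧ (∀ x, 0 ≤ Φ x) ∧ Φ 1 = 1 ∧
    ∀ x, Φ x ≠ 0 → 1 / 2 ≤ x ∧ x ≤ 3 / 2 := by
  let f : ContDiffBump (1 : ℝ) := ⟨1 / 4, 1 / 2, by norm_num, by norm_num⟩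
  refine ⟨f, f.contDiff, fun x => f.nonneg, ?_, ?_⟩
  · refine f.one_of_mem_closedBall ?_
    simp [f]
  · intro x hx
    have h1 : x ∈ Function.support f := hx
    rw [f.support_eq, Real.ball_eq_Ioo] at h1
    have h2 : f.rOut = 1 / 2 := rfl
    rw [h2] at h1
    constructor
    · linarith [h1.1]
    · linarith [h1.2]

theorem hey_analytic (n : ℕ) (hn : 2 ≤ n)
    (h : ∀ Φ : ℝ → ℝ, ContDiff ℝ ∞ Φ → HasCompactSupport Φ → tsupport Φ ⊆ Set.Ioi 0 →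
      ∃ C : ℝ, ∀ k : ℕ, ∃ K : ℝ, ∀ T : ℝ, 1 ≤ T →
        |∑' m : ℕ, (cnt n m : ℝ) * Φ ((m : ℝ) ^ n / T ^ (n ^ 2)) - C * T ^ (n ^ 2)| ≤
          K * T ^ (n ^ 2) / T ^ k) : False := by
  obtain ⟨Φ, hΦ, hΦ0, hΦ1, hΦs⟩ := final_bump
  have hsub : ∀ (f : ℝ → ℝ), (∀ x, f x ≠ 0 → 1 / 2 ≤ x ∧ x ≤ 3 / 2) →
      HasCompactSupport f ∧ tsupport f ⊆ Set.Ioi 0 := by
    intro f hf
    have h1 : Function.support f ⊆ Set.Icc (1 / 2 : ℝ) (3 / 2) := fun x hx => hf x hx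
    refine ⟨HasCompactSupport.of_support_subset_isCompact isCompact_Icc h1, ?_⟩
    intro x hx
    have h2 : x ∈ Set.Icc (1 / 2 : ℝ) (3 / 2) := closure_minimal h1 isClosed_Icc hx
    show (0 : ℝ) < x
    linarith [h2.1]
  obtain ⟨C, hC⟩ := h Φ hΦ (hsub Φ hΦs).1 (hsub Φ hΦs).2
  obtain ⟨K, hK⟩ := hC (2 * n)
  have hn0 : n ≠ 0 := by omega
  set Ψ : ℝ → ℝ := fun t => Φ ((max t 0) ^ n) with hΨ
  have hΨs : ∀ x, Ψ x ≠ 0 → 1 / 2 ≤ x ∧ x ≤ 3 / 2 := by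
    intro x hx
    have h1 := hΦs _ hx
    have h0 : 0 ≤ max x 0 := le_max_right _ _
    have h2 : 1 / 2 ≤ max x 0 := by
      by_contra h3
      push Not at h3
      have : (max x 0) ^ n ≤ max x 0 := by
        calc (max x 0) ^ n ≤ (max x 0) ^ 1 := pow_le_pow_of_le_one h0 (by linarith) (by omega)
          _ = max x 0 := pow_one _
      linarith [h1.1]
    have h3 : max x 0 ≤ 3 / 2 := by
      by_contra h3
      push Not at h3
      have : max x 0 ≤ (max x 0) ^ n := le_self_pow₀ (by linarith) hn0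
      linarith [h1.2]
    have h4 : max x 0 = x := by
      rcases max_choice x 0 with h5 | h5
      · exact h5
      · rw [h5] at h2; norm_num at h2
    rw [h4] at h2 h3
    exact ⟨h2, h3⟩
  refine pole_contradiction n hn Ψ ?_ (hsub Ψ hΨs).1 (hsub Ψ hΨs).2 (fun x => hΦ0 _) ⟨1, ?_⟩
    C K 1 one_pos ?_
  · exact hΦ.continuous.comp (by fun_prop)
  · rw [hΨ]
    simp [hΦ1]
  · intro t ht ht1
    have hti : 1 ≤ t⁻¹ := (one_le_inv₀ ht).mpr ht1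
    set T : ℝ := (t⁻¹) ^ ((n : ℝ)⁻¹) with hT
    have hT1 : 1 ≤ T := Real.one_le_rpow hti (by positivity)
    have hTn : T ^ n = t⁻¹ := Real.rpow_inv_natCast_pow (by positivity) hn0
    have hTn2 : T ^ (n ^ 2) = (t ^ n)⁻¹ := by
      rw [pow_two, pow_mul, hTn, inv_pow]
    have hT2n : T ^ (2 * n) = (t ^ 2)⁻¹ := by
      rw [mul_comm, pow_mul, hTn, inv_pow]
    have h1 := hK T hT1
    rw [hTn2, hT2n] at h1
    have h2 : t ^ (-(n : ℝ)) = (t ^ n)⁻¹ := by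
      rw [Real.rpow_neg ht.le, Real.rpow_natCast]
    have h3 : t ^ (-(n : ℝ) + 1 + 1) = (t ^ n)⁻¹ * t ^ 2 := by
      rw [show -(n : ℝ) + 1 + 1 = -(n : ℝ) + (2 : ℕ) by push_cast; ring,
        Real.rpow_add ht, h2, Real.rpow_natCast]
    rw [h2, h3]
    have h4 : (fun m : ℕ => (cnt n m : ℝ) * Ψ (m * t)) =
        fun m : ℕ => (cnt n m : ℝ) * Φ ((m : ℝ) ^ n / (t ^ n)⁻¹) := by
      funext m
      rw [hΨ]
      simp only
      have h5 : 0 ≤ (m : ℝ) * t := by positivity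
      rw [max_eq_left h5, mul_pow, div_inv_eq_mul]
    rw [h4]
    refine h1.trans (le_of_eq ?_)
    rw [div_inv_eq_mul]
    ring

theorem hey (D : Type) [DivisionRing D] [Algebra ℚ D] [FiniteDimensional ℚ D]
    (hs : ∀ (p : ℕ) [Fact p.Prime], BR.BrEq ℚ_[p] (ℚ_[p] ⊗[ℚ] D) ℚ_[p]) :
    finrank ℚ D = 1 := by
  have h1 : ∀ (p : ℕ) [Fact p.Prime], ∃ n : ℕ, n ≠ 0 ∧ n ^ 2 = finrank ℚ D ∧
      Nonempty (ℚ_[p] ⊗[ℚ] D ≃ₐ[ℚ_[p]] Matrix (Fin n) (Fin n) ℚ_[p]) := by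
    intro p _
    obtain ⟨n, hn, ⟨e⟩⟩ := split_matrix ℚ_[p] (ℚ_[p] ⊗[ℚ] D) (hs p)
    refine ⟨n, hn, ?_, ⟨e⟩⟩
    have h2 := e.toLinearEquiv.finrank_eq
    rw [Module.finrank_baseChange, Module.finrank_matrix] at h2
    rw [h2]
    simp [pow_two]
  have : Fact (Nat.Prime 2) := ⟨Nat.prime_two⟩
  obtain ⟨n, hn, hn2, -⟩ := h1 2
  have h3 : ∀ (p : ℕ) [Fact p.Prime],
      Nonempty (ℚ_[p] ⊗[ℚ] D ≃ₐ[ℚ_[p]] Matrix (Fin n) (Fin n) ℚ_[p]) := by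
    intro p _
    obtain ⟨m, hm, hm2, he⟩ := h1 p
    have : m = n := by
      rw [← hn2] at hm2
      exact Nat.pow_left_injective (n := 2) (by norm_num) hm2
    rw [this] at he
    exact he
  by_cases h4 : n = 1
  · rw [← hn2, h4, one_pow]
  · exfalso
    refine hey_analytic n (by omega) ?_
    intro Φ hΦ hΦc hΦs
    exact main_asymp D n hn hn2.symm h3 Φ hΦ hΦc hΦs

end Pool.Agent.Helper8.Hey
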