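import Mathlib

set_option autoImplicit false

/-! HY-16 -/

open Module
open scoped TensorProduct ContDiff

namespace Pool.Agent.Helper8.Hey

private theorem l1_tsum_eq {S : ℝ} {g : ℝ → ℝ} (hg : ∀ x, S < |x| → g x = 0) (u : ℝ)
    (I : Finset ℤ) (hI : ∀ x : ℤ, |(x : ℝ) + u| ≤ S → x ∈ I) :
    ∑' x : ℤ, g (x + u) = ∑ x ∈ I, g (x + u) := by
  refine tsum_eq_sum fun x hx => hg _ ?_
  by_contra h
  exact hx (hI x (not_lt.1 h))

/-- one step -/
private theorem l1_step {S : ℝ} {g : ℝ → ℝ} (hgs : ContDiff ℝ ∞ g)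
    (hg : ∀ x, S < |x| → g x = 0) {M : ℝ} (hM : ∀ u : ℝ, |∑' x : ℤ, deriv g (x + u)| ≤ M)
    (u : ℝ) : |∑' x : ℤ, g (x + u) - ∫ x, g x| ≤ M := by
  have hM0 : 0 ≤ M := (abs_nonneg _).trans (hM 0)
  have hd : Differentiable ℝ g := hgs.differentiable (by simp)
  have hcont : Continuous g := hgs.continuous
  have hcs : HasCompactSupport g := by
    refine HasCompactSupport.of_support_subset_isCompact (isCompact_Icc (a := -S) (b := S)) ?_
    intro x hx
    by_contra h
    refine hx (hg x ?_)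
    rw [lt_abs]
    by_contra h'
    push Not at h'
    exact h ⟨by linarith [h'.2], h'.1⟩
  have hdg : ∀ x, S < |x| → deriv g x = 0 := by
    intro x hx
    have h1 : g =ᶠ[nhds x] fun _ => (0 : ℝ) := by
      filter_upwards [(isOpen_lt continuous_const continuous_abs).mem_nhds hx] with y hy
      exact hg y hy
    rw [h1.deriv_eq, deriv_const]
  -- the index set
  obtain ⟨I, hI⟩ : ∃ I : Finset ℤ, ∀ s ∈ Set.Icc (0 : ℝ) 1, ∀ x : ℤ,
      |(x : ℝ) + (u + s)| ≤ S → x ∈ I := by
    refine ⟨Finset.Icc ⌈-S - u - 1⌉ ⌊S - u⌋, fun s hs x hx => ?_⟩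
    rw [abs_le] at hx
    rw [Finset.mem_Icc]
    constructor
    · exact Int.ceil_le.2 (by linarith [hs.2, hx.1])
    · exact Int.le_floor.2 (by linarith [hs.1, hx.2])
  have hI0 : ∀ x : ℤ, |(x : ℝ) + u| ≤ S → x ∈ I := by
    intro x hx
    exact hI 0 (by simp) x (by simpa using hx)
  -- the integral as a sum
  have hint : MeasureTheory.Integrable (fun x => g (x + u)) :=
    (hcont.integrable_of_hasCompactSupport hcs).comp_add_right u
  have h1 : ∫ x, g x = ∑ x ∈ I, ∫ s in (0 : ℝ)..1, g (x + (u + s)) := by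
    rw [← MeasureTheory.integral_add_right_eq_self g u,
      ← hint.hasSum_intervalIntegral_comp_add_int.tsum_eq]
    rw [tsum_eq_sum (s := I)]
    · refine Finset.sum_congr rfl fun x _ => ?_
      refine intervalIntegral.integral_congr fun s _ => ?_
      congr 1
      ring
    · intro x hx
      have h2 : ∫ s in (0 : ℝ)..1, g (s + x + u) = ∫ s in (0 : ℝ)..1, (0 : ℝ) := by
        refine intervalIntegral.integral_congr fun s hs => ?_
        rw [Set.uIcc_of_le zero_le_one] at hs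
        apply hg
        by_contra h
        refine hx (hI s hs x ?_)
        rw [not_lt] at h
        rwa [show (x : ℝ) + (u + s) = s + x + u by ring]
      rw [h2, intervalIntegral.integral_zero]
  have h3 : ∑' x : ℤ, g (x + u) = ∑ x ∈ I, ∫ _s in (0 : ℝ)..1, g (x + u) := by
    rw [l1_tsum_eq hg u I hI0]
    refine Finset.sum_congr rfl fun x _ => ?_
    simp
  have hci : ∀ x : ℤ, Continuous fun s : ℝ => g (x + (u + s)) := fun x => by fun_prop
  have h4 : ∑' x : ℤ, g (x + u) - ∫ x, g x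
      = ∫ s in (0 : ℝ)..1, (∑ x ∈ I, (g (x + u) - g (x + (u + s)))) := by
    rw [h3, h1, ← Finset.sum_sub_distrib, intervalIntegral.integral_finsetSum]
    · refine Finset.sum_congr rfl fun x _ => ?_
      rw [intervalIntegral.integral_sub]
      · exact intervalIntegrable_const
      · exact (hci x).intervalIntegrable _ _
    · intro x _
      exact (continuous_const.sub (hci x)).intervalIntegrable _ _
  rw [h4]
  -- Lipschitz bound
  have h5 : ∀ s ∈ Set.Icc (0 : ℝ) 1, |∑ x ∈ I, (g (x + u) - g (x + (u + s)))| ≤ M := by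
    intro s hs
    have hder : ∀ t ∈ Set.Icc (0 : ℝ) 1, HasDerivWithinAt (fun t : ℝ => ∑ x ∈ I, g (x + (u + t)))
        (∑ x ∈ I, deriv g (x + (u + t))) (Set.Icc 0 1) t := by
      intro t _
      apply HasDerivAt.hasDerivWithinAt
      have h6 : ∀ x ∈ I, HasDerivAt (fun t : ℝ => g ((x : ℝ) + (u + t)))
          (deriv g (x + (u + t))) t := by
        intro x _
        have h7 : HasDerivAt (fun t : ℝ => (x : ℝ) + (u + t)) 1 t := by
          simpa using ((hasDerivAt_id t).const_add u).const_add (x : ℝ)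
        have h8 := (hd ((x : ℝ) + (u + t))).hasDerivAt.comp t h7
        rw [mul_one] at h8
        exact h8
      exact HasDerivAt.fun_sum h6
    have hbd : ∀ t ∈ Set.Icc (0 : ℝ) 1, ‖∑ x ∈ I, deriv g (x + (u + t))‖ ≤ M := by
      intro t ht
      have h9 := hM (u + t)
      rw [l1_tsum_eq hdg (u + t) I (hI t ht)] at h9
      rwa [Real.norm_eq_abs]
    have h10 := (convex_Icc (0 : ℝ) 1).norm_image_sub_le_of_norm_hasDerivWithin_le hder hbd hs
      (Set.left_mem_Icc.2 zero_le_one)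
    have h11 : ∑ x ∈ I, (g (x + u) - g (x + (u + s)))
        = ∑ x ∈ I, g (x + (u + 0)) - ∑ x ∈ I, g (x + (u + s)) := by
      rw [← Finset.sum_sub_distrib]
      simp
    rw [h11]
    rw [Real.norm_eq_abs, Real.norm_eq_abs] at h10
    refine h10.trans ?_
    have h12 : |0 - s| ≤ 1 := by
      rw [zero_sub, abs_neg, abs_of_nonneg hs.1]; exact hs.2
    calc M * |0 - s| ≤ M * 1 := mul_le_mul_of_nonneg_left h12 hM0
      _ = M := mul_one M
  have h6 := intervalIntegral.norm_integral_le_of_norm_le_const (a := (0 : ℝ)) (b := 1) (C := M)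
    (f := fun s => ∑ x ∈ I, (g (x + u) - g (x + (u + s)))) (fun s hs => by
      rw [Set.uIoc_of_le zero_le_one] at hs
      rw [Real.norm_eq_abs]
      exact h5 s ⟨hs.1.le, hs.2⟩)
  simpa using h6

private theorem l1_deriv_supp {S : ℝ} {g : ℝ → ℝ} (hg : ∀ x, S < |x| → g x = 0) (n : ℕ) :
    ∀ x, S < |x| → iteratedDeriv n g x = 0 := by
  intro x hx
  have h1 : g =ᶠ[nhds x] fun _ => (0 : ℝ) := by
    filter_upwards [(isOpen_lt continuous_const continuous_abs).mem_nhds hx] with y hy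
    exact hg y hy
  rw [h1.iteratedDeriv_eq]
  simp

private theorem l1_iter {S : ℝ} (k : ℕ) : ∀ {g : ℝ → ℝ}, ContDiff ℝ ∞ g →
    (∀ x, S < |x| → g x = 0) → ∀ {M : ℝ},
    (∀ u : ℝ, |∑' x : ℤ, iteratedDeriv (k + 1) g (x + u)| ≤ M) →
    ∀ u : ℝ, |∑' x : ℤ, g (x + u) - ∫ x, g x| ≤ M := by
  induction k with
  | zero =>
    intro g hgs hg M hM u
    refine l1_step hgs hg (fun v => ?_) u
    have := hM v
    simpa [iteratedDeriv_one] using this
  | succ k ih =>
    intro g hgs hg M hM u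
    have hgs' : ContDiff ℝ ∞ (deriv g) := by
      have h1 : ContDiff ℝ (∞ + 1) g := by simpa using hgs
      exact (contDiff_succ_iff_deriv.1 h1).2.2
    have hg' : ∀ x, S < |x| → deriv g x = 0 := by
      intro x hx
      have := l1_deriv_supp hg 1 x hx
      rwa [iteratedDeriv_one] at this
    have hM' : ∀ u : ℝ, |∑' x : ℤ, iteratedDeriv (k + 1) (deriv g) (x + u)| ≤ M := by
      intro v
      have := hM v
      rwa [iteratedDeriv_succ'] at this
    have h2 := ih hgs' hg' hM'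
    have hcs : HasCompactSupport g := by
      refine HasCompactSupport.of_support_subset_isCompact (isCompact_Icc (a := -S) (b := S)) ?_
      intro x hx
      by_contra h
      refine hx (hg x ?_)
      rw [lt_abs]
      by_contra h'
      push Not at h'
      exact h ⟨by linarith [h'.2], h'.1⟩
    have h3 : ∫ x, deriv g x = 0 := by
      refine MeasureTheory.integral_eq_zero_of_hasDerivAt_of_integrable
        (f := g) (fun x => (hgs.differentiable (by simp) x).hasDerivAt) ?_ ?_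
      · exact hgs'.continuous.integrable_of_hasCompactSupport hcs.deriv
      · exact hgs.continuous.integrable_of_hasCompactSupport hcs
    refine l1_step hgs hg (fun v => ?_) u
    have h4 := h2 v
    rwa [h3, sub_zero] at h4

private theorem l1_count {S B : ℝ} (hS : 0 ≤ S) (hB : 0 ≤ B) {h : ℝ → ℝ}
    (hh : ∀ x, S < |x| → h x = 0) (hb : ∀ x, |h x| ≤ B) (u : ℝ) :
    |∑' x : ℤ, h (x + u)| ≤ (2 * S + 1) * B := by
  rw [l1_tsum_eq hh u (Finset.Icc ⌈-S - u⌉ ⌊S - u⌋)]
  · refine (Finset.abs_sum_le_sum_abs _ _).trans ?_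
    refine (Finset.sum_le_sum fun x _ => hb _).trans ?_
    rw [Finset.sum_const, nsmul_eq_mul, Int.card_Icc]
    refine mul_le_mul_of_nonneg_right ?_ hB
    have h1 : (⌊S - u⌋ : ℝ) ≤ S - u := Int.floor_le _
    have h2 : -S - u ≤ (⌈-S - u⌉ : ℝ) := Int.le_ceil _
    have h3 : ((⌊S - u⌋ + 1 - ⌈-S - u⌉).toNat : ℝ) ≤ max ((⌊S - u⌋ + 1 - ⌈-S - u⌉ : ℤ) : ℝ) 0 := by
      rw [← Int.cast_natCast, Int.toNat_eq_max]
      push_cast
      exact le_rfl
    refine h3.trans (max_le ?_ (by linarith))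
    push_cast
    linarith
  · intro x hx
    rw [abs_le] at hx
    rw [Finset.mem_Icc]
    constructor
    · exact Int.ceil_le.2 (by linarith [hx.1])
    · exact Int.le_floor.2 (by linarith [hx.2])

/-- uniform one-dimensional Euler–Maclaurin for functions with support in `[-R, R]` -/
theorem lattice_sum_one (R : ℝ) (hR : 0 < R) (k : ℕ) : ∃ K : ℝ, ∀ (f : ℝ → ℝ) (B : ℝ),
    ContDiff ℝ ∞ f → (∀ x, R < |x| → f x = 0) → (∀ x, |iteratedDeriv (k + 1) f x| ≤ B) →
    ∀ T : ℝ, 1 ≤ T →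
      |∑' x : ℤ, f (T⁻¹ * x) - T * ∫ x, f x| ≤ K * B * T / T ^ k := by
  refine ⟨2 * R + 1, fun f B hf hs hb T hT => ?_⟩
  have hT0 : 0 < T := by linarith
  have hB : 0 ≤ B := (abs_nonneg _).trans (hb 0)
  have hg : ContDiff ℝ ∞ (fun x => f (T⁻¹ * x)) := hf.comp (contDiff_const.mul contDiff_id)
  have hgs : ∀ x, R * T < |x| → f (T⁻¹ * x) = 0 := by
    intro x hx
    apply hs
    rw [abs_mul, abs_of_pos (inv_pos.2 hT0), ← div_eq_inv_mul]
    rwa [lt_div_iff₀ hT0]
  have hder : iteratedDeriv (k + 1) (fun x => f (T⁻¹ * x))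
      = fun x => T⁻¹ ^ (k + 1) * iteratedDeriv (k + 1) f (T⁻¹ * x) :=
    iteratedDeriv_comp_const_mul (hf.of_le (by exact_mod_cast le_top)) T⁻¹
  have hbd : ∀ x, |iteratedDeriv (k + 1) (fun x => f (T⁻¹ * x)) x| ≤ T⁻¹ ^ (k + 1) * B := by
    intro x
    rw [hder]
    simp only
    rw [abs_mul, abs_of_nonneg (by positivity)]
    exact mul_le_mul_of_nonneg_left (hb _) (by positivity)
  have h1 : ∀ u : ℝ, |∑' x : ℤ, iteratedDeriv (k + 1) (fun x => f (T⁻¹ * x)) (x + u)|
      ≤ (2 * (R * T) + 1) * (T⁻¹ ^ (k + 1) * B) := fun u =>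
    l1_count (by positivity) (by positivity) (l1_deriv_supp hgs (k + 1)) hbd u
  have h2 := l1_iter k hg hgs h1 0
  simp only [add_zero] at h2
  have h3 : ∫ x, f (T⁻¹ * x) = T * ∫ x, f x := by
    rw [MeasureTheory.Measure.integral_comp_mul_left, inv_inv, abs_of_pos hT0, smul_eq_mul]
  rw [h3] at h2
  refine h2.trans ?_
  have h4 : (2 * (R * T) + 1) * (T⁻¹ ^ (k + 1) * B) ≤ (2 * R + 1) * B / T ^ k := by
    rw [inv_pow, pow_succ]
    have h5 : (2 * (R * T) + 1) ≤ (2 * R + 1) * T := by nlinarith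
    calc (2 * (R * T) + 1) * ((T ^ k * T)⁻¹ * B)
        ≤ (2 * R + 1) * T * ((T ^ k * T)⁻¹ * B) :=
          mul_le_mul_of_nonneg_right h5 (by positivity)
      _ = (2 * R + 1) * B / T ^ k := by field_simp
  refine h4.trans ?_
  refine div_le_div_of_nonneg_right ?_ (by positivity)
  calc (2 * R + 1) * B = (2 * R + 1) * B * 1 := (mul_one _).symm
    _ ≤ (2 * R + 1) * B * T := mul_le_mul_of_nonneg_left hT (by positivity)

end Pool.Agent.Helper8.Hey
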