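import Pool.Agent.Helper8.Hey.Dirichlet

set_option autoImplicit false

/-! HY-20 -/

open Module
open scoped TensorProduct ContDiff

namespace Pool.Agent.Helper8.Hey

open MeasureTheory Set

theorem mellin_conv_aux (Ψ : ℝ → ℝ) (hΨ : Continuous Ψ)
    (hΨc : HasCompactSupport Ψ) (hΨs : tsupport Ψ ⊆ Set.Ioi 0) (s : ℂ) :
    MellinConvergent (fun t => (Ψ t : ℂ)) s := by
  unfold MellinConvergent
  have h1 : ContinuousOn (fun t : ℝ => (t : ℂ) ^ (s - 1) • (Ψ t : ℂ)) (tsupport Ψ) := by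
    refine ContinuousOn.fun_smul ?_ ?_
    · intro t ht
      have ht0 : 0 < t := hΨs ht
      exact (Complex.continuousAt_ofReal_cpow_const t (s - 1) (Or.inr ht0.ne')).continuousWithinAt
    · exact (Complex.continuous_ofReal.comp hΨ).continuousOn
  have h2 : IntegrableOn (fun t : ℝ => (t : ℂ) ^ (s - 1) • (Ψ t : ℂ)) (tsupport Ψ) :=
    h1.integrableOn_compact hΨc
  have h3 : Integrable (fun t : ℝ => (t : ℂ) ^ (s - 1) • (Ψ t : ℂ)) := by
    rw [← integrableOn_iff_integrable_of_support_subset (s := tsupport Ψ)]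
    · exact h2
    · intro t ht
      apply subset_tsupport
      rw [Function.mem_support] at ht ⊢
      intro h0
      apply ht
      rw [h0]
      simp
  exact h3.integrableOn

theorem mellin_norm_aux (Ψ : ℝ → ℝ) (s : ℂ) (c : ℂ) (m : ℕ) (hm : m ≠ 0) :
    ∫ t in Ioi (0 : ℝ), ‖(t : ℂ) ^ (s - 1) • (c * (Ψ (m * t) : ℂ))‖ =
      (‖c‖ / (m : ℝ) ^ s.re) * ∫ t in Ioi (0 : ℝ), ‖(t : ℂ) ^ (s - 1) • (Ψ t : ℂ)‖ := by
  have hm0 : (0 : ℝ) < m := by exact_mod_cast Nat.pos_of_ne_zero hm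
  have h1 : ∫ t in Ioi (0 : ℝ), ‖(t : ℂ) ^ (s - 1) • (c * (Ψ (m * t) : ℂ))‖ =
      ∫ t in Ioi (0 : ℝ), (‖c‖ * (m : ℝ) ^ (1 - s.re)) *
        (fun u : ℝ => ‖(u : ℂ) ^ (s - 1) • (Ψ u : ℂ)‖) (m * t) := by
    apply setIntegral_congr_fun measurableSet_Ioi
    intro t ht
    have ht0 : (0 : ℝ) < t := ht
    have hmt : (0 : ℝ) < m * t := mul_pos hm0 ht0
    simp only [norm_smul, norm_mul]
    rw [Complex.norm_cpow_eq_rpow_re_of_pos ht0, Complex.norm_cpow_eq_rpow_re_of_pos hmt,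
      Complex.sub_re, Complex.one_re, Real.mul_rpow hm0.le ht0.le]
    have h2 : (m : ℝ) ^ (1 - s.re) * (m : ℝ) ^ (s.re - 1) = 1 := by
      rw [← Real.rpow_add hm0]
      simp
    calc t ^ (s.re - 1) * (‖c‖ * ‖(Ψ (m * t) : ℂ)‖) =
        ((m : ℝ) ^ (1 - s.re) * (m : ℝ) ^ (s.re - 1)) *
          (t ^ (s.re - 1) * (‖c‖ * ‖(Ψ (m * t) : ℂ)‖)) := by rw [h2, one_mul]
      _ = _ := by ring
  have h4 := integral_comp_mul_left_Ioi (fun u : ℝ => ‖(u : ℂ) ^ (s - 1) • (Ψ u : ℂ)‖) 0 hm0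
  rw [h1, integral_const_mul, h4, mul_zero, smul_eq_mul, ← mul_assoc]
  congr 1
  rw [mul_assoc, div_eq_mul_inv, ← Real.rpow_neg hm0.le, ← Real.rpow_neg_one (m : ℝ),
    ← Real.rpow_add hm0]
  congr 2
  ring

theorem mellin_sum (n : ℕ) (hn : n ≠ 0) (Ψ : ℝ → ℝ) (hΨ : Continuous Ψ)
    (hΨc : HasCompactSupport Ψ) (hΨs : tsupport Ψ ⊆ Set.Ioi 0) (s : ℂ) (hs : (n : ℝ) < s.re) :
    mellin (fun t => ((∑' m : ℕ, (cnt n m : ℝ) * Ψ (m * t) : ℝ) : ℂ)) s =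
      LSeries (fun m => (cnt n m : ℂ)) s * mellin (fun t => (Ψ t : ℂ)) s := by
  have hΨ0 : Ψ 0 = 0 := by
    by_contra h
    exact lt_irrefl (0 : ℝ) (hΨs (subset_tsupport Ψ h))
  have hconv := mellin_conv_aux Ψ hΨ hΨc hΨs s
  have hL := (LSeries_cnt n hn s hs).1
  have hterm : ∀ m : ℕ, mellin (fun t => (cnt n m : ℂ) * (Ψ (m * t) : ℂ)) s =
      LSeries.term (fun m => (cnt n m : ℂ)) s m * mellin (fun t => (Ψ t : ℂ)) s := by
    intro m
    rcases eq_or_ne m 0 with rfl | hm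
    · simp [hΨ0, mellin]
    · have hm0 : (0 : ℝ) < m := by exact_mod_cast Nat.pos_of_ne_zero hm
      have h1 := mellin_const_smul (fun t : ℝ => (Ψ (m * t) : ℂ)) s (cnt n m : ℂ)
      have h2 := mellin_comp_mul_left (fun t : ℝ => (Ψ t : ℂ)) s hm0
      simp only [smul_eq_mul] at h1 h2
      rw [h1, h2, LSeries.term_of_ne_zero hm, Complex.cpow_neg]
      push_cast
      ring
  have hint : ∀ m : ℕ, Integrable (fun t : ℝ => (t : ℂ) ^ (s - 1) • ((cnt n m : ℂ) *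
      (Ψ (m * t) : ℂ))) (volume.restrict (Ioi 0)) := by
    intro m
    rcases eq_or_ne m 0 with rfl | hm
    · simp [hΨ0]
    · have hm0 : (0 : ℝ) < m := by exact_mod_cast Nat.pos_of_ne_zero hm
      have h1 := (MellinConvergent.comp_mul_left (s := s) hm0).2 hconv
      exact h1.const_smul (cnt n m : ℂ)
  have hsum : Summable (fun m : ℕ => ∫ t in Ioi (0 : ℝ), ‖(t : ℂ) ^ (s - 1) • ((cnt n m : ℂ) *
      (Ψ (m * t) : ℂ))‖) := by
    have h1 : Summable (fun m : ℕ => ‖LSeries.term (fun m => (cnt n m : ℂ)) s m‖ *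
        ∫ t in Ioi (0 : ℝ), ‖(t : ℂ) ^ (s - 1) • (Ψ t : ℂ)‖) := hL.norm.mul_right _
    refine h1.congr fun m => ?_
    rcases eq_or_ne m 0 with rfl | hm
    · simp [hΨ0]
    · rw [mellin_norm_aux Ψ s _ m hm, LSeries.norm_term_eq, if_neg hm]
  have hmain := hasSum_integral_of_summable_integral_norm hint hsum
  have h3 : mellin (fun t => ((∑' m : ℕ, (cnt n m : ℝ) * Ψ (m * t) : ℝ) : ℂ)) s =
      ∫ t in Ioi (0 : ℝ), ∑' m : ℕ, (t : ℂ) ^ (s - 1) • ((cnt n m : ℂ) * (Ψ (m * t) : ℂ)) := by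
    unfold mellin
    apply setIntegral_congr_fun measurableSet_Ioi
    intro t _
    simp only [smul_eq_mul]
    rw [tsum_mul_left, Complex.ofReal_tsum]
    push_cast
    rfl
  rw [h3]
  have h4 : HasSum (fun m : ℕ => LSeries.term (fun m => (cnt n m : ℂ)) s m *
      mellin (fun t => (Ψ t : ℂ)) s) (LSeries (fun m => (cnt n m : ℂ)) s *
        mellin (fun t => (Ψ t : ℂ)) s) := hL.hasSum.mul_right _
  refine hmain.unique ?_
  have h5 : (fun m : ℕ => ∫ t in Ioi (0 : ℝ), (t : ℂ) ^ (s - 1) • ((cnt n m : ℂ) *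
      (Ψ (m * t) : ℂ))) = (fun m : ℕ => LSeries.term (fun m => (cnt n m : ℂ)) s m *
      mellin (fun t => (Ψ t : ℂ)) s) := funext hterm
  rw [h5]
  exact h4

end Pool.Agent.Helper8.Hey
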