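import Pool.Agent.Helper8.Hey.Mellin

set_option autoImplicit false

/-! HY-21 -/

open Module
open scoped TensorProduct ContDiff

namespace Pool.Agent.Helper8.Hey

open MeasureTheory Set Filter Complex Asymptotics
open scoped Topology

/-- the entire function `(s - 1) ζ(s)` -/
private noncomputable def poleZ : ℂ → ℂ :=
  Function.update (fun s => (s - 1) * riemannZeta s) 1 1

private theorem poleZ_of_ne {s : ℂ} (hs : s ≠ 1) : poleZ s = (s - 1) * riemannZeta s := by
  rw [poleZ, Function.update_of_ne hs]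

private theorem poleZ_one : poleZ 1 = 1 := by
  rw [poleZ, Function.update_self]

private theorem poleZ_differentiable : Differentiable ℂ poleZ := by
  have h0 : ∀ s : ℂ, s ≠ 1 → DifferentiableAt ℂ poleZ s := by
    intro s hs
    have : (fun s => (s - 1) * riemannZeta s) =ᶠ[𝓝 s] poleZ := by
      filter_upwards [isOpen_ne.mem_nhds hs] with z hz
      exact (poleZ_of_ne hz).symm
    refine DifferentiableAt.congr_of_eventuallyEq ?_ this.symm
    exact (differentiableAt_id.sub_const 1).mul (differentiableAt_riemannZeta hs)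
  intro s
  rcases eq_or_ne s 1 with rfl | hs
  · refine (Complex.analyticAt_of_differentiable_on_punctured_nhds_of_continuousAt
      ?_ ?_).differentiableAt
    · filter_upwards [self_mem_nhdsWithin] with z hz
      exact h0 z hz
    · rw [poleZ, continuousAt_update_same]
      exact riemannZeta_residue_one
  · exact h0 s hs

private theorem poleM_differentiable (Ψ : ℝ → ℝ) (hΨ : Continuous Ψ) (a B : ℝ) (ha : 0 < a)
    (hs : ∀ x, Ψ x ≠ 0 → a ≤ x ∧ x ≤ B) : Differentiable ℂ (mellin (fun t => (Ψ t : ℂ))) := by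
  intro s
  refine mellin_differentiableAt_of_isBigO_rpow (a := s.re + 1) (b := s.re - 1) ?_ ?_
    (by linarith) ?_ (by linarith)
  · exact ((continuous_ofReal.comp hΨ).locallyIntegrable).locallyIntegrableOn _
  · refine IsBigO.of_bound 1 ?_
    filter_upwards [eventually_gt_atTop B] with t ht
    have : Ψ t = 0 := by
      by_contra h
      exact absurd (hs t h).2 (not_le.mpr ht)
    rw [this]
    simp
  · refine IsBigO.of_bound 1 ?_
    filter_upwards [Ioo_mem_nhdsGT ha] with t ht
    have : Ψ t = 0 := by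
      by_contra h
      exact absurd (hs t h).1 (not_le.mpr ht.2)
    rw [this]
    simp

private theorem pole_cnt_zero (n : ℕ) : cnt n 0 = 0 := by
  cases n with
  | zero => simp [cnt]
  | succ n => simp [cnt]

private theorem pole_S_eq (n : ℕ) (Ψ : ℝ → ℝ) (B : ℝ)
    (hs : ∀ x, Ψ x ≠ 0 → x ≤ B) (δ : ℝ) (hδ : 0 < δ) :
    ∃ M : ℕ, ∀ t : ℝ, δ ≤ t → (∑' m : ℕ, (cnt n m : ℝ) * Ψ (m * t)) =
      ∑ m ∈ Finset.range M, (cnt n m : ℝ) * Ψ (m * t) := by
  obtain ⟨M, hM⟩ := exists_nat_gt (B / δ)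
  refine ⟨M, fun t ht => ?_⟩
  refine tsum_eq_sum ?_
  intro m hm
  rw [Finset.mem_range, not_lt] at hm
  have : Ψ (m * t) = 0 := by
    by_contra h
    have h1 := hs _ h
    have h2 : B < M * δ := by
      rwa [div_lt_iff₀ hδ] at hM
    have h3 : (M : ℝ) * δ ≤ m * t := by
      have : (M : ℝ) ≤ m := by exact_mod_cast hm
      gcongr
    linarith
  rw [this, mul_zero]

private theorem pole_S_cont (n : ℕ) (Ψ : ℝ → ℝ) (hΨ : Continuous Ψ) (B : ℝ)
    (hs : ∀ x, Ψ x ≠ 0 → x ≤ B) :
    ContinuousOn (fun t : ℝ => ∑' m : ℕ, (cnt n m : ℝ) * Ψ (m * t)) (Ioi 0) := by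
  intro t ht
  refine ContinuousAt.continuousWithinAt ?_
  have ht' : (0 : ℝ) < t := ht
  obtain ⟨M, hM⟩ := pole_S_eq n Ψ B hs (t / 2) (by positivity)
  have : (fun t : ℝ => ∑ m ∈ Finset.range M, (cnt n m : ℝ) * Ψ (m * t)) =ᶠ[𝓝 t]
      (fun t : ℝ => ∑' m : ℕ, (cnt n m : ℝ) * Ψ (m * t)) := by
    filter_upwards [lt_mem_nhds (show t / 2 < t by linarith)] with u hu
    exact (hM u hu.le).symm
  refine ContinuousAt.congr ?_ this
  refine Continuous.continuousAt ?_
  fun_prop

private theorem pole_S_zero (n : ℕ) (Ψ : ℝ → ℝ) (B : ℝ)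
    (hs : ∀ x, Ψ x ≠ 0 → x ≤ B) (t : ℝ) (ht : B < t) (ht0 : 0 < t) :
    (∑' m : ℕ, (cnt n m : ℝ) * Ψ (m * t)) = 0 := by
  have : ∀ m : ℕ, (cnt n m : ℝ) * Ψ (m * t) = 0 := by
    intro m
    rcases Nat.eq_zero_or_pos m with rfl | hm
    · rw [pole_cnt_zero]; simp
    · have : Ψ (m * t) = 0 := by
        by_contra h
        have h1 := hs _ h
        have h2 : (1 : ℝ) ≤ m := by exact_mod_cast hm
        nlinarith
      rw [this, mul_zero]
  simp [this]

/-- the analytic continuation argument -/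
private theorem pole_main (k : ℕ) (S : ℝ → ℝ) (hSc : ContinuousOn S (Ioi 0)) (B : ℝ)
    (hSB : ∀ t, B < t → 0 < t → S t = 0) (C K ε : ℝ) (hε : 0 < ε) (hε1 : ε ≤ 1 / 2)
    (h : ∀ t : ℝ, 0 < t → t ≤ 1 → |S t - C * t ^ (-((k + 2 : ℕ) : ℝ))| ≤
        K * t ^ (-((k + 2 : ℕ) : ℝ) + 1 + ε)) (M : ℂ → ℂ) (hM : Differentiable ℂ M)
    (hSM : ∀ s : ℂ, ((k + 2 : ℕ) : ℝ) < s.re → mellin (fun t => (S t : ℂ)) s =
      (∏ i ∈ Finset.range (k + 2), riemannZeta (s - i)) * M s) : M (k + 1) = 0 := by
  set n : ℝ := ((k + 2 : ℕ) : ℝ) with hn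
  have hnk : n = k + 2 := by rw [hn]; push_cast; ring
  set P : ℝ → ℂ := (Ioc (0 : ℝ) 1).indicator (fun t : ℝ => (t : ℂ) ^ (-(n : ℂ))) with hP
  set R : ℝ → ℂ := fun t => (S t : ℂ) - (C : ℂ) * P t with hR
  -- local integrability
  have hPint : LocallyIntegrableOn P (Ioi 0) := by
    have h1 : LocallyIntegrableOn (fun t : ℝ => (t : ℂ) ^ (-(n : ℂ))) (Ioi 0) := by
      refine ContinuousOn.locallyIntegrableOn ?_ measurableSet_Ioi
      intro t ht
      exact (continuousAt_ofReal_cpow_const _ _ (Or.inr (ne_of_gt ht))).continuousWithinAt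
    intro x hx
    obtain ⟨u, hu, hu2⟩ := h1 x hx
    exact ⟨u, hu, Integrable.indicator hu2 measurableSet_Ioc⟩
  have hSint : LocallyIntegrableOn (fun t => (S t : ℂ)) (Ioi 0) := by
    refine ContinuousOn.locallyIntegrableOn ?_ measurableSet_Ioi
    exact continuous_ofReal.comp_continuousOn hSc
  have hRint : LocallyIntegrableOn R (Ioi 0) := by
    intro x hx
    obtain ⟨u, hu, hu2⟩ := hPint x hx
    obtain ⟨v, hv, hv2⟩ := hSint x hx
    refine ⟨u ∩ v, inter_mem hu hv, ?_⟩
    exact (hv2.mono_set inter_subset_right).sub ((hu2.mono_set inter_subset_left).const_mul _)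
  have hRtop : ∀ a : ℝ, R =O[atTop] (fun t : ℝ => t ^ (-a)) := by
    intro a
    refine IsBigO.of_bound 1 ?_
    filter_upwards [eventually_gt_atTop B, eventually_gt_atTop 1] with t ht ht1
    have h1 : S t = 0 := hSB t ht (by linarith)
    have h2 : P t = 0 := by
      rw [hP, indicator_of_notMem]
      rintro ⟨_, h3⟩
      linarith
    rw [hR]
    simp only [h1, h2]
    simp
  have hRbot : R =O[𝓝[>] 0] (fun t : ℝ => t ^ (-(n - 1 - ε))) := by
    refine IsBigO.of_bound K ?_
    filter_upwards [Ioo_mem_nhdsGT (zero_lt_one : (0 : ℝ) < 1)] with t ht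
    have h1 : R t = ((S t - C * t ^ (-n) : ℝ) : ℂ) := by
      rw [hR, hP]
      simp only
      rw [indicator_of_mem (show t ∈ Ioc (0 : ℝ) 1 from ⟨ht.1, ht.2.le⟩)]
      push_cast [Complex.ofReal_cpow ht.1.le]
      ring
    rw [h1, Complex.norm_real, Real.norm_eq_abs, Real.norm_eq_abs,
      abs_of_pos (Real.rpow_pos_of_pos ht.1 _)]
    refine (h t ht.1 ht.2.le).trans (le_of_eq ?_)
    congr 2
    ring
  have hRdiff : ∀ s : ℂ, n - 1 - ε < s.re → DifferentiableAt ℂ (mellin R) s := by
    intro s hs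
    exact mellin_differentiableAt_of_isBigO_rpow (a := s.re + 1) hRint (hRtop _) (by linarith)
      hRbot hs
  have hRconv : ∀ s : ℂ, n - 1 - ε < s.re → MellinConvergent R s := by
    intro s hs
    exact mellinConvergent_of_isBigO_rpow (a := s.re + 1) hRint (hRtop _) (by linarith)
      hRbot hs
  -- the two analytic functions
  set U : Set ℂ := {s | n - 1 - ε < s.re} with hU
  have hUo : IsOpen U := isOpen_lt continuous_const Complex.continuous_re
  have hUc : IsPreconnected U := (convex_halfSpace_re_gt _).isPreconnected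
  set F1 : ℂ → ℂ := fun s => poleZ (s - (k + 1)) * poleZ (s - k) *
    (∏ i ∈ Finset.range k, riemannZeta (s - i)) * M s with hF1
  set F2 : ℂ → ℂ := fun s => (s - (k + 1)) * (C + (s - (k + 2)) * mellin R s) with hF2
  have hF1a : AnalyticOnNhd ℂ F1 U := by
    refine DifferentiableOn.analyticOnNhd ?_ hUo
    intro s hs
    refine DifferentiableAt.differentiableWithinAt ?_
    have hz : ∀ i ∈ Finset.range k, DifferentiableAt ℂ (fun s : ℂ => riemannZeta (s - i)) s := by
      intro i hi
      have hne : s - (i : ℂ) ≠ 1 := by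
        intro h1
        have h2 : s.re = i + 1 := by
          have := congrArg Complex.re h1
          simp at this
          linarith
        have h3 : (i : ℝ) + 1 ≤ k := by
          have := Finset.mem_range.mp hi
          exact_mod_cast this
        have h4 : n - 1 - ε < s.re := hs
        linarith
      exact DifferentiableAt.comp (g := riemannZeta) s (differentiableAt_riemannZeta hne)
        (differentiableAt_id.sub_const _)
    have h1 : DifferentiableAt ℂ (fun s : ℂ => poleZ (s - (k + 1))) s :=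
      DifferentiableAt.comp (g := poleZ) s (poleZ_differentiable _)
        (differentiableAt_id.sub_const _)
    have h2 : DifferentiableAt ℂ (fun s : ℂ => poleZ (s - k)) s :=
      DifferentiableAt.comp (g := poleZ) s (poleZ_differentiable _)
        (differentiableAt_id.sub_const _)
    have h3 : DifferentiableAt ℂ (fun s : ℂ => ∏ i ∈ Finset.range k, riemannZeta (s - i)) s :=
      DifferentiableAt.fun_finsetProd hz
    exact ((h1.mul h2).mul h3).mul (hM s)
  have hF2a : AnalyticOnNhd ℂ F2 U := by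
    refine DifferentiableOn.analyticOnNhd ?_ hUo
    intro s hs
    refine DifferentiableAt.differentiableWithinAt ?_
    exact (differentiableAt_id.sub_const _).mul ((differentiableAt_const _).add
      ((differentiableAt_id.sub_const _).mul (hRdiff s hs)))
  have heq : ∀ s : ℂ, n < s.re → F1 s = F2 s := by
    intro s hs
    have hsU : n - 1 - ε < s.re := by linarith
    have hP1 : HasMellin P s (1 / (s + (-(n : ℂ)))) := by
      refine hasMellin_cpow_Ioc (-(n : ℂ)) ?_
      simp
      linarith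
    have h1 : mellin (fun t => (S t : ℂ)) s = mellin R s + C * (1 / (s - n)) := by
      have h2 := hasMellin_const_smul hP1.1 (C : ℂ)
      have h3 := hasMellin_add (hRconv s hsU) h2.1
      have h4 : (fun t => R t + (C : ℂ) • P t) = fun t => (S t : ℂ) := by
        funext t
        simp [hR]
      rw [h4] at h3
      rw [h3.2, h2.2, hP1.2, smul_eq_mul, sub_eq_add_neg]
    have hs1 : s - n ≠ 0 := by
      intro h2
      have := congrArg Complex.re h2
      simp at this
      linarith
    have hnc : (n : ℂ) = k + 2 := by rw [hnk]; push_cast; ring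
    have h5 := hSM s hs
    rw [h1, Finset.prod_range_succ, Finset.prod_range_succ] at h5
    have hne1 : s - ((k : ℂ) + 1) ≠ 1 := by
      intro h2
      apply hs1
      rw [hnc]
      linear_combination h2
    have hne2 : s - (k : ℂ) ≠ 1 := by
      intro h2
      have := congrArg Complex.re h2
      simp at this
      linarith
    rw [hF1, hF2]
    simp only
    rw [poleZ_of_ne hne1, poleZ_of_ne hne2]
    push_cast at h5
    have h6 : (C : ℂ) + (s - (k + 2)) * mellin R s =
        (s - (k + 2)) * (mellin R s + C * (1 / (s - n))) := by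
      rw [← hnc]
      field_simp
      ring
    rw [h6, h5]
    ring
  have hk : EqOn F1 F2 U := by
    have hz0 : (n + 1 : ℂ) ∈ U := by
      show n - 1 - ε < ((n : ℂ) + 1).re
      simp
      linarith
    refine hF1a.eqOn_of_preconnected_of_eventuallyEq hF2a hUc hz0 ?_
    have : {s : ℂ | n < s.re} ∈ 𝓝 (n + 1 : ℂ) := by
      refine (isOpen_lt continuous_const Complex.continuous_re).mem_nhds ?_
      show n < ((n : ℂ) + 1).re
      simp
    filter_upwards [this] with s hs
    exact heq s hs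
  have hpt : (k + 1 : ℂ) ∈ U := by
    show n - 1 - ε < ((k : ℂ) + 1).re
    simp
    linarith
  have h7 := hk hpt
  rw [hF1, hF2] at h7
  simp only [sub_self, zero_mul] at h7
  have h8 : ((k : ℂ) + 1) - k = 1 := by ring
  rw [h8, poleZ_one, poleZ_of_ne zero_ne_one, riemannZeta_zero] at h7
  have h9 : (∏ i ∈ Finset.range k, riemannZeta ((k : ℂ) + 1 - i)) ≠ 0 := by
    refine Finset.prod_ne_zero_iff.mpr ?_
    intro i hi
    refine riemannZeta_ne_zero_of_one_lt_re ?_
    have : (i : ℝ) + 1 ≤ k := by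
      have := Finset.mem_range.mp hi
      exact_mod_cast this
    simp
    linarith
  rcases mul_eq_zero.mp h7 with h10 | h10
  · exfalso
    rcases mul_eq_zero.mp h10 with h11 | h11
    · norm_num at h11
    · exact h9 h11
  · exact h10

theorem pole_contradiction (n : ℕ) (hn : 2 ≤ n) (Ψ : ℝ → ℝ) (hΨ : Continuous Ψ)
    (hΨc : HasCompactSupport Ψ) (hΨs : tsupport Ψ ⊆ Set.Ioi 0) (hΨ0 : ∀ x, 0 ≤ Ψ x)
    (hΨ1 : ∃ x, Ψ x ≠ 0) (C K ε : ℝ) (hε : 0 < ε)
    (h : ∀ t : ℝ, 0 < t → t ≤ 1 →
      |∑' m : ℕ, (cnt n m : ℝ) * Ψ (m * t) - C * t ^ (-(n : ℝ))| ≤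
        K * t ^ (-(n : ℝ) + 1 + ε)) : False := by
  obtain ⟨x0, hx0⟩ := hΨ1
  have hne : (tsupport Ψ).Nonempty := ⟨x0, subset_tsupport _ hx0⟩
  obtain ⟨a, ha, haL⟩ := hΨc.isCompact.exists_isLeast hne
  obtain ⟨B, hB, hBG⟩ := hΨc.isCompact.exists_isGreatest hne
  have ha0 : 0 < a := hΨs ha
  have hs : ∀ x, Ψ x ≠ 0 → a ≤ x ∧ x ≤ B := fun x hx =>
    ⟨haL (subset_tsupport _ hx), hBG (subset_tsupport _ hx)⟩
  obtain ⟨k, rfl⟩ : ∃ k, n = k + 2 := ⟨n - 2, by omega⟩
  have hK : 0 ≤ K := by
    have h1 := h 1 one_pos le_rfl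
    rw [Real.one_rpow, Real.one_rpow, mul_one K] at h1
    exact (abs_nonneg _).trans h1
  have hM := poleM_differentiable Ψ hΨ a B ha0 hs
  have key : mellin (fun t => (Ψ t : ℂ)) (k + 1) = 0 := by
    refine pole_main k (fun t => ∑' m : ℕ, (cnt (k + 2) m : ℝ) * Ψ (m * t))
      (pole_S_cont _ Ψ hΨ B fun x hx => (hs x hx).2) B
      (fun t ht ht0 => pole_S_zero _ Ψ B (fun x hx => (hs x hx).2) t ht ht0) C K
      (min ε (1 / 2)) (lt_min hε (by norm_num)) (min_le_right _ _) ?_ _ hM ?_
    · intro t ht ht1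
      refine (h t ht ht1).trans ?_
      refine mul_le_mul_of_nonneg_left ?_ hK
      refine Real.rpow_le_rpow_of_exponent_ge ht ht1 ?_
      linarith [min_le_left ε (1 / 2)]
    · intro s hs
      rw [mellin_sum (k + 2) (by omega) Ψ hΨ hΨc hΨs s hs,
        (LSeries_cnt (k + 2) (by omega) s hs).2]
  -- positivity of the Mellin transform
  have h1 : mellin (fun t => (Ψ t : ℂ)) (k + 1) =
      ((∫ t in Ioi (0 : ℝ), t ^ k * Ψ t : ℝ) : ℂ) := by
    rw [mellin, ← integral_complex_ofReal]
    refine setIntegral_congr_fun measurableSet_Ioi ?_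
    intro t ht
    simp only [smul_eq_mul]
    rw [add_sub_cancel_right, Complex.cpow_natCast]
    push_cast
    rfl
  rw [h1] at key
  have h2 : (∫ t in Ioi (0 : ℝ), t ^ k * Ψ t) = 0 := by exact_mod_cast key
  have h3 : (∫ t in Ioi (0 : ℝ), t ^ k * Ψ t) = ∫ t : ℝ, t ^ k * Ψ t := by
    refine setIntegral_eq_integral_of_forall_compl_eq_zero ?_
    intro t ht
    have : Ψ t = 0 := by
      by_contra h4
      exact ht (ha0.trans_le (hs t h4).1)
    rw [this, mul_zero]
  rw [h3] at h2
  have hnn : ∀ t : ℝ, 0 ≤ t ^ k * Ψ t := by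
    intro t
    by_cases h4 : Ψ t = 0
    · rw [h4, mul_zero]
    · have : 0 < t := ha0.trans_le (hs t h4).1
      exact mul_nonneg (pow_nonneg this.le _) (hΨ0 t)
  have hcont : Continuous (fun t : ℝ => t ^ k * Ψ t) := by fun_prop
  have h5 : 0 < ∫ t : ℝ, t ^ k * Ψ t := by
    refine hcont.integral_pos_of_hasCompactSupport_nonneg_nonzero ?_ hnn (x := x0) ?_
    · exact hΨc.mul_left
    · have : 0 < x0 := ha0.trans_le (hs x0 hx0).1
      exact mul_ne_zero (pow_ne_zero _ this.ne') hx0
  linarith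

end Pool.Agent.Helper8.Hey
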