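import Mathlib

set_option autoImplicit false

/-! HY-13 -/

open Module
open scoped TensorProduct ContDiff

namespace Pool.Agent.Helper8.Hey

theorem exists_weight {N : ℕ} (hN : 0 < N) (Γ : Type) [Group Γ]
    (ρ : Γ →* Matrix (Fin N) (Fin N) ℝ) (P : (Fin N → ℝ) → ℝ) (hP : ContDiff ℝ ∞ P)
    (hom : ∀ (t : ℝ) (x : Fin N → ℝ), P (t • x) = t ^ N * P x)
    (inv : ∀ (g : Γ) (x : Fin N → ℝ), |P ((ρ g).mulVec x)| = |P x|)
    (hpd : ∀ K : Set (Fin N → ℝ), IsCompact K → (∀ x ∈ K, P x ≠ 0) →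
      {g : Γ | ∃ x ∈ K, (ρ g).mulVec x ∈ K}.Finite)
    (hcc : ∃ Ω : Set (Fin N → ℝ), IsCompact Ω ∧ (∀ x ∈ Ω, P x ≠ 0) ∧
      ∀ x, |P x| = 1 → ∃ g : Γ, (ρ g).mulVec x ∈ Ω) :
    ∃ w : (Fin N → ℝ) → ℝ, ContDiffOn ℝ ∞ w {x | P x ≠ 0} ∧
      (∀ (t : ℝ) (x : Fin N → ℝ), 0 < t → w (t • x) = w x) ∧
      (∀ x, P x ≠ 0 → HasSum (fun g : Γ => w ((ρ g).mulVec x)) 1) ∧
      ∃ K : Set (Fin N → ℝ), IsCompact K ∧ (∀ x ∈ K, P x ≠ 0) ∧
        ∀ x, |P x| = 1 → w x ≠ 0 → x ∈ K := by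
  classical
  have hPc : Continuous P := hP.continuous
  have hU : IsOpen {x | P x ≠ 0} := isOpen_ne_fun hPc continuous_const
  obtain ⟨Ω, hΩc, hΩP, hΩ⟩ := hcc
  obtain ⟨L, hLc, hΩL, hLU⟩ := exists_compact_between hΩc hU hΩP
  obtain ⟨φ, hφs, hφ, hφr⟩ := (isOpen_interior (s := L)).exists_contDiff_support_eq
  have hφ0 : ∀ x, 0 ≤ φ x := fun x => (hφr (Set.mem_range_self x)).1
  -- the normalising factor
  set e : ℝ := -((1 : ℝ) / N) with he
  let r : (Fin N → ℝ) → ℝ := fun x => |P x| ^ e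
  have hr_pos : ∀ x, P x ≠ 0 → 0 < r x := fun x hx =>
    Real.rpow_pos_of_pos (abs_pos.mpr hx) _
  have hr_pow : ∀ x, P x ≠ 0 → r x ^ N = |P x|⁻¹ := by
    intro x hx
    have habs : 0 < |P x| := abs_pos.mpr hx
    show (|P x| ^ e) ^ N = _
    rw [← Real.rpow_natCast, ← Real.rpow_mul habs.le]
    have : e * N = -1 := by
      rw [he]
      have : (N : ℝ) ≠ 0 := by exact_mod_cast hN.ne'
      field_simp
    rw [this, Real.rpow_neg_one]
  have hPr : ∀ x, P x ≠ 0 → |P (r x • x)| = 1 := by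
    intro x hx
    rw [hom, abs_mul, abs_of_pos (pow_pos (hr_pos x hx) N), hr_pow x hx,
      inv_mul_cancel₀ (abs_pos.mpr hx).ne']
  have hr_inv : ∀ (g : Γ) x, r ((ρ g).mulVec x) = r x := by
    intro g x
    show |P _| ^ e = |P x| ^ e
    rw [inv]
  have hr_cd : ∀ x, P x ≠ 0 → ContDiffAt ℝ ∞ r x := by
    intro x hx
    have h3 : ContDiffAt ℝ ∞ (fun y => |P y|) x :=
      (contDiffAt_abs hx).comp x hP.contDiffAt
    exact h3.rpow_const_of_ne (abs_pos.mpr hx).ne'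
  let φt : (Fin N → ℝ) → ℝ := fun x => φ (r x • x)
  have hφt0 : ∀ x, 0 ≤ φt x := fun x => hφ0 _
  have hφt_cd : ∀ x, P x ≠ 0 → ContDiffAt ℝ ∞ φt x := by
    intro x hx
    exact hφ.contDiffAt.comp x ((hr_cd x hx).smul contDiffAt_id)
  have hφt_g : ∀ (g : Γ) x, φt ((ρ g).mulVec x) = φ ((ρ g).mulVec (r x • x)) := by
    intro g x
    show φ (r _ • _) = _
    rw [hr_inv, Matrix.mulVec_smul]
  have hmulcd : ∀ g : Γ, ContDiff ℝ ∞ (fun x : Fin N → ℝ => (ρ g).mulVec x) := by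
    intro g
    exact (LinearMap.toContinuousLinearMap (Matrix.mulVecLin (ρ g))).contDiff
  have hPg : ∀ (g : Γ) x, P x ≠ 0 → P ((ρ g).mulVec x) ≠ 0 := by
    intro g x hx h
    apply hx
    rw [← abs_eq_zero, ← inv g x, h, abs_zero]
  -- local finiteness
  have hlf : ∀ x₀, P x₀ ≠ 0 → ∃ V ∈ nhds x₀, ∃ F : Finset Γ, (∀ x ∈ V, P x ≠ 0) ∧
      ∀ x ∈ V, ∀ g : Γ, φt ((ρ g).mulVec x) ≠ 0 → g ∈ F := by
    intro x₀ hx₀
    obtain ⟨V, hV, hVU, hVc⟩ := exists_compact_subset hU hx₀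
    have hVP : ∀ x ∈ V, P x ≠ 0 := fun x hx => hVc hx
    have hKc : IsCompact (L ∪ (fun x => r x • x) '' V) := by
      refine hLc.union (hV.image_of_continuousOn ?_)
      intro x hx
      have : ContinuousAt (fun x => r x • x) x :=
        (hr_cd x (hVP x hx)).continuousAt.smul continuousAt_id
      exact this.continuousWithinAt
    have hKP : ∀ x ∈ L ∪ (fun x => r x • x) '' V, P x ≠ 0 := by
      rintro x (hx | ⟨y, hy, rfl⟩)
      · exact hLU hx
      · intro h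
        have := hPr y (hVP y hy)
        simp only at h
        rw [h, abs_zero] at this
        exact zero_ne_one this
    have hfin := hpd _ hKc hKP
    refine ⟨V, mem_interior_iff_mem_nhds.mp hVU, hfin.toFinset, hVP, fun x hx g hg => ?_⟩
    rw [Set.Finite.mem_toFinset]
    refine ⟨r x • x, Or.inr ⟨x, hx, rfl⟩, Or.inl ?_⟩
    rw [hφt_g] at hg
    have : (ρ g).mulVec (r x • x) ∈ Function.support φ := hg
    rw [hφs] at this
    exact interior_subset this
  let W : (Fin N → ℝ) → ℝ := fun x => ∑' g : Γ, φt ((ρ g).mulVec x)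
  have hsum : ∀ x, P x ≠ 0 → Summable fun g : Γ => φt ((ρ g).mulVec x) := by
    intro x hx
    obtain ⟨V, hV, F, -, hF⟩ := hlf x hx
    refine summable_of_ne_finset_zero (s := F) fun g hg => ?_
    by_contra h
    exact hg (hF x (mem_of_mem_nhds hV) g h)
  have hWpos : ∀ x, P x ≠ 0 → 0 < W x := by
    intro x hx
    obtain ⟨g, hg⟩ := hΩ (r x • x) (hPr x hx)
    refine (hsum x hx).tsum_pos (fun g => hφt0 _) g ?_
    rw [hφt_g]
    refine lt_of_le_of_ne (hφ0 _) (Ne.symm ?_)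
    have : (ρ g).mulVec (r x • x) ∈ Function.support φ := by
      rw [hφs]; exact hΩL hg
    exact this
  have hWinv : ∀ (g : Γ) x, W ((ρ g).mulVec x) = W x := by
    intro g x
    show ∑' h : Γ, φt ((ρ h).mulVec ((ρ g).mulVec x)) = ∑' h : Γ, φt ((ρ h).mulVec x)
    rw [← (Equiv.mulRight g).tsum_eq (fun h : Γ => φt ((ρ h).mulVec x))]
    refine tsum_congr fun h => ?_
    rw [Matrix.mulVec_mulVec, ← map_mul]
    rfl
  have hWcd : ∀ x, P x ≠ 0 → ContDiffAt ℝ ∞ W x := by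
    intro x hx
    obtain ⟨V, hV, F, hVP, hF⟩ := hlf x hx
    have heq : W =ᶠ[nhds x] fun y => ∑ g ∈ F, φt ((ρ g).mulVec y) := by
      filter_upwards [hV] with y hy
      refine tsum_eq_sum fun g hg => ?_
      by_contra h
      exact hg (hF y hy g h)
    refine ContDiffAt.congr_of_eventuallyEq ?_ heq
    refine ContDiffAt.sum fun g _ => ?_
    exact (hφt_cd _ (hPg g x hx)).comp x (hmulcd g).contDiffAt
  -- scale invariance
  have hr_smul : ∀ (t : ℝ) x, 0 < t → r (t • x) • (t • x) = r x • x := by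
    intro t x ht
    have h1 : r (t • x) = t⁻¹ * r x := by
      show |P (t • x)| ^ e = t⁻¹ * |P x| ^ e
      rw [hom, abs_mul, abs_of_pos (pow_pos ht N),
        Real.mul_rpow (pow_pos ht N).le (abs_nonneg _)]
      congr 1
      rw [← Real.rpow_natCast, ← Real.rpow_mul ht.le]
      have : (N : ℝ) * e = -1 := by
        rw [he]
        have : (N : ℝ) ≠ 0 := by exact_mod_cast hN.ne'
        field_simp
      rw [this, Real.rpow_neg_one]
    rw [h1, smul_smul]
    congr 1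
    field_simp
  have hφt_smul : ∀ (t : ℝ) x, 0 < t → φt (t • x) = φt x := by
    intro t x ht
    show φ _ = φ _
    rw [hr_smul t x ht]
  have hW_smul : ∀ (t : ℝ) x, 0 < t → W (t • x) = W x := by
    intro t x ht
    show ∑' g : Γ, φt ((ρ g).mulVec (t • x)) = ∑' g : Γ, φt ((ρ g).mulVec x)
    refine tsum_congr fun g => ?_
    rw [Matrix.mulVec_smul, hφt_smul t _ ht]
  refine ⟨fun x => φt x / W x, ?_, ?_, ?_, L, hLc, hLU, ?_⟩
  · intro x hx
    exact ((hφt_cd x hx).div (hWcd x hx) (hWpos x hx).ne').contDiffWithinAt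
  · intro t x ht
    simp only
    rw [hφt_smul t x ht, hW_smul t x ht]
  · intro x hx
    have h1 : (fun g : Γ => φt ((ρ g).mulVec x) / W ((ρ g).mulVec x))
        = fun g : Γ => φt ((ρ g).mulVec x) / W x := by
      funext g
      rw [hWinv]
    simp only
    rw [h1]
    have h2 := (hsum x hx).hasSum.div_const (W x)
    have h3 : (∑' g : Γ, φt ((ρ g).mulVec x)) / W x = 1 := div_self (hWpos x hx).ne'
    rwa [h3] at h2
  · intro x hx hw
    have h1 : φt x ≠ 0 := by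
      intro h
      apply hw
      simp only
      rw [h, zero_div]
    have h2 : r x = 1 := by
      show |P x| ^ e = 1
      rw [hx, Real.one_rpow]
    have h3 : φt x = φ x := by
      show φ (r x • x) = φ x
      rw [h2, one_smul]
    rw [h3] at h1
    have : x ∈ Function.support φ := h1
    rw [hφs] at this
    exact interior_subset this

end Pool.Agent.Helper8.Hey
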