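import Pool.Agent.Helper8.Hey.Cocompact
import Pool.Agent.Helper8.Hey.Proper
import Pool.Agent.Helper8.Hey.Weight
import Pool.Agent.Helper8.Hey.Bump

set_option autoImplicit false

/-! HY-15 -/

open Module
open scoped TensorProduct ContDiff

namespace Pool.Agent.Helper8.Hey

private theorem isLeftIdeal_self {D : Type} [Ring D] (Λ : Subring D) :
    IsLeftIdeal Λ Λ.toAddSubgroup where
  le := le_rfl
  mul := fun _ ha _ hx => Λ.mul_mem ha hx
  fin := by rw [AddSubgroup.relIndex_self]; exact one_ne_zero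

private theorem map_mulRight {D : Type} [Ring D] [Algebra ℚ D] (J : AddSubgroup D) (y : D) :
    J.map (LinearMap.mulRight ℚ y).toAddMonoidHom = rt J y := by
  ext z
  rw [mem_rt, AddSubgroup.mem_map]
  rfl

private theorem det_mulRight_ne {D : Type} [DivisionRing D] [Algebra ℚ D] [FiniteDimensional ℚ D]
    (y : D) (hy : y ≠ 0) : LinearMap.det (LinearMap.mulRight ℚ y) ≠ 0 := by
  intro h
  have h1 : LinearMap.mulRight ℚ y ∘ₗ LinearMap.mulRight ℚ y⁻¹ = LinearMap.id := by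
    ext x
    simp [mul_assoc, inv_mul_cancel₀ hy]
  have h2 := congrArg LinearMap.det h1
  rw [LinearMap.det_comp, h, zero_mul, LinearMap.det_id] at h2
  exact zero_ne_one h2

/-- the index of a translate -/
private theorem relIndex_rt {D : Type} [DivisionRing D] [Algebra ℚ D] [FiniteDimensional ℚ D]
    (Λ : Subring D) (hΛ : IsOrder Λ) (J : AddSubgroup D) (hJ : IsLeftIdeal Λ J) (y : D)
    (hy : y ≠ 0) (hle : rt J y ≤ Λ.toAddSubgroup) :
    ((rt J y).relIndex Λ.toAddSubgroup : ℝ) = (J.relIndex Λ.toAddSubgroup : ℝ) *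
      |((LinearMap.det (LinearMap.mulRight ℚ y) : ℚ) : ℝ)| := by
  obtain ⟨b, hb⟩ := latBasis_leftIdeal D Λ hΛ _ (isLeftIdeal_self Λ)
  have h := relIndex_map Λ.toAddSubgroup J b hb hJ.le hJ.fin (LinearMap.mulRight ℚ y)
    (det_mulRight_ne y hy) (by rw [map_mulRight]; exact hle)
  rw [map_mulRight] at h
  have h2 := congrArg (fun q : ℚ => (q : ℝ)) h
  simpa using h2

theorem class_sum (D : Type) [DivisionRing D] [Algebra ℚ D] [FiniteDimensional ℚ D]
    (hLR : ∀ a : D, LinearMap.det (LinearMap.mulLeft ℚ a) =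
      LinearMap.det (LinearMap.mulRight ℚ a))
    (Λ : Subring D) (hΛ : IsOrder Λ) (J : AddSubgroup D) (hJ : IsLeftIdeal Λ J)
    (Φ : ℝ → ℝ) (hΦ : ContDiff ℝ ∞ Φ) (hΦc : HasCompactSupport Φ)
    (hΦs : tsupport Φ ⊆ Set.Ioi 0) :
    ∃ f : (Fin (finrank ℚ D) → ℝ) → ℝ, ContDiff ℝ ∞ f ∧ HasCompactSupport f ∧
      ∀ T : ℝ, 0 < T →
        ∑' I : {I : AddSubgroup D // IsLeftIdeal Λ I ∧ ∃ y : D, y ≠ 0 ∧ I = rt J y},
          Φ (((I : AddSubgroup D).relIndex Λ.toAddSubgroup : ℝ) / T ^ (finrank ℚ D)) =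
        ∑' x : Fin (finrank ℚ D) → ℤ, f (T⁻¹ • fun i => (x i : ℝ)) := by
  classical
  obtain ⟨b, hb⟩ := latBasis_quo D Λ hΛ J Λ.toAddSubgroup (quo Λ J) hJ (isLeftIdeal_self Λ)
    (fun y => Iff.rfl)
  have hN : 0 < finrank ℚ D := finrank_pos
  -- the action
  let ρ : stab J →* Matrix (Fin (finrank ℚ D)) (Fin (finrank ℚ D)) ℝ :=
    { toFun := fun g => actM b ((g : Dˣ) : D)
      map_one' := by
        simp only [OneMemClass.coe_one, Units.val_one]
        exact actM_one b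
      map_mul' := by
        intro g h
        simp only [Subgroup.coe_mul, Units.val_mul]
        exact actM_mul b _ _ }
  have hρ : ∀ g : stab J, ρ g = actM b ((g : Dˣ) : D) := fun g => rfl
  have hinv : ∀ (g : stab J) (x : Fin (finrank ℚ D) → ℝ),
      |nrm b ((ρ g).mulVec x)| = |nrm b x| := by
    intro g x
    rw [hρ, nrm_actM, abs_mul]
    have h1 := stab_det D Λ hΛ J hJ (g : Dˣ) g.2
    have h2 : |((LinearMap.det (LinearMap.mulRight ℚ ((g : Dˣ) : D)) : ℚ) : ℝ)| = 1 := by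
      exact_mod_cast congrArg (fun q : ℚ => (q : ℝ)) h1
    rw [h2, one_mul]
  have hpd : ∀ K : Set (Fin (finrank ℚ D) → ℝ), IsCompact K → (∀ x ∈ K, nrm b x ≠ 0) →
      {g : stab J | ∃ x ∈ K, (ρ g).mulVec x ∈ K}.Finite := by
    intro K hK h0
    refine Set.Finite.of_finite_image (f := fun g : stab J => (g : Dˣ)) ?_
      (Set.injOn_of_injective Subtype.val_injective)
    refine (proper D Λ hΛ J hJ b K hK h0).subset ?_
    rintro _ ⟨g, hg, rfl⟩
    exact ⟨g.2, hg⟩
  have hcc : ∃ Ω : Set (Fin (finrank ℚ D) → ℝ), IsCompact Ω ∧ (∀ x ∈ Ω, nrm b x ≠ 0) ∧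
      ∀ x, |nrm b x| = 1 → ∃ g : stab J, (ρ g).mulVec x ∈ Ω := by
    obtain ⟨Ω, h1, h2, h3⟩ := cocompact D hLR Λ hΛ J hJ b
    refine ⟨Ω, h1, h2, fun x hx => ?_⟩
    obtain ⟨u, hu, hux⟩ := h3 x hx
    exact ⟨⟨u, hu⟩, hux⟩
  obtain ⟨w, hw, hws, hw1, hwK⟩ := exists_weight hN (stab J) ρ (nrm b) (nrm_contDiff b)
    (nrm_smul b) hinv hpd hcc
  have hc : (0 : ℝ) < (J.relIndex Λ.toAddSubgroup : ℝ) := by
    have := hJ.fin
    positivity
  obtain ⟨hf1, hf2⟩ := exists_bump hN (nrm b) (nrm_contDiff b) (nrm_smul b) w hw hws hwK Φ hΦ hΦc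
    hΦs (J.relIndex Λ.toAddSubgroup : ℝ) hc
  refine ⟨_, hf1, hf2, fun T hT => ?_⟩
  -- finite support
  have hfin : (Function.support fun x : Fin (finrank ℚ D) → ℤ =>
      (fun x => if nrm b x = 0 then 0 else
        w x * Φ ((J.relIndex Λ.toAddSubgroup : ℝ) * |nrm b x|))
          (T⁻¹ • fun i => (x i : ℝ))).Finite := by
    obtain ⟨R, hR⟩ := hf2.isCompact.isBounded.subset_closedBall 0
    refine (Set.finite_Icc (fun _ => -⌈R * T⌉) (fun _ => ⌈R * T⌉)).subset ?_
    intro x hx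
    have h1 : (T⁻¹ • fun i => (x i : ℝ)) ∈ Metric.closedBall (0 : Fin (finrank ℚ D) → ℝ) R :=
      hR (subset_tsupport _ hx)
    rw [mem_closedBall_zero_iff] at h1
    have h2 : ∀ i, |(x i : ℝ)| ≤ R * T := by
      intro i
      have h3 := (norm_le_pi_norm (T⁻¹ • fun i => (x i : ℝ)) i).trans h1
      rw [Pi.smul_apply, smul_eq_mul, Real.norm_eq_abs, abs_mul, abs_of_pos (inv_pos.mpr hT),
        inv_mul_le_iff₀ hT] at h3
      linarith [mul_comm R T]
    rw [Set.mem_Icc, Pi.le_def, Pi.le_def]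
    constructor
    · intro i
      have := (abs_le.mp (h2 i)).1
      have h4 : (-⌈R * T⌉ : ℝ) ≤ x i := by
        have := Int.le_ceil (R * T)
        linarith
      exact_mod_cast h4
    · intro i
      have := (abs_le.mp (h2 i)).2
      have h4 : (x i : ℝ) ≤ ⌈R * T⌉ := by
        have := Int.le_ceil (R * T)
        linarith
      exact_mod_cast h4
  -- the elements of the lattice over each ideal
  choose yI hyI0 hyI using
    fun I : {I : AddSubgroup D // IsLeftIdeal Λ I ∧ ∃ y : D, y ≠ 0 ∧ I = rt J y} => I.2.2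
  have helt : ∀ (I : {I : AddSubgroup D // IsLeftIdeal Λ I ∧ ∃ y : D, y ≠ 0 ∧ I = rt J y})
      (g : stab J), rt J (((g : Dˣ) : D) * yI I) = (I : AddSubgroup D) := by
    intro I g
    rw [← rt_rt, (mem_stab J (g : Dˣ)).mp g.2]
    exact (hyI I).symm
  have helt0 : ∀ (I : {I : AddSubgroup D // IsLeftIdeal Λ I ∧ ∃ y : D, y ≠ 0 ∧ I = rt J y})
      (g : stab J), ((g : Dˣ) : D) * yI I ≠ 0 := by
    intro I g
    exact mul_ne_zero (Units.ne_zero _) (hyI0 I)
  have hquo : ∀ (I : {I : AddSubgroup D // IsLeftIdeal Λ I ∧ ∃ y : D, y ≠ 0 ∧ I = rt J y})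
      (g : stab J), ((g : Dˣ) : D) * yI I ∈ quo Λ J := by
    intro I g x hx
    have h1 : x * (((g : Dˣ) : D) * yI I) ∈ rt J (((g : Dˣ) : D) * yI I) :=
      (mem_rt _ _ _).mpr ⟨x, hx, rfl⟩
    rw [helt I g] at h1
    exact I.2.1.le h1
  have hcrd := fun I g => (hb _).mp (hquo I g)
  choose crd hcrd using hcrd
  have hvec : ∀ I g, (fun i => (crd I g i : ℝ)) = vec b (((g : Dˣ) : D) * yI I) := by
    intro I g
    funext i
    unfold vec
    rw [hcrd I g i]
    simp
  have hinj : Function.Injective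
      (fun p : {I : AddSubgroup D // IsLeftIdeal Λ I ∧ ∃ y : D, y ≠ 0 ∧ I = rt J y} × stab J =>
        crd p.1 p.2) := by
    rintro ⟨I, g⟩ ⟨I', g'⟩ h
    simp only at h
    have h1 : ((g : Dˣ) : D) * yI I = ((g' : Dˣ) : D) * yI I' := by
      apply b.repr.injective
      ext i
      rw [hcrd I g i, hcrd I' g' i, h]
    have h2 : I = I' := by
      apply Subtype.ext
      rw [← helt I g, h1, helt I' g']
    subst h2
    have h3 : ((g : Dˣ) : D) = ((g' : Dˣ) : D) := mul_right_cancel₀ (hyI0 I) h1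
    have h4 : g = g' := Subtype.ext (Units.ext h3)
    rw [h4]
  have hrange : ∀ x ∉ Set.range
      (fun p : {I : AddSubgroup D // IsLeftIdeal Λ I ∧ ∃ y : D, y ≠ 0 ∧ I = rt J y} × stab J =>
        crd p.1 p.2),
      (fun x => if nrm b x = 0 then 0 else
        w x * Φ ((J.relIndex Λ.toAddSubgroup : ℝ) * |nrm b x|))
          (T⁻¹ • fun i => (x i : ℝ)) = 0 := by
    intro x hx
    by_contra hne
    apply hx
    have hn0 : nrm b (T⁻¹ • fun i => (x i : ℝ)) ≠ 0 := by
      intro h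
      exact hne (if_pos h)
    rw [nrm_smul] at hn0
    have hn1 : nrm b (fun i => (x i : ℝ)) ≠ 0 := right_ne_zero_of_mul hn0
    set y : D := b.equivFun.symm (fun i => (x i : ℚ)) with hy
    have hrepr : ∀ i, b.repr y i = (x i : ℚ) := by
      intro i
      rw [hy, ← Basis.equivFun_apply, LinearEquiv.apply_symm_apply]
    have hvy : vec b y = fun i => (x i : ℝ) := by
      funext i
      unfold vec
      rw [hrepr i]
      simp
    have hy0 : y ≠ 0 := by
      intro h0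
      apply hn1
      rw [← hvy, nrm_vec, h0]
      have : LinearMap.mulRight ℚ (0 : D) = 0 := by ext; simp
      rw [this, LinearMap.det_zero, zero_pow hN.ne']
      simp
    have hyq : y ∈ quo Λ J := (hb y).mpr (fun i => ⟨x i, hrepr i⟩)
    have hle : rt J y ≤ Λ.toAddSubgroup := by
      intro z hz
      obtain ⟨a, ha, rfl⟩ := (mem_rt _ _ _).mp hz
      exact hyq a ha
    have hI : IsLeftIdeal Λ (rt J y) := by
      refine ⟨hle, ?_, ?_⟩
      · intro a ha z hz
        obtain ⟨t, ht, rfl⟩ := (mem_rt _ _ _).mp hz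
        rw [← mul_assoc]
        exact (mem_rt _ _ _).mpr ⟨a * t, hJ.mul a ha t ht, rfl⟩
      · intro h0
        have h1 := relIndex_rt Λ hΛ J hJ y hy0 hle
        rw [h0] at h1
        have h2 : ((LinearMap.det (LinearMap.mulRight ℚ y) : ℚ) : ℝ) ≠ 0 := by
          exact_mod_cast det_mulRight_ne y hy0
        have h3 : (J.relIndex Λ.toAddSubgroup : ℝ) *
          |((LinearMap.det (LinearMap.mulRight ℚ y) : ℚ) : ℝ)| ≠ 0 :=
          mul_ne_zero hc.ne' (abs_ne_zero.mpr h2)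
        exact h3 (by rw [← h1]; simp)
    let I : {I : AddSubgroup D // IsLeftIdeal Λ I ∧ ∃ y : D, y ≠ 0 ∧ I = rt J y} :=
      ⟨rt J y, hI, y, hy0, rfl⟩
    have hyI' : rt J y = rt J (yI I) := hyI I
    let u : Dˣ := Units.mk0 (y * (yI I)⁻¹) (mul_ne_zero hy0 (inv_ne_zero (hyI0 I)))
    have hu : u ∈ stab J := by
      rw [mem_stab]
      change rt J (y * (yI I)⁻¹) = J
      rw [← rt_rt, hyI', rt_rt, mul_inv_cancel₀ (hyI0 I), rt_one]
    refine ⟨(I, ⟨u, hu⟩), ?_⟩
    funext i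
    have h5 := hcrd I ⟨u, hu⟩ i
    have h6 : (((⟨u, hu⟩ : stab J) : Dˣ) : D) * yI I = y := by
      change y * (yI I)⁻¹ * yI I = y
      rw [mul_assoc, inv_mul_cancel₀ (hyI0 I), mul_one]
    rw [h6, hrepr i] at h5
    exact_mod_cast h5.symm
  have hS : HasSum (fun x : Fin (finrank ℚ D) → ℤ =>
      (fun x => if nrm b x = 0 then 0 else
        w x * Φ ((J.relIndex Λ.toAddSubgroup : ℝ) * |nrm b x|))
          (T⁻¹ • fun i => (x i : ℝ)))
      (∑' x : Fin (finrank ℚ D) → ℤ, (fun x => if nrm b x = 0 then 0 else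
        w x * Φ ((J.relIndex Λ.toAddSubgroup : ℝ) * |nrm b x|))
          (T⁻¹ • fun i => (x i : ℝ))) :=
    (summable_of_hasFiniteSupport hfin).hasSum
  rw [← hinj.hasSum_iff hrange] at hS
  have hfib : ∀ I : {I : AddSubgroup D // IsLeftIdeal Λ I ∧ ∃ y : D, y ≠ 0 ∧ I = rt J y},
      HasSum (fun g : stab J => (fun x => if nrm b x = 0 then 0 else
        w x * Φ ((J.relIndex Λ.toAddSubgroup : ℝ) * |nrm b x|))
          (T⁻¹ • fun i => (crd I g i : ℝ)))
        (Φ (((I : AddSubgroup D).relIndex Λ.toAddSubgroup : ℝ) / T ^ (finrank ℚ D))) := by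
    intro I
    have hdet : ∀ z : D, z ≠ 0 → nrm b (vec b z) ≠ 0 := by
      intro z hz
      rw [nrm_vec]
      exact_mod_cast det_mulRight_ne z hz
    have h1 := (hw1 (vec b (yI I)) (hdet _ (hyI0 I))).mul_right
      (Φ (((I : AddSubgroup D).relIndex Λ.toAddSubgroup : ℝ) / T ^ (finrank ℚ D)))
    rw [one_mul] at h1
    suffices hfun : (fun g : stab J => (fun x => if nrm b x = 0 then 0 else
        w x * Φ ((J.relIndex Λ.toAddSubgroup : ℝ) * |nrm b x|))
          (T⁻¹ • fun i => (crd I g i : ℝ))) = fun g => w ((ρ g).mulVec (vec b (yI I))) *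
          Φ (((I : AddSubgroup D).relIndex Λ.toAddSubgroup : ℝ) / T ^ (finrank ℚ D)) by
      rw [hfun]
      exact h1
    funext g
    have h2 := helt0 I g
    have h3 : nrm b (vec b (((g : Dˣ) : D) * yI I)) ≠ 0 := hdet _ h2
    have h4 : vec b (((g : Dˣ) : D) * yI I) = (ρ g).mulVec (vec b (yI I)) := by
      rw [hρ, actM_vec]
    have h5 : nrm b (T⁻¹ • fun i => (crd I g i : ℝ)) ≠ 0 := by
      rw [nrm_smul, hvec I g]
      exact mul_ne_zero (pow_ne_zero _ (inv_ne_zero hT.ne')) h3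
    beta_reduce
    rw [if_neg h5, hws _ _ (inv_pos.mpr hT), nrm_smul, hvec I g, ← h4]
    congr 2
    have h6 := relIndex_rt Λ hΛ J hJ _ h2 (by rw [helt I g]; exact I.2.1.le)
    rw [helt I g] at h6
    rw [h6, abs_mul, nrm_vec, abs_of_pos (pow_pos (inv_pos.mpr hT) _), inv_pow]
    field_simp
  have hP := HasSum.prod_fiberwise hS hfib
  exact hP.tsum_eq

end Pool.Agent.Helper8.Hey
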